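import Pool.Agent.CRF.Targets
import Pool.Agent.CRN.P_RMN

set_option autoImplicit false

/-!
# CRF, target RMG: Rademacher-Menshov for integer radii, all square integrable functions
-/

namespace Pool.Agent.CRF

open MeasureTheory FourierTransform Set Filter Topology
open scoped ENNReal NNReal
open Pool.Agent.MBS (E ex S Sstar)
open Pool.Agent.CRN (IN)
open Pool.Agent.CRN.RMN_ (rd chain_enorm sup_sq_le IN_cont planch An An_meas An_disj)

namespace RMG_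

variable {n : ℕ}

/-- ball integrals -/
noncomputable def Sg (g : E n → ℂ) (R : ℝ) (x : E n) : ℂ :=
  ∫ ξ in Metric.closedBall (0 : E n) R, g ξ * ex x ξ

theorem ex_norm (x ξ : E n) : ‖ex x ξ‖ = 1 := by
  have h : ex x ξ = Complex.exp (((2 * Real.pi * (inner ℝ x ξ : ℝ) : ℝ) : ℂ) * Complex.I) := by
    unfold ex
    congr 1
    push_cast
    ring
  rw [h, Complex.norm_exp_ofReal_mul_I]

theorem ex_c (x : E n) : Continuous (fun ξ : E n => ex x ξ) :=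
  Pool.Agent.MBS.ex_continuous.comp (Continuous.prodMk_right x)

theorem ball_int {g : E n → ℂ} (hg : MemLp g 2) (b : ℝ) :
    IntegrableOn g (Metric.closedBall (0 : E n) b) := by
  have hfin : IsFiniteMeasure (volume.restrict (Metric.closedBall (0 : E n) b)) :=
    ⟨by rw [Measure.restrict_apply_univ]; exact measure_closedBall_lt_top⟩
  exact (hg.restrict _).integrable one_le_two

theorem An_int {g : E n → ℂ} (hg : MemLp g 2) (a b : ℝ) :
    Integrable ((An n a b).indicator g) :=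
  ((ball_int hg b).mono_set sdiff_subset).integrable_indicator (An_meas a b)

theorem Sg_sub {g : E n → ℂ} (hg : MemLp g 2) {a b : ℝ} (hab : a ≤ b) (x : E n) :
    Sg g b x - Sg g a x = IN ((An n a b).indicator g) x := by
  have h1 : IntegrableOn (fun ξ : E n => g ξ * ex x ξ) (Metric.closedBall (0 : E n) b) :=
    Integrable.mul_bdd (c := 1) (ball_int hg b) (ex_c x).aestronglyMeasurable
      (ae_of_all _ fun ξ => (ex_norm x ξ).le)
  have h2 : Metric.closedBall (0 : E n) a ⊆ Metric.closedBall (0 : E n) b :=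
    Metric.closedBall_subset_closedBall hab
  have h3 := setIntegral_sdiff Metric.isClosed_closedBall.measurableSet h1 h2
  rw [Sg, Sg, ← h3, IN]
  have h4 : Metric.closedBall (0 : E n) b \ Metric.closedBall (0 : E n) a = An n a b := rfl
  rw [h4, ← integral_indicator (An_meas a b)]
  refine integral_congr_ae (Filter.Eventually.of_forall fun ξ => ?_)
  by_cases hξ : ξ ∈ An n a b
  · simp only [indicator_of_mem hξ]
  · simp only [indicator_of_notMem hξ, zero_mul]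

theorem Sg_zero (hn : 1 ≤ n) (g : E n → ℂ) (x : E n) : Sg g 0 x = 0 := by
  have : Nonempty (Fin n) := ⟨⟨0, hn⟩⟩
  have h1 : volume (Metric.closedBall (0 : E n) 0) = 0 := by
    rw [Metric.closedBall_zero]
    exact measure_singleton _
  rw [Sg]
  exact setIntegral_measure_zero _ h1

theorem main (hn : 1 ≤ n) (M : ℕ) {g : E n → ℂ} (hg2 : MemLp g 2) :
    ∫⁻ x, (⨆ (j : ℕ) (_ : j ≤ 2 ^ M), ‖Sg g (j : ℝ) x‖ₑ) ^ 2 ≤
      ((1 : ℝ≥0) : ℝ≥0∞) * ((M : ℝ≥0∞) + 1) ^ 2 * ∫⁻ ξ, ‖g ξ‖ₑ ^ 2 := by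
  have hm : ∀ l i : ℕ, Measurable fun x : E n =>
      ‖IN ((An n ((i * 2 ^ l : ℕ) : ℝ) (((i + 1) * 2 ^ l : ℕ) : ℝ)).indicator g) x‖ₑ ^ 2 :=
    fun l i => (IN_cont (An_int hg2 _ _)).measurable.enorm.pow_const 2
  have hpt : ∀ x : E n, (⨆ (j : ℕ) (_ : j ≤ 2 ^ M), ‖Sg g (j : ℝ) x‖ₑ) ^ 2 ≤
      ((M : ℝ≥0∞) + 1) * ∑ l ∈ Finset.range (M + 1), ∑ i ∈ Finset.range (2 ^ M),
        ‖IN ((An n ((i * 2 ^ l : ℕ) : ℝ) (((i + 1) * 2 ^ l : ℕ) : ℝ)).indicator g) x‖ₑ ^ 2 := by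
    intro x
    refine sup_sq_le fun j hj => ?_
    have h0 : Sg g ((0 : ℕ) : ℝ) x = 0 := by
      rw [Nat.cast_zero]
      exact Sg_zero hn g x
    have h1 := chain_enorm (fun j : ℕ => Sg g (j : ℝ) x) h0 hj
    refine h1.trans (le_of_eq ?_)
    congr 1
    refine Finset.sum_congr rfl fun l _ => Finset.sum_congr rfl fun i _ => ?_
    rw [Sg_sub hg2 (by exact_mod_cast Nat.mul_le_mul_right _ (Nat.le_succ i))]
  have hsum : ∀ l : ℕ, ∑ i ∈ Finset.range (2 ^ M), ∫⁻ x,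
      ‖IN ((An n ((i * 2 ^ l : ℕ) : ℝ) (((i + 1) * 2 ^ l : ℕ) : ℝ)).indicator g) x‖ₑ ^ 2 ≤
        ∫⁻ ξ, ‖g ξ‖ₑ ^ 2 := by
    intro l
    calc ∑ i ∈ Finset.range (2 ^ M), ∫⁻ x,
          ‖IN ((An n ((i * 2 ^ l : ℕ) : ℝ) (((i + 1) * 2 ^ l : ℕ) : ℝ)).indicator g) x‖ₑ ^ 2
        = ∑ i ∈ Finset.range (2 ^ M), ∫⁻ ξ in
          An n ((i * 2 ^ l : ℕ) : ℝ) (((i + 1) * 2 ^ l : ℕ) : ℝ), ‖g ξ‖ₑ ^ 2 := by
          refine Finset.sum_congr rfl fun i _ => ?_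
          rw [planch (An_int hg2 _ _) (hg2.indicator (An_meas _ _)),
            ← lintegral_indicator (An_meas _ _)]
          refine lintegral_congr fun ξ => ?_
          by_cases hξ : ξ ∈ An n ((i * 2 ^ l : ℕ) : ℝ) (((i + 1) * 2 ^ l : ℕ) : ℝ)
          · rw [indicator_of_mem hξ, indicator_of_mem hξ]
          · rw [indicator_of_notMem hξ, indicator_of_notMem hξ]
            simp
      _ = ∫⁻ ξ in ⋃ i ∈ Finset.range (2 ^ M),
          An n ((i * 2 ^ l : ℕ) : ℝ) (((i + 1) * 2 ^ l : ℕ) : ℝ), ‖g ξ‖ₑ ^ 2 := by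
          rw [lintegral_biUnion_finset (fun i _ j _ hij => An_disj l hij)
            (fun i _ => An_meas _ _)]
      _ ≤ ∫⁻ ξ, ‖g ξ‖ₑ ^ 2 := setLIntegral_le_lintegral _ _
  calc ∫⁻ x, (⨆ (j : ℕ) (_ : j ≤ 2 ^ M), ‖Sg g (j : ℝ) x‖ₑ) ^ 2
      ≤ ∫⁻ x, ((M : ℝ≥0∞) + 1) * ∑ l ∈ Finset.range (M + 1), ∑ i ∈ Finset.range (2 ^ M),
        ‖IN ((An n ((i * 2 ^ l : ℕ) : ℝ) (((i + 1) * 2 ^ l : ℕ) : ℝ)).indicator g) x‖ₑ ^ 2 :=
        lintegral_mono hpt
    _ = ((M : ℝ≥0∞) + 1) * ∑ l ∈ Finset.range (M + 1), ∑ i ∈ Finset.range (2 ^ M), ∫⁻ x,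
        ‖IN ((An n ((i * 2 ^ l : ℕ) : ℝ) (((i + 1) * 2 ^ l : ℕ) : ℝ)).indicator g) x‖ₑ ^ 2 := by
        rw [lintegral_const_mul _ (Finset.measurable_sum _ fun l _ =>
          Finset.measurable_sum _ fun i _ => hm l i),
          lintegral_finsetSum _ fun l _ => Finset.measurable_sum _ fun i _ => hm l i]
        congr 1
        refine Finset.sum_congr rfl fun l _ => ?_
        rw [lintegral_finsetSum _ fun i _ => hm l i]
    _ ≤ ((M : ℝ≥0∞) + 1) * ∑ l ∈ Finset.range (M + 1), ∫⁻ ξ, ‖g ξ‖ₑ ^ 2 := by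
        gcongr with l hl
        exact hsum l
    _ = ((1 : ℝ≥0) : ℝ≥0∞) * ((M : ℝ≥0∞) + 1) ^ 2 * ∫⁻ ξ, ‖g ξ‖ₑ ^ 2 := by
        rw [Finset.sum_const, Finset.card_range, nsmul_eq_mul]
        push_cast
        ring

end RMG_

open RMG_ in
theorem p_RMG : T_RMG := by
  intro n hn
  refine ⟨1, ?_⟩
  intro M g hg
  by_cases htop : ∫⁻ ξ, ‖g ξ‖ₑ ^ 2 = ⊤
  · rw [htop, ENNReal.mul_top]
    · exact le_top
    · have : ((M : ℝ≥0∞) + 1) ^ 2 ≠ 0 := pow_ne_zero 2 (by simp)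
      simpa using this
  · have hg2 : MemLp g 2 := by
      refine ⟨hg.aestronglyMeasurable, ?_⟩
      rw [eLpNorm_lt_top_iff_lintegral_rpow_enorm_lt_top (by norm_num) (by norm_num)]
      simp only [ENNReal.toReal_ofNat, ENNReal.rpow_ofNat]
      exact lt_top_iff_ne_top.2 htop
    exact main hn M hg2

end Pool.Agent.CRF
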