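import Pool.Agent.CRF.Targets
import Pool.Agent.MBS.J1

set_option autoImplicit false

/-!
# CRF-FAE: almost everywhere convergence from a weak type inequality (adapted from `KSP/FA2.lean`)
-/

namespace Pool.Agent.CRF

open MeasureTheory FourierTransform Set Filter Topology
open scoped ENNReal NNReal
open Pool.Agent.MBS (E ex S Sstar)
open Pool.Agent.CRN (IN Nice)

namespace FAE_

variable {d : ℕ}

/-- the ball integral -/
noncomputable def BI (g : E d → ℂ) (R : ℝ) (x : E d) : ℂ :=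
  ∫ ξ in Metric.closedBall (0 : E d) R, g ξ * ex x ξ

theorem intOn {g : E d → ℂ} (hg : Measurable g) (h2 : ∫⁻ ξ, ‖g ξ‖ₑ ^ 2 ≠ ⊤) (R : ℝ) :
    IntegrableOn g (Metric.closedBall (0 : E d) R) := by
  refine ⟨hg.aestronglyMeasurable, ?_⟩
  rw [hasFiniteIntegral_iff_enorm]
  have hle : ∀ ξ, ‖g ξ‖ₑ ≤ 1 + ‖g ξ‖ₑ ^ 2 := by
    intro ξ
    rcases le_total ‖g ξ‖ₑ 1 with h | h
    · exact le_trans h le_self_add
    · refine le_trans ?_ le_add_self
      calc ‖g ξ‖ₑ = ‖g ξ‖ₑ * 1 := (mul_one _).symm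
        _ ≤ ‖g ξ‖ₑ * ‖g ξ‖ₑ := mul_le_mul_right h _
        _ = _ := (pow_two _).symm
  calc ∫⁻ ξ in Metric.closedBall (0 : E d) R, ‖g ξ‖ₑ
      ≤ ∫⁻ ξ in Metric.closedBall (0 : E d) R, (1 + ‖g ξ‖ₑ ^ 2) := lintegral_mono hle
    _ = (∫⁻ ξ in Metric.closedBall (0 : E d) R, 1) +
        ∫⁻ ξ in Metric.closedBall (0 : E d) R, ‖g ξ‖ₑ ^ 2 := lintegral_add_left measurable_const _
    _ < ⊤ := by
      rw [lintegral_const, one_mul, Measure.restrict_apply_univ]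
      refine ENNReal.add_lt_top.2 ⟨measure_closedBall_lt_top, ?_⟩
      exact lt_of_le_of_lt (setLIntegral_le_lintegral _ _) (lt_top_iff_ne_top.2 h2)

theorem ex_meas (x : E d) : Continuous (fun ξ : E d => ex x ξ) :=
  Pool.Agent.MBS.ex_continuous.comp (Continuous.prodMk_right x)

theorem intEx {g : E d → ℂ} {s : Set (E d)} (h : IntegrableOn g s) (x : E d) :
    IntegrableOn (fun ξ => g ξ * ex x ξ) s := by
  refine Integrable.mono h (h.1.mul (ex_meas x).aestronglyMeasurable) (ae_of_all _ fun ξ => ?_)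
  rw [norm_mul, Pool.Agent.MBS.ex_norm, mul_one]

theorem BI_cont {g : E d → ℂ} {R : ℝ} (h : IntegrableOn g (Metric.closedBall (0 : E d) R)) :
    Continuous (fun x => BI g R x) := by
  unfold BI
  refine continuous_of_dominated (bound := fun ξ => ‖g ξ‖)
    (fun x => (intEx h x).1) (fun x => ae_of_all _ fun ξ => ?_) h.norm (ae_of_all _ fun ξ => ?_)
  · rw [norm_mul, Pool.Agent.MBS.ex_norm, mul_one]
  · exact continuous_const.mul (Pool.Agent.MBS.ex_continuous.comp (Continuous.prodMk_left ξ))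

/-! ### Truncation -/

/-- the part of `g` outside a ball -/
noncomputable def tr (g : E d → ℂ) (n : ℕ) : E d → ℂ := {ξ : E d | (n : ℝ) < ‖ξ‖}.indicator g

theorem tr_set_meas (n : ℕ) : MeasurableSet {ξ : E d | (n : ℝ) < ‖ξ‖} :=
  measurableSet_lt measurable_const measurable_norm

theorem tr_meas {g : E d → ℂ} (hg : Measurable g) (n : ℕ) : Measurable (tr g n) :=
  hg.indicator (tr_set_meas n)

theorem tr_enorm_sq (g : E d → ℂ) (n : ℕ) (ξ : E d) : ‖tr g n ξ‖ₑ ^ 2 ≤ ‖g ξ‖ₑ ^ 2 := by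
  unfold tr
  by_cases h : ξ ∈ {ξ : E d | (n : ℝ) < ‖ξ‖}
  · rw [indicator_of_mem h]
  · rw [indicator_of_notMem h]
    simp

theorem BI_split {g : E d → ℂ} (hg : Measurable g) (h2 : ∫⁻ ξ, ‖g ξ‖ₑ ^ 2 ≠ ⊤) (n : ℕ) {R : ℝ}
    (hR : (n : ℝ) ≤ R) (x : E d) : BI g R x = BI g n x + BI (tr g n) R x := by
  have hi := intEx (intOn hg h2 R) x
  have hsub : Metric.closedBall (0 : E d) (n : ℝ) ⊆ Metric.closedBall (0 : E d) R :=
    Metric.closedBall_subset_closedBall hR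
  have h1 : BI (tr g n) R x =
      ∫ ξ in Metric.closedBall (0 : E d) R ∩ {ξ : E d | (n : ℝ) < ‖ξ‖}, g ξ * ex x ξ := by
    unfold BI tr
    rw [← setIntegral_indicator (tr_set_meas n)]
    refine integral_congr_ae (ae_of_all _ fun ξ => ?_)
    by_cases h : ξ ∈ {ξ : E d | (n : ℝ) < ‖ξ‖}
    · simp only [indicator_of_mem h]
    · simp only [indicator_of_notMem h, zero_mul]
  have hdisj : Disjoint (Metric.closedBall (0 : E d) (n : ℝ))
      (Metric.closedBall (0 : E d) R ∩ {ξ : E d | (n : ℝ) < ‖ξ‖}) := by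
    rw [Set.disjoint_left]
    intro ξ h1 h2
    rw [mem_closedBall_zero_iff] at h1
    exact absurd h2.2 (not_lt.2 h1)
  have hun : Metric.closedBall (0 : E d) R = Metric.closedBall (0 : E d) (n : ℝ) ∪
      (Metric.closedBall (0 : E d) R ∩ {ξ : E d | (n : ℝ) < ‖ξ‖}) := by
    ext ξ
    constructor
    · intro h
      by_cases h3 : (n : ℝ) < ‖ξ‖
      · exact Or.inr ⟨h, h3⟩
      · left
        rw [mem_closedBall_zero_iff]
        exact not_lt.1 h3
    · rintro (h | h)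
      · exact hsub h
      · exact h.1
  rw [h1]
  unfold BI
  conv_lhs => rw [hun]
  rw [setIntegral_union hdisj (Metric.isClosed_closedBall.measurableSet.inter (tr_set_meas n))
    (hi.mono_set hsub) (hi.mono_set inter_subset_left)]

theorem ae_of_discs {P : E d → Prop}
    (h : ∀ x0 : E d, ∀ᵐ x ∂(volume.restrict (Metric.closedBall x0 1)), P x) : ∀ᵐ x, P x := by
  have h1 : ∀ k : ℕ, ∀ᵐ x ∂(volume : Measure (E d)),
      x ∈ Metric.closedBall (TopologicalSpace.denseSeq (E d) k) 1 → P x := fun k =>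
    (ae_restrict_iff' Metric.isClosed_closedBall.measurableSet).1
      (h (TopologicalSpace.denseSeq (E d) k))
  filter_upwards [ae_all_iff.2 h1] with x hx
  obtain ⟨k, hk⟩ := (TopologicalSpace.denseRange_denseSeq (E d)).exists_dist_lt x one_pos
  exact hx k (by rw [Metric.mem_closedBall]; exact hk.le)

/-! ### Identification of the limit -/

theorem lint_of_eLpNorm {f g : E d → ℂ} (h : eLpNorm f 2 = eLpNorm g 2) :
    ∫⁻ x, ‖f x‖ₑ ^ 2 = ∫⁻ x, ‖g x‖ₑ ^ 2 := by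
  rw [eLpNorm_eq_lintegral_rpow_enorm_toReal (by norm_num) (by norm_num),
    eLpNorm_eq_lintegral_rpow_enorm_toReal (by norm_num) (by norm_num)] at h
  have key2 := ENNReal.rpow_left_injective (x := 1 / (2 : ℝ≥0∞).toReal) (by norm_num) h
  simpa only [ENNReal.toReal_ofNat, ENNReal.rpow_ofNat] using key2

theorem IN_eq_fourier (h : E d → ℂ) (x : E d) : IN h x = 𝓕 h (-x) := by
  have e := Pool.Agent.MBS.T_eq_fourier (fun _ : E d => (1 : ℝ)) h x
  unfold Pool.Agent.MBS.T at e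
  simpa [IN] using e

theorem plancherel {f : E d → ℂ} (h1 : Integrable f) (h2 : MemLp f 2) :
    ∫⁻ x, ‖𝓕 f x‖ₑ ^ 2 = ∫⁻ x, ‖f x‖ₑ ^ 2 :=
  lint_of_eLpNorm (Pool.Agent.H25.Plancherel.eLpNorm_fourier_eq h1 h2)

theorem plancherelIN {f : E d → ℂ} (h1 : Integrable f) (h2 : MemLp f 2) :
    ∫⁻ x, ‖IN f x‖ₑ ^ 2 = ∫⁻ x, ‖f x‖ₑ ^ 2 := by
  rw [← plancherel h1 h2, ← lintegral_neg_eq_self (fun x => ‖𝓕 f x‖ₑ ^ 2)]
  refine lintegral_congr fun x => ?_
  rw [IN_eq_fourier]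

/-- self-adjointness -/
theorem adjoint {f h : E d → ℂ} (hf : Integrable f) (hh : Integrable h) :
    ∫ ξ, (starRingEnd ℂ) (𝓕 f ξ) * h ξ = ∫ x, (starRingEnd ℂ) (f x) * IN h x := by
  have key := VectorFourier.integral_sesq_fourierIntegral_eq_neg_flip (E := ℂ) (F := ℂ) (G := ℂ)
    (L := innerₗ (E d)) (μ := volume) (ν := volume) (f := f) (g := h) (innerSL ℂ)
    Real.continuous_fourierChar continuous_inner hf hh
  have e1 : ∀ ξ : E d, VectorFourier.fourierIntegral Real.fourierChar volume (innerₗ (E d)) f ξ =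
      𝓕 f ξ := fun ξ => rfl
  have e2 : ∀ x : E d, VectorFourier.fourierIntegral Real.fourierChar volume
      (-(innerₗ (E d)).flip) h x = IN h x := by
    intro x
    unfold VectorFourier.fourierIntegral IN
    refine integral_congr_ae (ae_of_all _ fun ξ => ?_)
    simp only [ex, Circle.smul_def, Real.fourierChar_apply, smul_eq_mul]
    rw [mul_comm (h ξ)]
    congr 2
    simp only [LinearMap.neg_apply, neg_neg, LinearMap.flip_apply, innerₗ_apply_apply]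
    push_cast
    ring
  simp only [e1, e2, innerSL_apply_apply, RCLike.inner_apply'] at key
  exact key

theorem enorm_sq (z : ℂ) : ‖z‖ₑ ^ 2 = ENNReal.ofReal (‖z‖ ^ 2) := by
  rw [← ofReal_norm, ENNReal.ofReal_pow (norm_nonneg z)]

theorem memLp_of_lint {u : E d → ℂ} (hu : AEStronglyMeasurable u)
    (h : ∫⁻ x, ‖u x‖ₑ ^ 2 ≠ ⊤) : MemLp u 2 := by
  rw [memLp_two_iff_integrable_sq_norm hu]
  refine ⟨(hu.norm.pow 2), ?_⟩
  rw [hasFiniteIntegral_iff_enorm]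
  refine lt_of_le_of_lt (le_of_eq ?_) (lt_top_iff_ne_top.2 h)
  refine lintegral_congr fun x => ?_
  rw [enorm_sq, ← ofReal_norm, Real.norm_eq_abs, abs_of_nonneg (sq_nonneg _)]

theorem int_sq {u : E d → ℂ} (hu : MemLp u 2) :
    ∫⁻ x, ‖u x‖ₑ ^ 2 = ENNReal.ofReal (∫ x, ‖u x‖ ^ 2) := by
  have hi := (memLp_two_iff_integrable_sq_norm hu.1).1 hu
  rw [ofReal_integral_eq_lintegral_ofReal hi (ae_of_all _ fun x => sq_nonneg _)]
  exact lintegral_congr fun x => enorm_sq _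

/-- distance in `L²` from `f` to its ball sum -/
theorem l2dist {f : E d → ℂ} (h1 : Integrable f) (h2 : MemLp f 2) (n : ℕ) :
    ∫⁻ x, ‖f x - BI (𝓕 f) n x‖ₑ ^ 2 = ∫⁻ ξ, ‖tr (𝓕 f) n ξ‖ₑ ^ 2 := by
  set F : E d → ℂ := 𝓕 f with hF
  have hFc : Continuous F := VectorFourier.fourierIntegral_continuous (V := E d) (W := E d)
    Real.continuous_fourierChar (L := innerₗ (E d)) continuous_inner h1
  have hf2 : ∫⁻ x, ‖f x‖ₑ ^ 2 ≠ ⊤ := by
    rw [int_sq h2]; exact ENNReal.ofReal_ne_top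
  have hF2 : ∫⁻ x, ‖F x‖ₑ ^ 2 ≠ ⊤ := by
    rw [plancherel h1 h2]; exact hf2
  have hFL : MemLp F 2 := memLp_of_lint hFc.aestronglyMeasurable hF2
  set s : Set (E d) := Metric.closedBall (0 : E d) (n : ℝ) with hs
  have hsm : MeasurableSet s := Metric.isClosed_closedBall.measurableSet
  set h : E d → ℂ := s.indicator F with hh
  have hhI : Integrable h := (intOn hFc.measurable hF2 n).integrable_indicator hsm
  have hhL : MemLp h 2 := hFL.indicator hsm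
  set u : E d → ℂ := fun x => BI F n x with hu
  have huIN : ∀ x, IN h x = u x := by
    intro x
    simp only [hu, BI, IN, hh]
    rw [← integral_indicator hsm]
    refine integral_congr_ae (ae_of_all _ fun ξ => ?_)
    by_cases h : ξ ∈ s
    · simp only [indicator_of_mem h]
    · simp only [indicator_of_notMem h, zero_mul]
  have huc : Continuous u := BI_cont (intOn hFc.measurable hF2 n)
  have hu2 : ∫⁻ x, ‖u x‖ₑ ^ 2 = ∫⁻ x, ‖h x‖ₑ ^ 2 := by
    rw [← plancherelIN hhI hhL]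
    exact lintegral_congr fun x => by rw [huIN]
  have huL : MemLp u 2 := memLp_of_lint huc.aestronglyMeasurable (by
    rw [hu2, int_sq hhL]; exact ENNReal.ofReal_ne_top)
  have iF := (memLp_two_iff_integrable_sq_norm hFL.1).1 hFL
  have ih := (memLp_two_iff_integrable_sq_norm hhL.1).1 hhL
  have iu := (memLp_two_iff_integrable_sq_norm huL.1).1 huL
  have ig := (memLp_two_iff_integrable_sq_norm h2.1).1 h2
  have rnn : ∀ v : E d → ℂ, 0 ≤ ∫ x, ‖v x‖ ^ 2 := fun v => integral_nonneg fun x => sq_nonneg _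
  have eA : ∫ x, ‖F x‖ ^ 2 = ∫ x, ‖f x‖ ^ 2 := by
    have e := plancherel h1 h2
    rw [int_sq h2, int_sq hFL, ENNReal.ofReal_eq_ofReal_iff (rnn _) (rnn _)] at e
    exact e
  have eB : ∫ x, ‖u x‖ ^ 2 = ∫ x, ‖h x‖ ^ 2 := by
    rw [int_sq hhL, int_sq huL, ENNReal.ofReal_eq_ofReal_iff (rnn _) (rnn _)] at hu2
    exact hu2
  have icross : Integrable (fun x => (starRingEnd ℂ) (f x) * u x) := by
    have := MemLp.integrable_mul (p := 2) (q := 2) h2.star huL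
    exact this
  have eC : ∫ x, ((starRingEnd ℂ) (f x) * u x).re = ∫ x, ‖h x‖ ^ 2 := by
    have e := adjoint h1 hhI
    have e1 : ∫ ξ, (starRingEnd ℂ) (𝓕 f ξ) * h ξ = ((∫ x, ‖h x‖ ^ 2 : ℝ) : ℂ) := by
      rw [← integral_complex_ofReal]
      refine integral_congr_ae (ae_of_all _ fun ξ => ?_)
      by_cases hξ : ξ ∈ s
      · simp only [hh, indicator_of_mem hξ, ← hF]
        rw [mul_comm, Complex.mul_conj, Complex.normSq_eq_norm_sq]
      · simp only [hh, indicator_of_notMem hξ]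
        simp
    rw [e1] at e
    have e2 : ∫ x, (starRingEnd ℂ) (f x) * IN h x = ∫ x, (starRingEnd ℂ) (f x) * u x :=
      integral_congr_ae (ae_of_all _ fun x => by simp only [huIN])
    rw [e2] at e
    have e3 := integral_re icross
    simp only [RCLike.re_to_complex] at e3
    rw [e3, ← e, Complex.ofReal_re]
  have hpt : ∀ x, ‖f x - u x‖ ^ 2 =
      ‖f x‖ ^ 2 - 2 * ((starRingEnd ℂ) (f x) * u x).re + ‖u x‖ ^ 2 := by
    intro x
    rw [← Complex.normSq_eq_norm_sq, ← Complex.normSq_eq_norm_sq, ← Complex.normSq_eq_norm_sq]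
    simp only [Complex.normSq_apply, Complex.sub_re, Complex.sub_im, Complex.mul_re,
      Complex.conj_re, Complex.conj_im]
    ring
  have hpt2 : ∀ ξ, ‖tr F n ξ‖ ^ 2 = ‖F ξ‖ ^ 2 - ‖h ξ‖ ^ 2 := by
    intro ξ
    by_cases hξ : (n : ℝ) < ‖ξ‖
    · have h3 : ξ ∉ s := by
        rw [hs, mem_closedBall_zero_iff]; exact not_le.2 hξ
      have h4 : tr F n ξ = F ξ := indicator_of_mem (by simpa using hξ) F
      simp only [hh, indicator_of_notMem h3, h4]
      simp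
    · have h3 : ξ ∈ s := by
        rw [hs, mem_closedBall_zero_iff]; exact not_lt.1 hξ
      have h4 : tr F n ξ = 0 := indicator_of_notMem (by simpa using hξ) F
      simp only [hh, indicator_of_mem h3, h4]
      simp
  have htrL : MemLp (tr F n) 2 := hFL.indicator (tr_set_meas n)
  change ∫⁻ x, ‖(f - u) x‖ₑ ^ 2 = _
  rw [int_sq (h2.sub huL), int_sq htrL]
  congr 1
  have e4 : ∫ x, ‖(f - u) x‖ ^ 2 =
      ∫ x, (‖f x‖ ^ 2 - 2 * ((starRingEnd ℂ) (f x) * u x).re + ‖u x‖ ^ 2) :=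
    integral_congr_ae (ae_of_all _ fun x => hpt x)
  have e5 : ∫ x, ‖tr F n x‖ ^ 2 = ∫ x, (‖F x‖ ^ 2 - ‖h x‖ ^ 2) :=
    integral_congr_ae (ae_of_all _ fun x => hpt2 x)
  have ire : Integrable (fun x => 2 * ((starRingEnd ℂ) (f x) * u x).re) :=
    (icross.re).const_mul 2
  have isub : Integrable (fun x => ‖f x‖ ^ 2 - 2 * ((starRingEnd ℂ) (f x) * u x).re) :=
    ig.sub ire
  rw [e4, e5, integral_add isub iu, integral_sub ig ire, integral_sub iF ih,
    integral_const_mul, eA, eB, eC]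
  ring


/-! ### the tail -/

theorem tr_lim {W : E d → ℝ≥0∞} (hW : Measurable W) {g : E d → ℂ} (hg : Measurable g)
    (hG : ∫⁻ ξ, ‖g ξ‖ₑ ^ 2 * W ξ ≠ ⊤) :
    Tendsto (fun n : ℕ => ∫⁻ ξ, ‖tr g n ξ‖ₑ ^ 2 * W ξ) atTop (𝓝 0) := by
  have h := tendsto_lintegral_of_dominated_convergence (μ := (volume : Measure (E d)))
    (F := fun (n : ℕ) ξ => ‖tr g n ξ‖ₑ ^ 2 * W ξ) (f := fun _ => 0)
    (fun ξ => ‖g ξ‖ₑ ^ 2 * W ξ)
    (fun n => ((tr_meas hg n).enorm.pow_const 2).mul hW)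
    (fun n => ae_of_all _ fun ξ => mul_le_mul_left (tr_enorm_sq g n ξ) _) hG
    (ae_of_all _ fun ξ => by
      refine tendsto_const_nhds.congr' ?_
      filter_upwards [eventually_ge_atTop ⌈‖ξ‖⌉₊] with n hn
      have h1 : ¬ ((n : ℝ) < ‖ξ‖) := not_lt.2 (Nat.ceil_le.1 hn)
      have h2 : tr g n ξ = 0 := indicator_of_notMem (by simpa using h1) g
      rw [h2]
      simp)
  simpa using h

/-- the levels -/
noncomputable def lv (m : ℕ) : ℝ≥0∞ := ((m : ℝ≥0∞) + 1)⁻¹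

theorem lv_pos (m : ℕ) : lv m ≠ 0 := by
  unfold lv
  rw [ENNReal.inv_ne_zero]
  exact ENNReal.add_ne_top.2 ⟨ENNReal.natCast_ne_top m, ENNReal.one_ne_top⟩

theorem lv_top (m : ℕ) : lv m ≠ ⊤ := by
  unfold lv
  rw [ENNReal.inv_ne_top]
  exact ne_of_gt (lt_of_lt_of_le zero_lt_one le_add_self)

theorem freq {W : E d → ℝ≥0∞} (hW : Measurable W) {g : E d → ℂ} (hg : Measurable g)
    (hG : ∫⁻ ξ, ‖g ξ‖ₑ ^ 2 * W ξ ≠ ⊤)
    (h : ∃ C : ℝ≥0, ∀ (g : E d → ℂ) (x0 : E d) (l : ℝ≥0∞), Measurable g →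
      l ^ 2 * volume {x ∈ Metric.closedBall x0 1 | l < Mx g x} ≤ C * ∫⁻ ξ, ‖g ξ‖ₑ ^ 2 * W ξ)
    (x0 : E d) :
    ∀ᵐ x ∂(volume.restrict (Metric.closedBall x0 1)),
      ∀ m : ℕ, ∃ᶠ n : ℕ in atTop, Mx (tr g n) x ≤ lv m := by
  obtain ⟨C, hC⟩ := h
  rw [ae_all_iff]
  intro m
  rw [ae_restrict_iff' Metric.isClosed_closedBall.measurableSet, ae_iff]
  have hsub : {x : E d | ¬ (x ∈ Metric.closedBall x0 1 →
      ∃ᶠ n : ℕ in atTop, Mx (tr g n) x ≤ lv m)} ⊆
      ⋃ N : ℕ, ⋂ n : ℕ, {x ∈ Metric.closedBall x0 1 | lv m < Mx (tr g (N + n)) x} := by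
    intro x hx
    have hx' : ¬ (x ∈ Metric.closedBall x0 1 → ∃ᶠ n : ℕ in atTop, Mx (tr g n) x ≤ lv m) := hx
    push Not at hx'
    obtain ⟨h1, h2⟩ := hx'
    obtain ⟨N, hN⟩ := eventually_atTop.1 h2
    refine mem_iUnion.2 ⟨N, mem_iInter.2 fun n => ⟨h1, ?_⟩⟩
    exact hN (N + n) (Nat.le_add_right _ _)
  refine measure_mono_null hsub (measure_iUnion_null fun N => ?_)
  have hlim : Tendsto (fun n : ℕ => (C : ℝ≥0∞) * ∫⁻ ξ, ‖tr g (N + n) ξ‖ₑ ^ 2 * W ξ)
      atTop (𝓝 0) := by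
    have h1 := ENNReal.Tendsto.const_mul (tr_lim hW hg hG) (Or.inr (ENNReal.coe_ne_top (r := C)))
    rw [mul_zero] at h1
    have h2 : Tendsto (fun n : ℕ => N + n) atTop atTop := tendsto_atTop_mono
      (fun n => Nat.le_add_left n N) tendsto_id
    exact h1.comp h2
  have hb : ∀ n : ℕ, lv m ^ 2 * volume (⋂ n : ℕ,
      {x ∈ Metric.closedBall x0 1 | lv m < Mx (tr g (N + n)) x}) ≤
      (C : ℝ≥0∞) * ∫⁻ ξ, ‖tr g (N + n) ξ‖ₑ ^ 2 * W ξ := by
    intro n
    refine le_trans (mul_le_mul_right (measure_mono (iInter_subset _ n)) _) ?_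
    exact hC (tr g (N + n)) x0 (lv m) (tr_meas hg _)
  have h0 := ge_of_tendsto' hlim hb
  have h1 := le_antisymm h0 bot_le
  rcases mul_eq_zero.1 h1 with h2 | h2
  · exact absurd ((pow_eq_zero_iff two_ne_zero).1 h2) (lv_pos m)
  · exact h2

theorem conv_of_freq {g : E d → ℂ} (hg : Measurable g) (h2 : ∫⁻ ξ, ‖g ξ‖ₑ ^ 2 ≠ ⊤) {x : E d}
    (hx : ∀ m : ℕ, ∃ᶠ n : ℕ in atTop, Mx (tr g n) x ≤ lv m) :
    ∃ l : ℂ, Tendsto (fun R : ℝ => BI g R x) atTop (𝓝 l) := by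
  refine cauchySeq_tendsto_of_complete ?_
  rw [Metric.cauchySeq_iff]
  intro ε hε
  obtain ⟨m, hm⟩ := ENNReal.exists_inv_nat_lt
    (show ENNReal.ofReal (ε / 3) ≠ 0 from (ENNReal.ofReal_pos.2 (by positivity)).ne')
  have hlm : lv m < ENNReal.ofReal (ε / 3) :=
    lt_of_le_of_lt (ENNReal.inv_le_inv.2 le_self_add) hm
  obtain ⟨n, hn1, hn⟩ := ((hx m).and_eventually (eventually_ge_atTop 1)).exists
  have hM : Mx (tr g n) x < ENNReal.ofReal (ε / 3) := lt_of_le_of_lt hn1 hlm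
  have hb : ∀ R : ℝ, (n : ℝ) ≤ R → ‖BI (tr g n) R x‖ < ε / 3 := by
    intro R hR
    have hR0 : 0 < R := lt_of_lt_of_le (by exact_mod_cast hn) hR
    have h1 : ‖BI (tr g n) R x‖ₑ ≤ Mx (tr g n) x := by
      unfold Mx
      exact le_iSup₂ (f := fun (R : ℝ) (_ : 0 < R) => ‖BI (tr g n) R x‖ₑ) R hR0
    have h3 := lt_of_le_of_lt h1 hM
    rw [← ofReal_norm, ENNReal.ofReal_lt_ofReal_iff (by positivity)] at h3
    exact h3
  refine ⟨n, fun R hR R' hR' => ?_⟩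
  rw [dist_eq_norm, BI_split hg h2 n hR x, BI_split hg h2 n hR' x]
  have e : BI g n x + BI (tr g n) R x - (BI g n x + BI (tr g n) R' x) =
      BI (tr g n) R x - BI (tr g n) R' x := by ring
  rw [e]
  refine lt_of_le_of_lt (norm_sub_le _ _) ?_
  have h1 := hb R hR
  have h3 := hb R' hR'
  linarith


end FAE_

open FAE_ in
/-- FAE -/
theorem p_FAE : T_FAE := by
  intro d W hW hW1 h f hf hG
  have h1 := hf.int
  have h2 := hf.sq
  have hFc : Continuous (𝓕 f) := VectorFourier.fourierIntegral_continuous (V := E d) (W := E d)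
    Real.continuous_fourierChar (L := innerₗ (E d)) continuous_inner h1
  have hle : ∀ u : E d → ℂ, ∀ ξ, ‖u ξ‖ₑ ^ 2 ≤ ‖u ξ‖ₑ ^ 2 * W ξ := by
    intro u ξ
    calc ‖u ξ‖ₑ ^ 2 = ‖u ξ‖ₑ ^ 2 * 1 := (mul_one _).symm
      _ ≤ _ := mul_le_mul_right (hW1 ξ) _
  have hF2 : ∫⁻ ξ, ‖𝓕 f ξ‖ₑ ^ 2 ≠ ⊤ := ne_top_of_le_ne_top hG (lintegral_mono (hle (𝓕 f)))
  have hconv : ∀ᵐ x, ∃ l : ℂ, Tendsto (fun R : ℝ => BI (𝓕 f) R x) atTop (𝓝 l) := by
    refine ae_of_discs fun x0 => ?_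
    filter_upwards [freq hW hFc.measurable hG h x0] with x hx
    exact conv_of_freq hFc.measurable hF2 hx
  have hm : ∀ n : ℕ, Measurable (fun x => ‖f x - BI (𝓕 f) n x‖ₑ ^ 2) := fun n =>
    ((hf.meas.sub (BI_cont (intOn hFc.measurable hF2 n)).measurable).enorm).pow_const 2
  have hlim : Tendsto (fun n : ℕ => ∫⁻ x, ‖f x - BI (𝓕 f) n x‖ₑ ^ 2) atTop (𝓝 0) := by
    refine tendsto_of_tendsto_of_tendsto_of_le_of_le tendsto_const_nhds
      (tr_lim hW hFc.measurable hG) (fun _ => zero_le) (fun n => ?_)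
    simp only
    rw [l2dist h1 h2 n]
    exact lintegral_mono (hle (tr (𝓕 f) n))
  have hfat : ∫⁻ x, liminf (fun n : ℕ => ‖f x - BI (𝓕 f) n x‖ₑ ^ 2) atTop = 0 := by
    refine le_antisymm ?_ zero_le
    refine le_trans (lintegral_liminf_le hm) ?_
    rw [hlim.liminf_eq]
  have hmeas : Measurable (fun x => liminf (fun n : ℕ => ‖f x - BI (𝓕 f) n x‖ₑ ^ 2) atTop) :=
    Measurable.liminf hm
  rw [lintegral_eq_zero_iff hmeas] at hfat
  filter_upwards [hconv, hfat] with x hx hx0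
  obtain ⟨l, hl⟩ := hx
  have h3 : Tendsto (fun n : ℕ => ‖f x - BI (𝓕 f) n x‖ₑ ^ 2) atTop (𝓝 (‖f x - l‖ₑ ^ 2)) := by
    have h4 : Tendsto (fun n : ℕ => BI (𝓕 f) n x) atTop (𝓝 l) :=
      hl.comp tendsto_natCast_atTop_atTop
    exact ENNReal.Tendsto.pow ((tendsto_const_nhds.sub h4).enorm)
  rw [Pi.zero_apply] at hx0
  rw [h3.liminf_eq] at hx0
  have h5 : f x - l = 0 := by
    have := pow_eq_zero_iff (two_ne_zero) |>.1 hx0
    simpa using this
  have h6 : l = f x := (sub_eq_zero.1 h5).symm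
  rw [← h6]
  exact hl

end Pool.Agent.CRF
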