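import Pool.Agent.CRF.Targets

set_option autoImplicit false

/-!
# CRF: FBL, the high parts of all blocks
-/

namespace Pool.Agent.CRF

open MeasureTheory FourierTransform Set Filter Topology
open scoped ENNReal NNReal
open Pool.Agent.MBS (E ex S Sstar)
open Pool.Agent.CAR (e1)
open Pool.Agent.CRN (IN T_CARLS T_RAYN T_AHN Nice)

namespace FBL_

theorem cs_tsum (f g : ℕ → ℝ≥0∞) :
    ∑' i, f i * g i ≤ (∑' i, f i ^ 2) ^ (1 / 2 : ℝ) * (∑' i, g i ^ 2) ^ (1 / 2 : ℝ) := by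
  have hf : AEMeasurable f Measure.count := Measurable.aemeasurable measurable_from_top
  have hg : AEMeasurable g Measure.count := Measurable.aemeasurable measurable_from_top
  have h := ENNReal.lintegral_mul_le_Lp_mul_Lq Measure.count Real.HolderConjugate.two_two hf hg
  simp only [ENNReal.rpow_two, lintegral_count] at h
  exact h

theorem half_sq (x : ℝ≥0∞) : (x ^ (1 / 2 : ℝ)) ^ 2 = x := by
  rw [← ENNReal.rpow_natCast, ← ENNReal.rpow_mul]
  norm_num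

theorem cs_w (t w : ℕ → ℝ≥0∞) (h0 : ∀ i, w i ≠ 0) (ht : ∀ i, w i ≠ ⊤) :
    (∑' i, t i) ^ 2 ≤ (∑' i, w i) * ∑' i, (w i)⁻¹ * t i ^ 2 := by
  have h := cs_tsum (fun i => w i ^ (1 / 2 : ℝ)) (fun i => (w i)⁻¹ ^ (1 / 2 : ℝ) * t i)
  have e1 : ∀ i, w i ^ (1 / 2 : ℝ) * ((w i)⁻¹ ^ (1 / 2 : ℝ) * t i) = t i := by
    intro i
    rw [← mul_assoc, ← ENNReal.mul_rpow_of_nonneg _ _ (by norm_num),
      ENNReal.mul_inv_cancel (h0 i) (ht i), ENNReal.one_rpow, one_mul]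
  simp only [e1, half_sq, mul_pow] at h
  calc (∑' i, t i) ^ 2 ≤ ((∑' i, w i) ^ (1 / 2 : ℝ) *
        (∑' i, (w i)⁻¹ * t i ^ 2) ^ (1 / 2 : ℝ)) ^ 2 := by gcongr
    _ = _ := by rw [mul_pow, half_sq, half_sq]

/-- the weights -/
noncomputable def wt (n : ℕ) : ℝ≥0∞ := (((n : ℝ≥0∞) + 1) ^ 2)⁻¹

theorem wt_ne_zero (n : ℕ) : wt n ≠ 0 := by
  unfold wt
  rw [ne_eq, ENNReal.inv_eq_zero]
  exact ENNReal.pow_ne_top (by simp)

theorem wt_ne_top (n : ℕ) : wt n ≠ ⊤ := by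
  unfold wt
  rw [ne_eq, ENNReal.inv_eq_top]
  positivity

theorem wt_inv (n : ℕ) : (wt n)⁻¹ = ((n : ℝ≥0∞) + 1) ^ 2 := by
  unfold wt
  rw [inv_inv]

theorem wt_sum : ∑' n, wt n ≠ ⊤ := by
  have h1 : Summable (fun n : ℕ => (((n : ℝ≥0) + 1) ^ 2)⁻¹) := by
    rw [← NNReal.summable_coe]
    have h2 : Summable (fun n : ℕ => (((n : ℝ)) ^ 2)⁻¹) := Real.summable_nat_pow_inv.mpr (by norm_num)
    have h3 := (summable_nat_add_iff 1).mpr h2
    refine h3.congr fun n => ?_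
    push_cast
    rfl
  have h2 : ∀ n, wt n = ((((n : ℝ≥0) + 1) ^ 2)⁻¹ : ℝ≥0) := by
    intro n
    unfold wt
    rw [ENNReal.coe_inv (by positivity)]
    push_cast
    rfl
  simp only [h2]
  exact ENNReal.tsum_coe_ne_top_iff_summable.mpr h1

theorem continuous_tl {m : ℕ} : Continuous (tl : E (m + 1) → E m) := by
  unfold tl
  fun_prop

/-- the blocks -/
def blk (m n : ℕ) : Set (E (m + 1)) :=
  {ξ | ‖tl ξ‖ ≤ 2 ^ (2 ^ n) ∧ (n = 0 ∨ 2 ^ (2 ^ (n - 1)) < ‖tl ξ‖)}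

theorem blk_meas (m n : ℕ) : MeasurableSet (blk m n) := by
  have h : Measurable fun ξ : E (m + 1) => ‖tl ξ‖ := continuous_tl.norm.measurable
  have h1 : MeasurableSet {ξ : E (m + 1) | ‖tl ξ‖ ≤ 2 ^ (2 ^ n)} :=
    measurableSet_le h measurable_const
  have h2 : MeasurableSet {ξ : E (m + 1) | (2 : ℝ) ^ (2 ^ (n - 1)) < ‖tl ξ‖} :=
    measurableSet_lt measurable_const h
  have h3 : blk m n = {ξ : E (m + 1) | ‖tl ξ‖ ≤ 2 ^ (2 ^ n)} ∩
      ({_ξ : E (m + 1) | n = 0} ∪ {ξ : E (m + 1) | (2 : ℝ) ^ (2 ^ (n - 1)) < ‖tl ξ‖}) := rfl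
  rw [h3]
  exact h1.inter ((MeasurableSet.const _).union h2)

theorem blk_cover (m : ℕ) (ξ : E (m + 1)) : ∃ n, ξ ∈ blk m n := by
  classical
  have hex : ∃ n : ℕ, ‖tl ξ‖ ≤ 2 ^ (2 ^ n) := by
    obtain ⟨n, hn⟩ := exists_nat_ge ‖tl ξ‖
    refine ⟨n, hn.trans ?_⟩
    have h1 : n ≤ 2 ^ (2 ^ n) := (Nat.lt_two_pow_self.trans Nat.lt_two_pow_self).le
    exact_mod_cast h1
  refine ⟨Nat.find hex, Nat.find_spec hex, ?_⟩
  by_cases h0 : Nat.find hex = 0
  · exact Or.inl h0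
  · right
    have := Nat.find_min hex (m := Nat.find hex - 1) (by omega)
    exact not_le.mp this

theorem blk_disj (m : ℕ) : Pairwise (Function.onFun Disjoint (blk m)) := by
  have key : ∀ a b : ℕ, a < b → Disjoint (blk m a) (blk m b) := by
    intro a b hab
    rw [Set.disjoint_left]
    rintro ξ ⟨h1, -⟩ ⟨-, h2⟩
    rcases h2 with h2 | h2
    · omega
    · have h3 : (2 : ℝ) ^ (2 ^ a) ≤ 2 ^ (2 ^ (b - 1)) := by
        refine pow_le_pow_right₀ (by norm_num) ?_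
        exact Nat.pow_le_pow_right (by norm_num) (by omega)
      linarith
  intro a b hab
  rcases lt_or_gt_of_ne hab with h | h
  · exact key a b h
  · exact (key b a h).symm

/-- the block inequality -/
theorem blk_wt {m n : ℕ} {ξ : E (m + 1)} (h : ξ ∈ blk m n) :
    ((n : ℝ≥0∞) + 1) ^ 2 ≤ 16 * w2 2 ‖tl ξ‖ := by
  have hl2 : (0.69 : ℝ) < Real.log 2 := by
    have := Real.log_two_gt_d9
    linarith
  have hd : 0 ≤ ‖tl ξ‖ := norm_nonneg _
  have key : ((n : ℝ) + 1) / 4 ≤ Real.log (3 + Real.log (3 + ‖tl ξ‖)) := by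
    obtain ⟨-, h2⟩ := h
    rcases Nat.eq_zero_or_pos n with h0 | h0
    · subst h0
      have h3 : 0 ≤ Real.log (3 + ‖tl ξ‖) := Real.log_nonneg (by linarith)
      have h4 : Real.log 2 ≤ Real.log (3 + Real.log (3 + ‖tl ξ‖)) :=
        Real.log_le_log (by norm_num) (by linarith)
      push_cast
      linarith
    · rcases h2 with h2 | h2
      · omega
      · obtain ⟨k, rfl⟩ : ∃ k, n = k + 1 := ⟨n - 1, by omega⟩
        rw [Nat.add_sub_cancel] at h2
        set z : ℝ := (2 : ℝ) ^ k * Real.log 2 with hz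
        have hk : (0 : ℝ) < 2 ^ k := by positivity
        have hz0 : 0 < z := by positivity
        have h3 : z ≤ Real.log (3 + ‖tl ξ‖) := by
          have h4 : Real.log ((2 : ℝ) ^ (2 ^ k)) ≤ Real.log (3 + ‖tl ξ‖) :=
            Real.log_le_log (by positivity) (by linarith)
          rw [Real.log_pow] at h4
          push_cast at h4
          exact h4
        have h5 : Real.log (3 + z) ≤ Real.log (3 + Real.log (3 + ‖tl ξ‖)) :=
          Real.log_le_log (by linarith) (by linarith)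
        have h6 : (2 : ℝ) ^ (k + 3) ≤ (3 + z) ^ 2 := by
          have h7 : (2 : ℝ) ^ (k + 3) = 8 * 2 ^ k := by ring
          have h8 : 8 * (2 : ℝ) ^ k ≤ 12 * z := by
            rw [hz]
            nlinarith
          nlinarith [sq_nonneg (z - 3)]
        have h9 : ((k + 3 : ℕ) : ℝ) * Real.log 2 ≤ 2 * Real.log (3 + z) := by
          have h10 := Real.log_le_log (by positivity) h6
          rw [Real.log_pow, Real.log_pow] at h10
          push_cast at h10 ⊢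
          exact h10
        push_cast at h9 ⊢
        nlinarith
  have hn : (0 : ℝ) ≤ ((n : ℝ) + 1) / 4 := by positivity
  have h1 : ((n : ℝ) + 1) ^ 2 ≤ 16 * Real.log (3 + Real.log (3 + ‖tl ξ‖)) ^ 2 := by
    nlinarith [pow_le_pow_left₀ hn key 2]
  unfold w2
  have e1 : (16 : ℝ≥0∞) = ENNReal.ofReal 16 := by norm_num
  have e2 : ((n : ℝ≥0∞) + 1) ^ 2 = ENNReal.ofReal (((n : ℝ) + 1) ^ 2) := by
    rw [ENNReal.ofReal_pow (by positivity), ENNReal.ofReal_add (by positivity) (by norm_num),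
      ENNReal.ofReal_natCast, ENNReal.ofReal_one]
  rw [e1, e2, ← ENNReal.ofReal_mul (by norm_num)]
  exact ENNReal.ofReal_le_ofReal h1

theorem one_le_w {m : ℕ} (ξ : E (m + 1)) : 1 ≤ 16 * w2 2 ‖tl ξ‖ := by
  obtain ⟨n, hn⟩ := blk_cover m ξ
  refine le_trans ?_ (blk_wt hn)
  have : (1 : ℝ≥0∞) ≤ (n : ℝ≥0∞) + 1 := le_add_self
  exact one_le_pow₀ this

theorem ex_norm {n : ℕ} (x ξ : E n) : ‖ex x ξ‖ = 1 := by
  unfold ex
  rw [Complex.norm_exp]
  simp

theorem ex_cont {n : ℕ} : Continuous (fun p : E n × E n => ex p.1 p.2) := by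
  unfold ex
  fun_prop

theorem int_ex {n : ℕ} {g : E n → ℂ} {s : Set (E n)} (h : IntegrableOn g s) (x : E n) :
    IntegrableOn (fun ξ => g ξ * ex x ξ) s := by
  refine Integrable.mono h ?_ (Eventually.of_forall fun ξ => ?_)
  · have h2 : Continuous fun ξ : E n => ex x ξ :=
      ex_cont.comp (continuous_const.prodMk continuous_id)
    exact h.aestronglyMeasurable.mul h2.aestronglyMeasurable
  · rw [norm_mul, ex_norm, mul_one]

theorem meas_Mx {n : ℕ} {g : E n → ℂ} (h : ∀ R : ℝ, IntegrableOn g (Metric.closedBall 0 R)) :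
    Measurable (Mx g) := by
  have h1 : ∀ R : ℝ, Continuous fun x : E n =>
      ∫ ξ in Metric.closedBall (0 : E n) R, g ξ * ex x ξ := by
    intro R
    refine continuous_of_dominated (bound := fun ξ => ‖g ξ‖) ?_ ?_ (h R).norm ?_
    · exact fun x => (int_ex (h R) x).aestronglyMeasurable
    · intro x
      refine Eventually.of_forall fun ξ => ?_
      rw [norm_mul, ex_norm, mul_one]
    · refine Eventually.of_forall fun ξ => ?_
      have h2 : Continuous fun x : E n => ex x ξ :=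
        ex_cont.comp (continuous_id.prodMk continuous_const)
      exact continuous_const.mul h2
  have h2 : LowerSemicontinuous (Mx g) := by
    unfold Mx
    refine lowerSemicontinuous_iSup fun R => lowerSemicontinuous_iSup fun _ => ?_
    exact (continuous_enorm.comp (h1 R)).lowerSemicontinuous
  exact h2.measurable

theorem int_ball {n : ℕ} {g : E n → ℂ} (hg : Measurable g) (h : ∫⁻ ξ, ‖g ξ‖ₑ ^ 2 ≠ ⊤) (R : ℝ) :
    IntegrableOn g (Metric.closedBall 0 R) := by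
  have h1 : MemLp g 2 volume := by
    refine ⟨hg.aestronglyMeasurable, ?_⟩
    rw [eLpNorm_lt_top_iff_lintegral_rpow_enorm_lt_top (by norm_num) (by norm_num)]
    have e : ((2 : ℝ≥0∞).toReal) = 2 := by norm_num
    rw [e]
    simp only [ENNReal.rpow_two]
    exact lt_top_iff_ne_top.mpr h
  have h2 : MemLp g 2 (volume.restrict (Metric.closedBall 0 R)) := h1.restrict _
  have : IsFiniteMeasure (volume.restrict (Metric.closedBall (0 : E n) R)) :=
    ⟨by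
      rw [Measure.restrict_apply_univ]
      exact measure_closedBall_lt_top⟩
  exact h2.integrable (by norm_num)

/-- the parts -/
noncomputable def pt {m : ℕ} (g : E (m + 1) → ℂ) (n : ℕ) : E (m + 1) → ℂ :=
  (blk m n).indicator g

theorem Mx_le {m : ℕ} {g : E (m + 1) → ℂ} (h : ∀ R : ℝ, IntegrableOn g (Metric.closedBall 0 R))
    (x : E (m + 1)) : Mx g x ≤ ∑' n, Mx (pt g n) x := by
  unfold Mx
  refine iSup₂_le fun R hR => ?_
  have hs : HasSum (fun n => ∫ ξ in Metric.closedBall (0 : E (m + 1)) R, pt g n ξ * ex x ξ)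
      (∫ ξ in Metric.closedBall (0 : E (m + 1)) R, g ξ * ex x ξ) := by
    have hU : (⋃ n, Metric.closedBall (0 : E (m + 1)) R ∩ blk m n) =
        Metric.closedBall (0 : E (m + 1)) R := by
      rw [← Set.inter_iUnion]
      refine Set.inter_eq_left.mpr fun ξ _ => ?_
      exact Set.mem_iUnion.mpr (blk_cover m ξ)
    have h1 := hasSum_integral_iUnion (μ := volume) (f := fun ξ => g ξ * ex x ξ)
      (s := fun n => Metric.closedBall (0 : E (m + 1)) R ∩ blk m n)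
      (fun n => Metric.isClosed_closedBall.measurableSet.inter (blk_meas m n))
      (fun a b hab => (blk_disj m hab).mono Set.inter_subset_right Set.inter_subset_right)
      (by rw [hU]; exact int_ex (h R) x)
    rw [hU] at h1
    have h1' : (fun n => ∫ ξ in Metric.closedBall (0 : E (m + 1)) R, pt g n ξ * ex x ξ) =
        fun n => ∫ ξ in Metric.closedBall (0 : E (m + 1)) R ∩ blk m n, g ξ * ex x ξ := by
      funext n
      rw [← setIntegral_indicator (blk_meas m n)]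
      refine integral_congr_ae (Eventually.of_forall fun ξ => ?_)
      unfold pt
      by_cases hξ : ξ ∈ blk m n
      · simp [hξ]
      · simp [hξ]
    rw [h1']
    exact h1
  have h2 : Tendsto (fun s : Finset ℕ =>
      ‖∑ n ∈ s, ∫ ξ in Metric.closedBall (0 : E (m + 1)) R, pt g n ξ * ex x ξ‖ₑ) atTop
      (𝓝 ‖∫ ξ in Metric.closedBall (0 : E (m + 1)) R, g ξ * ex x ξ‖ₑ) :=
    (continuous_enorm.tendsto _).comp hs
  refine le_of_tendsto h2 (Eventually.of_forall fun s => ?_)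
  calc ‖∑ n ∈ s, ∫ ξ in Metric.closedBall (0 : E (m + 1)) R, pt g n ξ * ex x ξ‖ₑ
      ≤ ∑ n ∈ s, ‖∫ ξ in Metric.closedBall (0 : E (m + 1)) R, pt g n ξ * ex x ξ‖ₑ :=
        enorm_sum_le _ _
    _ ≤ ∑ n ∈ s, ⨆ (R : ℝ) (_ : 0 < R),
          ‖∫ ξ in Metric.closedBall (0 : E (m + 1)) R, pt g n ξ * ex x ξ‖ₑ :=
        Finset.sum_le_sum fun n _ => le_iSup₂ (f := fun (R : ℝ) (_ : 0 < R) =>
          ‖∫ ξ in Metric.closedBall (0 : E (m + 1)) R, pt g n ξ * ex x ξ‖ₑ) R hR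
    _ ≤ _ := ENNReal.sum_le_tsum s

end FBL_

open FBL_ in
/-- FBL. -/
theorem p_FBL (h1 : T_FL1) : T_FBL := by
  intro hC m
  obtain ⟨C1, hC1⟩ := h1 hC m
  set W : ℝ≥0 := (∑' n, wt n).toNNReal with hW
  have hW' : ∑' n, wt n = (W : ℝ≥0∞) := (ENNReal.coe_toNNReal wt_sum).symm
  refine ⟨W * C1 * 16 + 1, ?_⟩
  intro g x0 hg hsupp
  by_cases htop : ∫⁻ ξ, ‖g ξ‖ₑ ^ 2 * w2 2 ‖tl ξ‖ = ⊤
  · rw [htop, ENNReal.mul_top (by simp)]
    exact le_top
  have hfin : ∫⁻ ξ, ‖g ξ‖ₑ ^ 2 ≠ ⊤ := by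
    have h2 : ∫⁻ ξ, ‖g ξ‖ₑ ^ 2 ≤ 16 * ∫⁻ ξ, ‖g ξ‖ₑ ^ 2 * w2 2 ‖tl ξ‖ := by
      rw [← lintegral_const_mul' _ _ (by norm_num)]
      refine lintegral_mono fun ξ => ?_
      calc ‖g ξ‖ₑ ^ 2 = ‖g ξ‖ₑ ^ 2 * 1 := (mul_one _).symm
        _ ≤ ‖g ξ‖ₑ ^ 2 * (16 * w2 2 ‖tl ξ‖) := by
            gcongr
            exact one_le_w ξ
        _ = _ := by ring
    exact ne_top_of_le_ne_top (ENNReal.mul_ne_top (by norm_num) htop) h2
  have hib : ∀ R : ℝ, IntegrableOn g (Metric.closedBall 0 R) := int_ball hg hfin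
  have hpm : ∀ n, Measurable (pt g n) := fun n => hg.indicator (blk_meas m n)
  have hpi : ∀ n, ∀ R : ℝ, IntegrableOn (pt g n) (Metric.closedBall 0 R) :=
    fun n R => (hib R).indicator (blk_meas m n)
  have hone : ∀ n, ∫⁻ x in Metric.closedBall x0 1, Mx (pt g n) x ^ 2 ≤
      C1 * ∫⁻ ξ, ‖pt g n ξ‖ₑ ^ 2 := by
    intro n
    refine hC1 (2 ^ (2 ^ n)) (pt g n) x0 (one_le_pow₀ (by norm_num)) (hpm n) ?_
    intro ξ hξ
    have hξb : ξ ∈ blk m n := by
      by_contra hc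
      exact hξ (Set.indicator_of_notMem hc g)
    have hgξ : g ξ ≠ 0 := by
      intro hc
      apply hξ
      unfold pt
      rw [Set.indicator_of_mem hξb, hc]
    exact ⟨hξb.1, hsupp n ξ hgξ hξb.1 hξb.2⟩
  have hblock : ∀ n : ℕ, ((n : ℝ≥0∞) + 1) ^ 2 * ∫⁻ ξ, ‖pt g n ξ‖ₑ ^ 2 ≤
      ∫⁻ ξ in blk m n, 16 * (‖g ξ‖ₑ ^ 2 * w2 2 ‖tl ξ‖) := by
    intro n
    have e1 : ∫⁻ ξ, ‖pt g n ξ‖ₑ ^ 2 = ∫⁻ ξ in blk m n, ‖g ξ‖ₑ ^ 2 := by
      rw [← lintegral_indicator (blk_meas m n)]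
      refine lintegral_congr fun ξ => ?_
      unfold pt
      by_cases hξ : ξ ∈ blk m n
      · simp [hξ]
      · simp [hξ]
    rw [e1, ← lintegral_const_mul' _ _ (ENNReal.pow_ne_top (by simp))]
    refine setLIntegral_mono_ae' (blk_meas m n) (Eventually.of_forall fun ξ hξ => ?_)
    calc ((n : ℝ≥0∞) + 1) ^ 2 * ‖g ξ‖ₑ ^ 2 ≤ 16 * w2 2 ‖tl ξ‖ * ‖g ξ‖ₑ ^ 2 := by
          gcongr
          exact blk_wt hξ
      _ = _ := by ring
  calc ∫⁻ x in Metric.closedBall x0 1, Mx g x ^ 2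
      ≤ ∫⁻ x in Metric.closedBall x0 1,
          (W : ℝ≥0∞) * ∑' n : ℕ, ((n : ℝ≥0∞) + 1) ^ 2 * Mx (pt g n) x ^ 2 := by
        refine lintegral_mono fun x => ?_
        have h3 := cs_w (fun n => Mx (pt g n) x) wt wt_ne_zero wt_ne_top
        rw [hW'] at h3
        simp only [wt_inv] at h3
        exact le_trans (pow_le_pow_left' (Mx_le hib x) 2) h3
    _ = (W : ℝ≥0∞) * ∑' n : ℕ, ((n : ℝ≥0∞) + 1) ^ 2 *
          ∫⁻ x in Metric.closedBall x0 1, Mx (pt g n) x ^ 2 := by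
        rw [lintegral_const_mul' _ _ ENNReal.coe_ne_top, lintegral_tsum]
        · congr 1
          refine tsum_congr fun n => ?_
          rw [lintegral_const_mul' _ _ (ENNReal.pow_ne_top (by simp))]
        · intro n
          exact (((meas_Mx (hpi n)).pow_const 2).const_mul _).aemeasurable
    _ ≤ (W : ℝ≥0∞) * ∑' n : ℕ, C1 * ∫⁻ ξ in blk m n, 16 * (‖g ξ‖ₑ ^ 2 * w2 2 ‖tl ξ‖) := by
        refine mul_le_mul_right (ENNReal.tsum_le_tsum fun n => ?_) _
        calc ((n : ℝ≥0∞) + 1) ^ 2 * ∫⁻ x in Metric.closedBall x0 1, Mx (pt g n) x ^ 2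
            ≤ ((n : ℝ≥0∞) + 1) ^ 2 * (C1 * ∫⁻ ξ, ‖pt g n ξ‖ₑ ^ 2) := by
              gcongr
              exact hone n
          _ = C1 * (((n : ℝ≥0∞) + 1) ^ 2 * ∫⁻ ξ, ‖pt g n ξ‖ₑ ^ 2) := by ring
          _ ≤ _ := by
              gcongr
              exact hblock n
    _ = (W : ℝ≥0∞) * C1 * 16 * ∫⁻ ξ, ‖g ξ‖ₑ ^ 2 * w2 2 ‖tl ξ‖ := by
        rw [ENNReal.tsum_mul_left, ← lintegral_iUnion (blk_meas m) (blk_disj m)]
        have hU : (⋃ n, blk m n) = Set.univ :=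
          Set.eq_univ_of_forall fun ξ => Set.mem_iUnion.mpr (blk_cover m ξ)
        rw [hU, Measure.restrict_univ, lintegral_const_mul' _ _ (by norm_num)]
        ring
    _ ≤ ((W * C1 * 16 + 1 : ℝ≥0) : ℝ≥0∞) * ∫⁻ ξ, ‖g ξ‖ₑ ^ 2 * w2 2 ‖tl ξ‖ := by
        gcongr
        push_cast
        exact le_self_add

end Pool.Agent.CRF
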