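import Pool.Agent.CRF.Targets
import Pool.Agent.MBS.J8

set_option autoImplicit false

/-!
# CRF, FDN: from one line to finitely many lines
-/

namespace Pool.Agent.CRF

open MeasureTheory FourierTransform Set Filter Topology
open scoped ENNReal NNReal
open Pool.Agent.MBS (E ex S Sstar)

namespace FDN_

variable {n : ℕ}

theorem ex_meas (x : E n) : Measurable (fun ξ => ex x ξ) :=
  (MBS.J8.ex_cont.comp (Continuous.prodMk_right x)).measurable

/-- the pieces add up -/
theorem Mx_le_sum {k : ℕ} (P : Fin k → Set (E n)) (hP : ∀ i, MeasurableSet (P i))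
    (g : E n → ℂ) (hsum : ∀ ξ, g ξ = ∑ i, (P i).indicator g ξ) (x : E n) :
    Mx g x ≤ ∑ i, Mx ((P i).indicator g) x := by
  unfold Mx
  refine iSup₂_le fun R hR => ?_
  by_cases hI : IntegrableOn (fun ξ => g ξ * ex x ξ) (Metric.closedBall (0 : E n) R)
  · have h1 : ∀ i, (fun ξ => (P i).indicator g ξ * ex x ξ) =
        (P i).indicator (fun ξ => g ξ * ex x ξ) := by
      intro i; funext ξ
      by_cases hξ : ξ ∈ P i
      · rw [indicator_of_mem hξ, indicator_of_mem hξ]
      · rw [indicator_of_notMem hξ, indicator_of_notMem hξ, zero_mul]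
    have h2 : ∀ i ∈ (Finset.univ : Finset (Fin k)),
        IntegrableOn (fun ξ => (P i).indicator g ξ * ex x ξ) (Metric.closedBall (0 : E n) R) := by
      intro i _
      rw [h1 i]
      exact Integrable.indicator hI (hP i)
    have h3 : ∫ ξ in Metric.closedBall (0 : E n) R, g ξ * ex x ξ =
        ∑ i, ∫ ξ in Metric.closedBall (0 : E n) R, (P i).indicator g ξ * ex x ξ := by
      rw [← integral_finsetSum _ h2]
      refine integral_congr_ae (Eventually.of_forall fun ξ => ?_)
      show g ξ * ex x ξ = ∑ i, (P i).indicator g ξ * ex x ξ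
      rw [← Finset.sum_mul, ← hsum ξ]
    rw [h3]
    refine (enorm_sum_le _ _).trans (Finset.sum_le_sum fun i _ => ?_)
    exact le_iSup₂ (f := fun (R : ℝ) (_ : 0 < R) =>
      ‖∫ ξ in Metric.closedBall (0 : E n) R, (P i).indicator g ξ * ex x ξ‖ₑ) R hR
  · rw [integral_undef hI]
    simp

/-- left continuity in the radius -/
theorem left_cont {F : E n → ℂ} {R : ℝ} (hR : 0 < R)
    (hF : IntegrableOn F (Metric.closedBall (0 : E n) R)) :
    Tendsto (fun r => ∫ ξ in Metric.closedBall (0 : E n) r, F ξ) (𝓝[<] R)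
      (𝓝 (∫ ξ in Metric.closedBall (0 : E n) R, F ξ)) := by
  have e : ∀ r, ∫ ξ in Metric.closedBall (0 : E n) r, F ξ =
      ∫ ξ, (Metric.closedBall (0 : E n) r).indicator F ξ := fun r =>
    (integral_indicator measurableSet_closedBall).symm
  simp only [e]
  have hint := (integrable_indicator_iff measurableSet_closedBall).2 hF
  have hr : ∀ᶠ r in 𝓝[<] R, r < R := self_mem_nhdsWithin
  have hsub : ∀ᶠ r in 𝓝[<] R, (Metric.closedBall (0 : E n) r).indicator F =
      (Metric.closedBall (0 : E n) r).indicator ((Metric.closedBall (0 : E n) R).indicator F) := by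
    filter_upwards [hr] with r hr'
    rw [indicator_indicator, inter_eq_left.2 (Metric.closedBall_subset_closedBall hr'.le)]
  refine tendsto_integral_filter_of_dominated_convergence
    (fun ξ => ‖(Metric.closedBall (0 : E n) R).indicator F ξ‖) ?_ ?_ hint.norm ?_
  · filter_upwards [hsub] with r h
    rw [h]
    exact hint.aestronglyMeasurable.indicator measurableSet_closedBall
  · filter_upwards [hsub] with r h
    refine Eventually.of_forall fun ξ => ?_
    rw [h]
    exact norm_indicator_le_norm_self _ _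
  · have h0 : volume (Metric.sphere (0 : E n) R) = 0 :=
      Measure.addHaar_sphere_of_ne_zero volume 0 hR.ne'
    have h1 : ∀ᵐ ξ : E n, ξ ∉ Metric.sphere (0 : E n) R := measure_eq_zero_iff_ae_notMem.1 h0
    filter_upwards [h1] with ξ hξ
    rw [mem_sphere_zero_iff_norm] at hξ
    rcases lt_or_gt_of_ne hξ with h | h
    · refine tendsto_const_nhds.congr' ?_
      have h2 : ∀ᶠ r in 𝓝[<] R, ‖ξ‖ < r :=
        mem_nhdsWithin_of_mem_nhds (lt_mem_nhds h)
      filter_upwards [h2] with r h3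
      rw [indicator_of_mem (by rw [mem_closedBall_zero_iff]; exact h.le),
        indicator_of_mem (by rw [mem_closedBall_zero_iff]; exact h3.le)]
    · refine tendsto_const_nhds.congr' ?_
      filter_upwards [hr] with r h3
      rw [indicator_of_notMem (by rw [mem_closedBall_zero_iff]; linarith),
        indicator_of_notMem (by rw [mem_closedBall_zero_iff]; linarith)]

theorem Mx_rat (g : E n → ℂ) : Mx g = fun x =>
    ⨆ (q : ℚ) (_ : 0 < (q : ℝ)), ‖∫ ξ in Metric.closedBall (0 : E n) (q : ℝ), g ξ * ex x ξ‖ₑ := by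
  funext x
  unfold Mx
  apply le_antisymm
  · refine iSup₂_le fun R hR => ?_
    by_cases hI : IntegrableOn (fun ξ => g ξ * ex x ξ) (Metric.closedBall (0 : E n) R)
    · refine le_of_forall_lt fun c hc => ?_
      have h1 := (left_cont hR hI).enorm
      have h2 := h1.eventually_const_lt hc
      obtain ⟨u, hu, hu'⟩ := mem_nhdsLT_iff_exists_Ioo_subset.1 h2
      obtain ⟨q, hq1, hq2⟩ := exists_rat_btwn (show max u 0 < R from max_lt hu hR)
      have h3 := hu' ⟨(le_max_left u 0).trans_lt hq1, hq2⟩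
      exact (show c < _ from h3).trans_le (le_iSup₂ (f := fun (q : ℚ) (_ : 0 < (q : ℝ)) =>
        ‖∫ ξ in Metric.closedBall (0 : E n) (q : ℝ), g ξ * ex x ξ‖ₑ) q
        ((le_max_right u 0).trans_lt hq1))
    · rw [integral_undef hI]; simp
  · refine iSup₂_le fun q hq => ?_
    exact le_iSup₂ (f := fun (R : ℝ) (_ : 0 < R) =>
      ‖∫ ξ in Metric.closedBall (0 : E n) R, g ξ * ex x ξ‖ₑ) (q : ℝ) hq

theorem Mx_meas {g : E n → ℂ} (hg : Measurable g) : Measurable (Mx g) := by
  rw [Mx_rat g]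
  refine Measurable.iSup fun q => Measurable.iSup fun hq => ?_
  have h : Measurable (Function.uncurry fun (x : E n) (ξ : E n) => g ξ * ex x ξ) := by
    have h1 : Measurable fun p : E n × E n => ex p.1 p.2 := MBS.J8.ex_cont.measurable
    exact (hg.comp measurable_snd).mul h1
  exact (h.stronglyMeasurable.integral_prod_right).measurable.enorm

theorem sq_sum {k : ℕ} (a : Fin k → ℝ≥0∞) : (∑ i, a i) ^ 2 ≤ k * ∑ i, a i ^ 2 := by
  have h := ENNReal.rpow_sum_le_const_mul_sum_rpow (Finset.univ : Finset (Fin k)) a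
    (p := 2) (by norm_num)
  rw [Finset.card_univ, Fintype.card_fin] at h
  norm_num at h
  exact h

theorem dl_cont (e : E n) : Continuous (dl e) := by
  unfold dl
  fun_prop

/-- the partition according to the nearest line -/
theorem part (D : Finset (E n)) (h : D.Nonempty) : ∃ (e : Fin D.card → E n)
    (P : Fin D.card → Set (E n)), (∀ i, e i ∈ D) ∧ (∀ i, MeasurableSet (P i)) ∧
    (∀ i, ∀ ξ ∈ P i, dl (e i) ξ = D.inf' h (fun e => dl e ξ)) ∧
    (∀ (α : Type) [AddCommMonoid α] (g : E n → α) (ξ : E n),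
      g ξ = ∑ i, (P i).indicator g ξ) := by
  classical
  set m : E n → ℝ := fun ξ => D.inf' h (fun e => dl e ξ) with hm
  have hmc : Continuous m := Continuous.finset_inf'_apply h fun e _ => dl_cont e
  let e : Fin D.card → E n := fun i => (D.equivFin.symm i : E n)
  let A : Fin D.card → Set (E n) := fun i => {ξ | dl (e i) ξ = m ξ}
  have hA : ∀ i, MeasurableSet (A i) := fun i =>
    measurableSet_eq_fun (dl_cont (e i)).measurable hmc.measurable
  let P : Fin D.card → Set (E n) := fun i => A i \ ⋃ j : {j // j < i}, A j.1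
  have hmem : ∀ ξ, ∃ i, ξ ∈ A i := by
    intro ξ
    obtain ⟨e', he', h'⟩ := Finset.exists_mem_eq_inf' h (fun e => dl e ξ)
    refine ⟨D.equivFin ⟨e', he'⟩, ?_⟩
    show dl (D.equivFin.symm (D.equivFin ⟨e', he'⟩) : E n) ξ = m ξ
    rw [Equiv.symm_apply_apply]
    exact h'.symm
  refine ⟨e, P, fun i => (D.equivFin.symm i).2, fun i => (hA i).diff
    (MeasurableSet.iUnion fun j => hA j.1), fun i ξ hξ => hξ.1, ?_⟩
  intro α _ g ξ
  obtain ⟨i, hi, hmin⟩ := WellFounded.has_min (wellFounded_lt (α := Fin D.card))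
    {i | ξ ∈ A i} (hmem ξ)
  have hiP : ξ ∈ P i := by
    refine ⟨hi, ?_⟩
    rw [mem_iUnion]
    rintro ⟨⟨j, hj⟩, hj'⟩
    exact hmin j hj' hj
  rw [Finset.sum_eq_single i, indicator_of_mem hiP]
  · intro j _ hj
    refine indicator_of_notMem (fun hjP => ?_) _
    rcases lt_or_gt_of_ne hj with hlt | hgt
    · exact hmin j hjP.1 hlt
    · exact hjP.2 (mem_iUnion.2 ⟨⟨i, hgt⟩, hi⟩)
  · intro h'; exact absurd (Finset.mem_univ i) h'

/-- the weighted norms of the pieces add up -/
theorem sum_norm {w : ℝ → ℝ≥0∞} (hw : Measurable w) (D : Finset (E n)) (h : D.Nonempty)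
    {e : Fin D.card → E n} {P : Fin D.card → Set (E n)} (hP : ∀ i, MeasurableSet (P i))
    (hPe : ∀ i, ∀ ξ ∈ P i, dl (e i) ξ = D.inf' h (fun e => dl e ξ))
    (hs : ∀ (α : Type) [AddCommMonoid α] (g : E n → α) (ξ : E n),
      g ξ = ∑ i, (P i).indicator g ξ) {g : E n → ℂ} (hg : Measurable g) :
    ∑ i, ∫⁻ ξ, ‖(P i).indicator g ξ‖ₑ ^ 2 * w (dl (e i) ξ) =
      ∫⁻ ξ, ‖g ξ‖ₑ ^ 2 * w (D.inf' h (fun e => dl e ξ)) := by
  have hmc : Continuous (fun ξ : E n => D.inf' h (fun e => dl e ξ)) :=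
    Continuous.finset_inf'_apply h fun e _ => dl_cont e
  set G : E n → ℝ≥0∞ := fun ξ => ‖g ξ‖ₑ ^ 2 * w (D.inf' h (fun e => dl e ξ)) with hG
  have hGm : Measurable G := (hg.enorm.pow_const 2).mul (hw.comp hmc.measurable)
  have h1 : ∀ i, (fun ξ => ‖(P i).indicator g ξ‖ₑ ^ 2 * w (dl (e i) ξ)) =
      (P i).indicator G := by
    intro i; funext ξ
    by_cases hξ : ξ ∈ P i
    · rw [indicator_of_mem hξ, indicator_of_mem hξ, hPe i ξ hξ]
    · rw [indicator_of_notMem hξ, indicator_of_notMem hξ]; simp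
  simp only [h1]
  rw [← lintegral_finsetSum _ (fun i _ => hGm.indicator (hP i))]
  refine lintegral_congr fun ξ => ?_
  exact (hs _ G ξ).symm

end FDN_

open FDN_ in
theorem p_FDN : T_FDN := by
  intro n w hw
  refine ⟨?_, ?_⟩
  · rintro ⟨C, hC⟩
    refine ⟨C, fun D h g x0 hD hg => ?_⟩
    obtain ⟨e, P, he, hP, hPe, hs⟩ := part D h
    calc ∫⁻ x in Metric.closedBall x0 1, Mx g x ^ 2
        ≤ ∫⁻ x in Metric.closedBall x0 1, (D.card : ℝ≥0∞) *
            ∑ i, Mx ((P i).indicator g) x ^ 2 := by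
          refine lintegral_mono fun x => ?_
          refine le_trans ?_ (sq_sum _)
          exact pow_le_pow_left₀ (by positivity) (Mx_le_sum P hP g (hs ℂ g) x) 2
      _ = (D.card : ℝ≥0∞) * ∑ i, ∫⁻ x in Metric.closedBall x0 1,
            Mx ((P i).indicator g) x ^ 2 := by
          rw [lintegral_const_mul' _ _ (ENNReal.natCast_ne_top _), lintegral_finsetSum]
          intro i _
          exact (Mx_meas (hg.indicator (hP i))).pow_const 2
      _ ≤ (D.card : ℝ≥0∞) * ∑ i, C * ∫⁻ ξ, ‖(P i).indicator g ξ‖ₑ ^ 2 * w (dl (e i) ξ) := by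
          gcongr with i _
          exact hC (e i) _ x0 (hD _ (he i)) (hg.indicator (hP i))
      _ = C * D.card * ∫⁻ ξ, ‖g ξ‖ₑ ^ 2 * w (D.inf' h (fun e => dl e ξ)) := by
          rw [← Finset.mul_sum, sum_norm hw D h hP hPe hs hg]; ring
  · rintro ⟨C, hC⟩ D h hD
    refine ⟨C * D.card ^ 2, fun g x0 l hg => ?_⟩
    obtain ⟨e, P, he, hP, hPe, hs⟩ := part D h
    have hk0 : (D.card : ℝ≥0∞) ≠ 0 := by
      exact_mod_cast (Finset.card_pos.2 h).ne'
    have hkt : (D.card : ℝ≥0∞) ≠ ⊤ := ENNReal.natCast_ne_top _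
    set k : ℝ≥0∞ := (D.card : ℝ≥0∞) with hk
    have hkl : k * (l / k) = l := ENNReal.mul_div_cancel hk0 hkt
    have hsub : {x ∈ Metric.closedBall x0 1 | l < Mx g x} ⊆
        ⋃ i, {x ∈ Metric.closedBall x0 1 | l / k < Mx ((P i).indicator g) x} := by
      rintro x ⟨hx, hlx⟩
      by_contra hcon
      rw [mem_iUnion] at hcon
      push Not at hcon
      have h1 : ∀ i, Mx ((P i).indicator g) x ≤ l / k := by
        intro i
        by_contra hlt
        exact hcon i ⟨hx, not_le.1 hlt⟩
      have h2 : Mx g x ≤ l := by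
        refine (Mx_le_sum P hP g (hs ℂ g) x).trans ?_
        refine (Finset.sum_le_sum fun i _ => h1 i).trans ?_
        rw [Finset.sum_const, Finset.card_univ, Fintype.card_fin, nsmul_eq_mul]
        exact hkl.le
      exact absurd hlx (not_lt.2 h2)
    calc l ^ 2 * volume {x ∈ Metric.closedBall x0 1 | l < Mx g x}
        ≤ l ^ 2 * ∑ i, volume {x ∈ Metric.closedBall x0 1 |
            l / k < Mx ((P i).indicator g) x} := by
          gcongr
          exact (measure_mono hsub).trans (measure_iUnion_fintype_le _ _)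
      _ = k ^ 2 * ∑ i, (l / k) ^ 2 * volume {x ∈ Metric.closedBall x0 1 |
            l / k < Mx ((P i).indicator g) x} := by
          rw [← Finset.mul_sum, ← mul_assoc, ← mul_pow, hkl]
      _ ≤ k ^ 2 * ∑ i, C * ∫⁻ ξ, ‖(P i).indicator g ξ‖ₑ ^ 2 * w (dl (e i) ξ) := by
          refine mul_le_mul le_rfl (Finset.sum_le_sum fun i _ => ?_) zero_le zero_le
          exact hC (e i) _ x0 (l / k) (hD _ (he i)) (hg.indicator (hP i))
      _ = ((C * D.card ^ 2 : ℝ≥0) : ℝ≥0∞) *
            ∫⁻ ξ, ‖g ξ‖ₑ ^ 2 * w (D.inf' h (fun e => dl e ξ)) := by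
          rw [← Finset.mul_sum, sum_norm hw D h hP hPe hs hg]
          push_cast
          ring

end Pool.Agent.CRF
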