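import Pool.Agent.CRF.Targets

set_option autoImplicit false

/-!
# CRF, target FFS: the final maximal inequality in the plane
-/

namespace Pool.Agent.CRF

open MeasureTheory FourierTransform Set Filter Topology
open scoped ENNReal NNReal
open Pool.Agent.MBS (E ex S Sstar)

namespace FFS_

theorem meas_w2 (p : ℕ) : Measurable (w2 p) := by
  unfold w2
  refine ENNReal.measurable_ofReal.comp ?_
  refine Measurable.pow_const ?_ p
  refine Real.measurable_log.comp ?_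
  refine Measurable.const_add ?_ 3
  exact Real.measurable_log.comp (measurable_const_add 3)

theorem norm_tl (ξ : E (1 + 1)) : ‖tl ξ‖ = |ξ 1| := by
  rw [EuclideanSpace.norm_eq, Fin.sum_univ_one]
  have h1 : (tl ξ) 0 = ξ 1 := rfl
  rw [h1, Real.norm_eq_abs, Real.sqrt_sq (abs_nonneg _)]

theorem one_line (h1 : T_FPS) (h2 : T_FRT) (hC : Pool.Agent.CRN.T_CARLS) (hL : T_LLL) :
    ∃ C : ℝ≥0, ∀ (e : E 2) (g : E 2 → ℂ) (x0 : E 2), ‖e‖ = 1 → Measurable g →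
      ∫⁻ x in Metric.closedBall x0 1, Mx g x ^ 2 ≤
        C * ∫⁻ ξ, ‖g ξ‖ₑ ^ 2 * w2 12 (dl e ξ) := by
  obtain ⟨C, hFPS⟩ := h1 hC hL
  refine ⟨C, fun e g x0 he hg => ?_⟩
  obtain ⟨A, hA1, hA2, hA3, hA4, -⟩ := h2 1 e he
  have hgA : Measurable (fun ξ : E 2 => g (A ξ)) := hg.comp A.continuous.measurable
  have h3 := hFPS (fun ξ : E 2 => g (A ξ)) (A.symm x0) hgA
  have h4 : ∫⁻ x in Metric.closedBall (A.symm x0) 1, Mx (fun ξ : E 2 => g (A ξ)) x ^ 2 =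
      ∫⁻ x in Metric.closedBall x0 1, Mx g x ^ 2 := by
    rw [← hA4 (fun y => Mx g y ^ 2) x0]
    refine lintegral_congr fun x => ?_
    rw [← hA2 g x]
  have h5 : ∫⁻ ξ : E 2, ‖g (A ξ)‖ₑ ^ 2 * w2 12 |ξ 1| =
      ∫⁻ ξ, ‖g ξ‖ₑ ^ 2 * w2 12 (dl e ξ) := by
    rw [← hA3 (fun y => ‖g y‖ₑ ^ 2 * w2 12 (dl e y))]
    refine lintegral_congr fun ξ => ?_
    rw [hA1 ξ, norm_tl]
  rw [h4, h5] at h3
  exact h3

end FFS_

open FFS_ in
theorem p_FFS (h1 : T_FPS) (h2 : T_FRT) (h3 : T_FDN) : T_FFS := by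
  intro hC hL
  exact (h3 2 (w2 12) (meas_w2 12)).1 (one_line h1 h2 hC hL)

end Pool.Agent.CRF
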