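import Pool.Agent.CRF.Targets

set_option autoImplicit false

/-!
# CRF, FFW: a.e. convergence in the plane
-/

namespace Pool.Agent.CRF

open MeasureTheory FourierTransform Set Filter Topology
open scoped ENNReal NNReal
open Pool.Agent.MBS (E ex S Sstar)
open Pool.Agent.CAR (e1)
open Pool.Agent.CRN (IN T_CARLS T_RAYN T_AHN Nice)

namespace FFW_

theorem meas_w2 (p : ℕ) : Measurable (w2 p) := by
  unfold w2
  refine ENNReal.measurable_ofReal.comp ?_
  exact (Real.measurable_log.comp (measurable_const.add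
    (Real.measurable_log.comp (measurable_const.add measurable_id)))).pow_const p

theorem one_le_w2 (p : ℕ) {d : ℝ} (hd : 0 ≤ d) : 1 ≤ w2 p d := by
  unfold w2
  rw [ENNReal.one_le_ofReal]
  refine one_le_pow₀ ?_
  have h3 : ∀ x : ℝ, 0 ≤ x → 1 ≤ Real.log (3 + x) := by
    intro x hx
    rw [Real.le_log_iff_exp_le (by linarith)]
    have := Real.exp_one_lt_d9
    linarith
  exact h3 _ (by linarith [h3 d hd])

theorem dl_nonneg {n : ℕ} (e ξ : E n) : 0 ≤ dl e ξ := norm_nonneg _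

theorem cont_dl {n : ℕ} (e : E n) : Continuous (dl e) := by
  unfold dl
  fun_prop

theorem norm_tl (ξ : E 2) : ‖tl (m := 1) ξ‖ = |ξ 1| := by
  unfold tl
  rw [EuclideanSpace.norm_eq, Fin.sum_univ_one]
  simp only [Real.norm_eq_abs, sq_abs, Real.sqrt_sq_eq_abs]
  rfl

end FFW_

open FFW_ in
theorem p_FFW (h1 : T_FPW) (h2 : T_FRT) (h3 : T_FDN) (h4 : T_FAE) : T_FFW := by
  intro hc hl D h f hD hf hfin
  obtain ⟨C, hC⟩ := h1 hc hl
  -- one line
  have hone : ∃ C : ℝ≥0, ∀ (e : E 2) (g : E 2 → ℂ) (x0 : E 2) (l : ℝ≥0∞), ‖e‖ = 1 →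
      Measurable g → l ^ 2 * volume {x ∈ Metric.closedBall x0 1 | l < Mx g x} ≤
        C * ∫⁻ ξ, ‖g ξ‖ₑ ^ 2 * w2 11 (dl e ξ) := by
    refine ⟨C, fun e g x0 l he hg => ?_⟩
    obtain ⟨A, a1, a2, a3, -, a5⟩ := h2 1 e he
    have hAc : Continuous (A : E 2 → E 2) := A.continuous
    have b1 := hC (fun ξ => g (A ξ)) (A.symm x0) l (hg.comp hAc.measurable)
    have b2 : {x ∈ Metric.closedBall (A.symm x0) 1 | l < Mx (fun ξ => g (A ξ)) x} =
        A ⁻¹' {x ∈ Metric.closedBall x0 1 | l < Mx g x} := by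
      ext x
      simp only [mem_preimage, Set.mem_ofPred_eq, Metric.mem_closedBall]
      have e1 : dist x (A.symm x0) = dist (A x) x0 := by
        rw [← A.dist_map x (A.symm x0), A.apply_symm_apply]
      rw [e1, a2 g x]
    rw [b2, a5] at b1
    refine b1.trans (le_of_eq ?_)
    congr 1
    rw [← a3 (fun ξ => ‖g ξ‖ₑ ^ 2 * w2 11 (dl e ξ))]
    refine lintegral_congr fun ξ => ?_
    rw [a1 ξ, norm_tl]
  obtain ⟨C', hC'⟩ := (h3 2 (w2 11) (meas_w2 11)).2 hone D h hD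
  refine h4 2 (fun ξ => w2 11 (D.inf' h (fun e => dl e ξ))) ?_ ?_ ⟨C', hC'⟩ f hf hfin
  · refine (meas_w2 11).comp ?_
    exact (Continuous.finset_inf'_apply h (fun e _ => cont_dl e)).measurable
  · intro ξ
    refine one_le_w2 11 ?_
    rw [Finset.le_inf'_iff]
    intro e _
    exact dl_nonneg e ξ

end Pool.Agent.CRF
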