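import Pool.Agent.CRF.Targets

set_option autoImplicit false

/-!
# Block FL0: Carleson with the radial variable
-/

namespace Pool.Agent.CRF

open MeasureTheory FourierTransform Set Filter Topology
open scoped ENNReal NNReal
open Pool.Agent.MBS (E ex S Sstar)
open Pool.Agent.CAR (e1)
open Pool.Agent.CRN (IN T_CARLS T_RAYN T_AHN Nice)

namespace FL0_

variable {m : ℕ}

theorem lint_of_eLpNorm {u v : E m → ℂ} (h : eLpNorm u 2 = eLpNorm v 2) :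
    ∫⁻ x, ‖u x‖ₑ ^ 2 = ∫⁻ x, ‖v x‖ₑ ^ 2 := by
  rw [eLpNorm_eq_lintegral_rpow_enorm_toReal (by norm_num) (by norm_num),
    eLpNorm_eq_lintegral_rpow_enorm_toReal (by norm_num) (by norm_num)] at h
  have h2 := congrArg (fun t => t ^ (2 : ℝ)) h
  simp only [← ENNReal.rpow_mul] at h2
  simpa using h2

theorem IN_eq_fourier (h : E m → ℂ) (x : E m) : IN h x = 𝓕 h (-x) := by
  have e := Pool.Agent.MBS.T_eq_fourier (fun _ : E m => (1 : ℝ)) h x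
  unfold Pool.Agent.MBS.T at e
  simpa [IN] using e

theorem plancherelIN {f : E m → ℂ} (h1 : Integrable f) (h2 : MemLp f 2) :
    ∫⁻ x, ‖IN f x‖ₑ ^ 2 = ∫⁻ x, ‖f x‖ₑ ^ 2 := by
  rw [← lint_of_eLpNorm (Pool.Agent.H25.Plancherel.eLpNorm_fourier_eq h1 h2),
    ← lintegral_neg_eq_self (fun x => ‖𝓕 f x‖ₑ ^ 2)]
  refine lintegral_congr fun x => ?_
  rw [IN_eq_fourier]

theorem e1_norm (x : ℝ) : ‖e1 x‖ = 1 := by
  unfold e1
  rw [show (2 * Real.pi * Complex.I * (x : ℂ) : ℂ) = ((2 * Real.pi * x : ℝ) : ℂ) * Complex.I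
    from by push_cast; ring]
  exact Complex.norm_exp_ofReal_mul_I _

theorem e1_continuous : Continuous e1 := by
  unfold e1
  fun_prop

theorem ex_norm {n : ℕ} (x ξ : E n) : ‖ex x ξ‖ = 1 := e1_norm _

theorem ex_cont {n : ℕ} : Continuous (fun p : E n × E n => ex p.1 p.2) :=
  Pool.Agent.MBS.ex_continuous

/-- the radial substitution -/
noncomputable def fr (z : E m) (ρ : ℝ) : ℝ := Real.sqrt (ρ ^ 2 - ‖z‖ ^ 2)

theorem fr_arg {z : E m} {ρ : ℝ} (h : ‖z‖ < ρ) : 0 < ρ ^ 2 - ‖z‖ ^ 2 := by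
  nlinarith [norm_nonneg z]

theorem fr_pos {z : E m} {ρ : ℝ} (h : ‖z‖ < ρ) : 0 < fr z ρ := Real.sqrt_pos.2 (fr_arg h)

theorem fr_sq {z : E m} {ρ : ℝ} (h : ‖z‖ < ρ) : fr z ρ ^ 2 = ρ ^ 2 - ‖z‖ ^ 2 :=
  Real.sq_sqrt (fr_arg h).le

theorem fr_deriv {z : E m} {ρ : ℝ} (h : ‖z‖ < ρ) : HasDerivAt (fr z) (ρ / fr z ρ) ρ := by
  have h1 : HasDerivAt (fun r : ℝ => r ^ 2 - ‖z‖ ^ 2) (2 * ρ) ρ := by
    have := (hasDerivAt_pow 2 ρ).sub_const (‖z‖ ^ 2)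
    simpa using this
  have h2 := h1.sqrt (fr_arg h).ne'
  have h3 : ρ / fr z ρ = 2 * ρ / (2 * Real.sqrt (ρ ^ 2 - ‖z‖ ^ 2)) := by
    unfold fr
    rw [mul_div_mul_left _ _ (by norm_num)]
  rw [h3]
  exact h2

theorem fr_inj (z : E m) : InjOn (fr z) (Ioi ‖z‖) := by
  intro a ha b hb hab
  have h1 := fr_sq ha
  have h2 := fr_sq hb
  rw [hab] at h1
  have h3 : a ^ 2 = b ^ 2 := by linarith
  have ha0 : 0 ≤ a := (norm_nonneg z).trans (le_of_lt ha)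
  have hb0 : 0 ≤ b := (norm_nonneg z).trans (le_of_lt hb)
  exact (sq_eq_sq₀ ha0 hb0).1 h3

theorem fr_image (z : E m) : fr z '' Ioi ‖z‖ = Ioi 0 := by
  ext t
  simp only [mem_image, mem_Ioi]
  constructor
  · rintro ⟨ρ, hρ, rfl⟩
    exact fr_pos hρ
  · intro ht
    have h1 : ‖z‖ < Real.sqrt (t ^ 2 + ‖z‖ ^ 2) := by
      rw [Real.lt_sqrt (norm_nonneg z)]
      nlinarith
    refine ⟨Real.sqrt (t ^ 2 + ‖z‖ ^ 2), h1, ?_⟩
    unfold fr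
    rw [Real.sq_sqrt (by positivity), add_sub_cancel_right, Real.sqrt_sq ht.le]

theorem cv_int (z : E m) (φ : ℝ → ℂ) :
    ∫ t in Ioi (0 : ℝ), φ t = ∫ ρ in Ioi ‖z‖, ((ρ / fr z ρ : ℝ) : ℂ) * φ (fr z ρ) := by
  have h := integral_image_eq_integral_abs_deriv_smul (measurableSet_Ioi (a := ‖z‖))
    (fun ρ hρ => (fr_deriv hρ).hasDerivWithinAt) (fr_inj z) φ
  rw [fr_image] at h
  rw [h]
  refine setIntegral_congr_fun measurableSet_Ioi fun ρ hρ => ?_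
  have h0 : 0 ≤ ρ / fr z ρ :=
    div_nonneg ((norm_nonneg z).trans (le_of_lt hρ)) (fr_pos hρ).le
  rw [abs_of_nonneg h0, Complex.real_smul]

theorem cv_lint (z : E m) (φ : ℝ → ℝ≥0∞) :
    ∫⁻ t in Ioi (0 : ℝ), φ t = ∫⁻ ρ in Ioi ‖z‖, ENNReal.ofReal (ρ / fr z ρ) * φ (fr z ρ) := by
  have h := lintegral_image_eq_lintegral_abs_deriv_mul (measurableSet_Ioi (a := ‖z‖))
    (fun ρ hρ => (fr_deriv hρ).hasDerivWithinAt) (fr_inj z) φ
  rw [fr_image] at h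
  rw [h]
  refine setLIntegral_congr_fun measurableSet_Ioi fun ρ hρ => ?_
  have h0 : 0 ≤ ρ / fr z ρ :=
    div_nonneg ((norm_nonneg z).trans (le_of_lt hρ)) (fr_pos hρ).le
  rw [abs_of_nonneg h0]

/-- the kernel in the radial variable -/
noncomputable def kk (h : E (m + 1) → ℂ) (ρ : ℝ) (z : E m) : ℂ :=
  (Ioi ‖z‖).indicator (fun r => ((r / fr z r : ℝ) : ℂ) * h (jn (fr z r) z)) ρ

/-- its Fourier integral -/
noncomputable def HH (h : E (m + 1) → ℂ) (ρ : ℝ) (y : E m) : ℂ := ∫ z, kk h ρ z * ex y z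

theorem fr_meas : Measurable (fun p : ℝ × E m => fr p.2 p.1) := by
  unfold fr
  fun_prop

theorem kk_meas {h : E (m + 1) → ℂ} (hm : Measurable h)
    (hj : Continuous (fun p : ℝ × E m => jn p.1 p.2)) :
    Measurable (fun p : ℝ × E m => kk h p.1 p.2) := by
  have h1 : (fun p : ℝ × E m => kk h p.1 p.2) = {p : ℝ × E m | ‖p.2‖ < p.1}.indicator
      (fun p => ((p.1 / fr p.2 p.1 : ℝ) : ℂ) * h (jn (fr p.2 p.1) p.2)) := by
    funext p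
    unfold kk
    by_cases hp : ‖p.2‖ < p.1
    · rw [indicator_of_mem (show p.1 ∈ Ioi ‖p.2‖ from hp),
        indicator_of_mem (show p ∈ {p : ℝ × E m | ‖p.2‖ < p.1} from hp)]
    · rw [indicator_of_notMem (show p.1 ∉ Ioi ‖p.2‖ from hp),
        indicator_of_notMem (show p ∉ {p : ℝ × E m | ‖p.2‖ < p.1} from hp)]
  rw [h1]
  refine Measurable.indicator ?_ (measurableSet_lt (by fun_prop) (by fun_prop))
  refine Measurable.mul ?_ ?_
  · exact Complex.measurable_ofReal.comp (measurable_fst.div fr_meas)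
  · exact hm.comp (hj.measurable.comp (fr_meas.prodMk measurable_snd))

theorem gen_meas {k : ℝ → E m → ℂ} {e : E m → E m → ℂ}
    (hk : Measurable (fun p : ℝ × E m => k p.1 p.2))
    (he : Measurable (fun p : E m × E m => e p.1 p.2)) :
    Measurable (fun p : ℝ × E m => ∫ z, k p.1 z * e p.2 z) := by
  have a1 : Measurable (fun q : (ℝ × E m) × E m => q.1.1) := measurable_fst.comp measurable_fst
  have a2 : Measurable (fun q : (ℝ × E m) × E m => q.1.2) := measurable_snd.comp measurable_fst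
  have a3 : Measurable (fun q : (ℝ × E m) × E m => q.2) := measurable_snd
  have hc : Measurable (fun q : (ℝ × E m) × E m => k q.1.1 q.2) := hk.comp (a1.prodMk a3)
  have hd : Measurable (fun q : (ℝ × E m) × E m => e q.1.2 q.2) := he.comp (a2.prodMk a3)
  exact (StronglyMeasurable.integral_prod_right' (ν := volume)
    (f := fun q : (ℝ × E m) × E m => k q.1.1 q.2 * e q.1.2 q.2)
    (hc.mul hd).stronglyMeasurable).measurable

theorem ex_meas2 {n : ℕ} : Measurable (fun p : E n × E n => ex p.1 p.2) := ex_cont.measurable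

theorem HH_meas {h : E (m + 1) → ℂ} (hm : Measurable h)
    (hj : Continuous (fun p : ℝ × E m => jn p.1 p.2)) :
    Measurable (fun p : ℝ × E m => HH h p.1 p.2) :=
  gen_meas (k := kk h) (e := fun y z => ex y z) (kk_meas hm hj) ex_meas2

/-- the support condition -/
def Sup (K : ℝ) (h : E (m + 1) → ℂ) : Prop :=
  ∀ ξ, h ξ ≠ 0 → 0 < ξ 0 ∧ ‖tl ξ‖ ≤ K ∧ 2 * K ≤ ‖ξ‖

theorem jn_norm {z : E m} {ρ : ℝ} (hρ : ‖z‖ < ρ)
    (hn : ∀ (t : ℝ) (y : E m), jn t y 0 = t ∧ tl (jn t y) = y ∧ ‖jn t y‖ ^ 2 = t ^ 2 + ‖y‖ ^ 2) :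
    ‖jn (fr z ρ) z‖ = ρ := by
  have h1 := (hn (fr z ρ) z).2.2
  rw [fr_sq hρ, sub_add_cancel] at h1
  exact (sq_eq_sq₀ (norm_nonneg _) ((norm_nonneg z).trans hρ.le)).1 h1

theorem kk_supp {K : ℝ} {h : E (m + 1) → ℂ} (hs : Sup K h)
    (hn : ∀ (t : ℝ) (y : E m), jn t y 0 = t ∧ tl (jn t y) = y ∧ ‖jn t y‖ ^ 2 = t ^ 2 + ‖y‖ ^ 2)
    {ρ : ℝ} {z : E m} (hk : kk h ρ z ≠ 0) : ‖z‖ < ρ ∧ ‖z‖ ≤ K ∧ 2 * K ≤ ρ := by
  unfold kk at hk
  have h1 : ‖z‖ < ρ := mem_of_indicator_ne_zero hk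
  rw [indicator_of_mem (show ρ ∈ Ioi ‖z‖ from h1)] at hk
  obtain ⟨-, h3, h4⟩ := hs _ (right_ne_zero_of_mul hk)
  rw [(hn _ _).2.1] at h3
  rw [jn_norm h1 hn] at h4
  exact ⟨h1, h3, h4⟩

theorem kk_sq_le {K : ℝ} {h : E (m + 1) → ℂ} (hs : Sup K h)
    (hn : ∀ (t : ℝ) (y : E m), jn t y 0 = t ∧ tl (jn t y) = y ∧ ‖jn t y‖ ^ 2 = t ^ 2 + ‖y‖ ^ 2)
    (ρ : ℝ) (z : E m) : ‖kk h ρ z‖ₑ ^ 2 ≤ (Ioi ‖z‖).indicator (fun r =>
      2 * (ENNReal.ofReal (r / fr z r) * ‖h (jn (fr z r) z)‖ₑ ^ 2)) ρ := by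
  by_cases hk : kk h ρ z = 0
  · rw [hk]; simp
  · obtain ⟨h1, h2, h3⟩ := kk_supp hs hn hk
    have hfr := fr_pos h1
    rw [indicator_of_mem (show ρ ∈ Ioi ‖z‖ from h1)]
    have e1 : kk h ρ z = ((ρ / fr z ρ : ℝ) : ℂ) * h (jn (fr z ρ) z) := by
      unfold kk
      rw [indicator_of_mem (show ρ ∈ Ioi ‖z‖ from h1)]
    have hρ0 : 0 ≤ ρ := (norm_nonneg z).trans h1.le
    have h4 : ρ / fr z ρ ≤ 2 := by
      rw [div_le_iff₀ hfr]
      have h5 := fr_sq h1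
      have h6 : 2 * ‖z‖ ≤ ρ := by linarith
      nlinarith [norm_nonneg z]
    have h0 : 0 ≤ ρ / fr z ρ := div_nonneg hρ0 hfr.le
    rw [e1, enorm_mul, mul_pow]
    have e2 : ‖((ρ / fr z ρ : ℝ) : ℂ)‖ₑ = ENNReal.ofReal (ρ / fr z ρ) := by
      rw [← ofReal_norm, Complex.norm_real, Real.norm_of_nonneg h0]
    rw [e2, sq (ENNReal.ofReal (ρ / fr z ρ)), ← mul_assoc]
    gcongr
    calc ENNReal.ofReal (ρ / fr z ρ) ≤ ENNReal.ofReal 2 := ENNReal.ofReal_le_ofReal h4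
      _ = 2 := by norm_num

/-- the total mass of the kernel -/
theorem total {K : ℝ} {h : E (m + 1) → ℂ} (hm : Measurable h) (hs : Sup K h)
    (hl : ∀ F : E (m + 1) → ℝ≥0∞, Measurable F →
      ∫⁻ x, F x = ∫⁻ t : ℝ, ∫⁻ y : E m, F (jn t y))
    (hj : Continuous (fun p : ℝ × E m => jn p.1 p.2))
    (hn : ∀ (t : ℝ) (y : E m), jn t y 0 = t ∧ tl (jn t y) = y ∧ ‖jn t y‖ ^ 2 = t ^ 2 + ‖y‖ ^ 2) :
    ∫⁻ ρ : ℝ, ∫⁻ z : E m, ‖kk h ρ z‖ₑ ^ 2 ≤ 2 * ∫⁻ ξ, ‖h ξ‖ₑ ^ 2 := by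
  have hkm := kk_meas hm hj
  have hhm : Measurable (fun p : ℝ × E m => ‖h (jn p.1 p.2)‖ₑ ^ 2) :=
    (hm.comp hj.measurable).enorm.pow_const 2
  have sw1 : ∫⁻ ρ : ℝ, ∫⁻ z : E m, ‖kk h ρ z‖ₑ ^ 2 = ∫⁻ z : E m, ∫⁻ ρ : ℝ, ‖kk h ρ z‖ₑ ^ 2 :=
    lintegral_lintegral_swap (hkm.enorm.pow_const 2).aemeasurable
  have sw2 : ∫⁻ t : ℝ, ∫⁻ z : E m, ‖h (jn t z)‖ₑ ^ 2 =
      ∫⁻ z : E m, ∫⁻ t : ℝ, ‖h (jn t z)‖ₑ ^ 2 :=
    lintegral_lintegral_swap hhm.aemeasurable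
  rw [sw1, hl _ (hm.enorm.pow_const 2), sw2, ← lintegral_const_mul _ hhm.lintegral_prod_left']
  refine lintegral_mono fun z => ?_
  calc ∫⁻ ρ : ℝ, ‖kk h ρ z‖ₑ ^ 2 ≤ ∫⁻ ρ : ℝ, (Ioi ‖z‖).indicator (fun r =>
        2 * (ENNReal.ofReal (r / fr z r) * ‖h (jn (fr z r) z)‖ₑ ^ 2)) ρ :=
        lintegral_mono fun ρ => kk_sq_le hs hn ρ z
    _ = ∫⁻ ρ in Ioi ‖z‖, 2 * (ENNReal.ofReal (ρ / fr z ρ) * ‖h (jn (fr z ρ) z)‖ₑ ^ 2) :=
        lintegral_indicator measurableSet_Ioi _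
    _ = 2 * ∫⁻ ρ in Ioi ‖z‖, ENNReal.ofReal (ρ / fr z ρ) * ‖h (jn (fr z ρ) z)‖ₑ ^ 2 :=
        lintegral_const_mul' _ _ (by norm_num)
    _ = 2 * ∫⁻ t in Ioi (0 : ℝ), ‖h (jn t z)‖ₑ ^ 2 := by rw [cv_lint z]
    _ ≤ 2 * ∫⁻ t : ℝ, ‖h (jn t z)‖ₑ ^ 2 := by
        gcongr
        exact Measure.restrict_le_self

theorem en_le (a : ℝ≥0∞) : a ≤ 1 + a ^ 2 := by
  rcases le_total a 1 with h | h
  · exact h.trans le_self_add
  · calc a = a * 1 := (mul_one a).symm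
      _ ≤ a * a := by gcongr
      _ = a ^ 2 := (sq a).symm
      _ ≤ 1 + a ^ 2 := le_add_self

theorem h_int {n : ℕ} {h : E n → ℂ} (hm : Measurable h) (hf : ∫⁻ ξ, ‖h ξ‖ₑ ^ 2 ≠ ⊤) (R : ℝ) :
    IntegrableOn h (Metric.closedBall 0 R) := by
  refine ⟨hm.aestronglyMeasurable, ?_⟩
  rw [hasFiniteIntegral_iff_enorm]
  calc ∫⁻ ξ in Metric.closedBall 0 R, ‖h ξ‖ₑ
      ≤ ∫⁻ ξ in Metric.closedBall (0 : E n) R, (1 + ‖h ξ‖ₑ ^ 2) :=
        lintegral_mono fun ξ => en_le _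
    _ = volume (Metric.closedBall (0 : E n) R) +
        ∫⁻ ξ in Metric.closedBall (0 : E n) R, ‖h ξ‖ₑ ^ 2 := by
        rw [lintegral_add_left measurable_const]
        simp
    _ < ⊤ := ENNReal.add_lt_top.2 ⟨measure_closedBall_lt_top,
        (setLIntegral_le_lintegral _ _).trans_lt (lt_top_iff_ne_top.2 hf)⟩

theorem kk_int {K : ℝ} {h : E (m + 1) → ℂ} (hm : Measurable h) (hs : Sup K h)
    (hl : ∀ F : E (m + 1) → ℝ≥0∞, Measurable F →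
      ∫⁻ x, F x = ∫⁻ t : ℝ, ∫⁻ y : E m, F (jn t y))
    (hj : Continuous (fun p : ℝ × E m => jn p.1 p.2))
    (hn : ∀ (t : ℝ) (y : E m), jn t y 0 = t ∧ tl (jn t y) = y ∧ ‖jn t y‖ ^ 2 = t ^ 2 + ‖y‖ ^ 2)
    (hf : ∫⁻ ξ, ‖h ξ‖ₑ ^ 2 ≠ ⊤) (R : ℝ) :
    Integrable (fun p : ℝ × E m => kk h p.1 p.2) ((volume.restrict (Ioc 0 R)).prod volume) := by
  have hkm := kk_meas hm hj
  refine ⟨hkm.aestronglyMeasurable, ?_⟩
  rw [hasFiniteIntegral_iff_enorm, lintegral_prod _ hkm.enorm.aemeasurable]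
  have h1 : ∀ (ρ : ℝ) (z : E m), ‖kk h ρ z‖ₑ ≤
      (Metric.closedBall (0 : E m) K).indicator 1 z + ‖kk h ρ z‖ₑ ^ 2 := by
    intro ρ z
    by_cases hk : kk h ρ z = 0
    · rw [hk]; simp
    · obtain ⟨-, h2, -⟩ := kk_supp hs hn hk
      rw [indicator_of_mem (by simpa using h2)]
      exact en_le _
  calc ∫⁻ ρ in Ioc 0 R, ∫⁻ z, ‖kk h ρ z‖ₑ
     ≤ ∫⁻ ρ in Ioc 0 R, (volume (Metric.closedBall (0 : E m) K) + ∫⁻ z, ‖kk h ρ z‖ₑ ^ 2) := by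
        refine lintegral_mono fun ρ => ?_
        calc ∫⁻ z, ‖kk h ρ z‖ₑ
            ≤ ∫⁻ z, ((Metric.closedBall (0 : E m) K).indicator 1 z + ‖kk h ρ z‖ₑ ^ 2) :=
              lintegral_mono (h1 ρ)
          _ = volume (Metric.closedBall (0 : E m) K) + ∫⁻ z, ‖kk h ρ z‖ₑ ^ 2 := by
            rw [lintegral_add_left (measurable_one.indicator measurableSet_closedBall),
              lintegral_indicator_one measurableSet_closedBall]
    _ = volume (Metric.closedBall (0 : E m) K) * volume (Ioc 0 R) +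
        ∫⁻ ρ in Ioc 0 R, ∫⁻ z, ‖kk h ρ z‖ₑ ^ 2 := by
        rw [lintegral_add_left measurable_const]
        simp
    _ < ⊤ := by
        refine ENNReal.add_lt_top.2 ⟨ENNReal.mul_lt_top measure_closedBall_lt_top
          measure_Ioc_lt_top, ?_⟩
        refine (setLIntegral_le_lintegral _ _).trans_lt ((total hm hs hl hj hn).trans_lt ?_)
        exact ENNReal.mul_lt_top (by norm_num) (lt_top_iff_ne_top.2 hf)

/-- Fubini back -/
theorem back {K : ℝ} {h : E (m + 1) → ℂ} (hm : Measurable h) (hs : Sup K h)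
    (hl : ∀ F : E (m + 1) → ℝ≥0∞, Measurable F →
      ∫⁻ x, F x = ∫⁻ t : ℝ, ∫⁻ y : E m, F (jn t y))
    (hj : Continuous (fun p : ℝ × E m => jn p.1 p.2))
    (hn : ∀ (t : ℝ) (y : E m), jn t y 0 = t ∧ tl (jn t y) = y ∧ ‖jn t y‖ ^ 2 = t ^ 2 + ‖y‖ ^ 2)
    (hf : ∫⁻ ξ, ‖h ξ‖ₑ ^ 2 ≠ ⊤) (R : ℝ) {a : ℝ → ℂ} {b : E m → ℂ} (ha : Continuous a)
    (hb : Continuous b) (ha1 : ∀ r, ‖a r‖ = 1) (hb1 : ∀ z, ‖b z‖ = 1) :
    ∫ z, ∫ ρ in Ioc 0 R, kk h ρ z * b z * a ρ =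
      ∫ ρ in Ioc 0 R, (∫ z, kk h ρ z * b z) * a ρ := by
  have hi : Integrable (fun p : ℝ × E m => kk h p.1 p.2 * (b p.2 * a p.1))
      ((volume.restrict (Ioc 0 R)).prod volume) := by
    refine (kk_int hm hs hl hj hn hf R).mul_bdd (c := 1) ?_ ?_
    · exact ((hb.comp continuous_snd).mul (ha.comp continuous_fst)).aestronglyMeasurable
    · refine Eventually.of_forall fun p => ?_
      simp only [norm_mul, ha1, hb1, mul_one, le_refl]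
  have sw := integral_integral_swap (μ := volume.restrict (Ioc 0 R)) (ν := (volume : Measure (E m)))
    (f := fun ρ z => kk h ρ z * (b z * a ρ)) hi
  calc ∫ z, ∫ ρ in Ioc 0 R, kk h ρ z * b z * a ρ
      = ∫ z, ∫ ρ in Ioc 0 R, kk h ρ z * (b z * a ρ) := by simp only [mul_assoc]
    _ = ∫ ρ in Ioc 0 R, ∫ z, kk h ρ z * (b z * a ρ) := sw.symm
    _ = ∫ ρ in Ioc 0 R, (∫ z, kk h ρ z * b z) * a ρ := by
      refine integral_congr_ae (Eventually.of_forall fun ρ => ?_)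
      simp only [← mul_assoc]
      exact integral_mul_const _ _

/-- pointwise form of the substitution -/
theorem point {K : ℝ} {h : E (m + 1) → ℂ} (hs : Sup K h)
    (hn : ∀ (t : ℝ) (y : E m), jn t y 0 = t ∧ tl (jn t y) = y ∧ ‖jn t y‖ ^ 2 = t ^ 2 + ‖y‖ ^ 2)
    (R : ℝ) (a : ℝ → ℂ) (b : E m → ℂ) (z : E m) :
    ∫ t : ℝ, (Metric.closedBall (0 : E (m + 1)) R).indicator
      (fun ξ => h ξ * (a ‖ξ‖ * b (tl ξ))) (jn t z) =
    ∫ ρ in Ioc 0 R, kk h ρ z * b z * a ρ := by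
  set G : E (m + 1) → ℂ := (Metric.closedBall (0 : E (m + 1)) R).indicator
      (fun ξ => h ξ * (a ‖ξ‖ * b (tl ξ))) with hG
  have h1 : ∫ t : ℝ, G (jn t z) = ∫ t in Ioi (0 : ℝ), G (jn t z) := by
    refine (setIntegral_eq_integral_of_forall_compl_eq_zero fun t ht => ?_).symm
    by_contra hne
    have h2 : h (jn t z) ≠ 0 := by
      intro h3
      apply hne
      rw [hG]
      unfold indicator
      split_ifs
      · simp only [h3, zero_mul]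
      · rfl
    have h4 := (hs _ h2).1
    rw [(hn t z).1] at h4
    exact ht h4
  rw [h1, cv_int z, ← integral_indicator measurableSet_Ioi, ← integral_indicator measurableSet_Ioc]
  refine integral_congr_ae (Eventually.of_forall fun ρ => ?_)
  by_cases hρ : ‖z‖ < ρ
  · have hρ0 : 0 < ρ := (norm_nonneg z).trans_lt hρ
    have hk : kk h ρ z = ((ρ / fr z ρ : ℝ) : ℂ) * h (jn (fr z ρ) z) := by
      unfold kk
      rw [indicator_of_mem (show ρ ∈ Ioi ‖z‖ from hρ)]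
    show (Ioi ‖z‖).indicator _ ρ = (Ioc 0 R).indicator _ ρ
    rw [indicator_of_mem (show ρ ∈ Ioi ‖z‖ from hρ)]
    by_cases hR : ρ ≤ R
    · rw [indicator_of_mem (show ρ ∈ Ioc 0 R from ⟨hρ0, hR⟩), hG, indicator_of_mem, jn_norm hρ hn,
        (hn _ _).2.1, hk]
      · ring
      · rw [mem_closedBall_zero_iff, jn_norm hρ hn]
        exact hR
    · rw [indicator_of_notMem (show ρ ∉ Ioc 0 R from fun hh => hR hh.2), hG, indicator_of_notMem,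
        mul_zero]
      rw [mem_closedBall_zero_iff, jn_norm hρ hn]
      exact hR
  · show (Ioi ‖z‖).indicator _ ρ = (Ioc 0 R).indicator _ ρ
    rw [indicator_of_notMem (show ρ ∉ Ioi ‖z‖ from hρ)]
    have hk : kk h ρ z = 0 := by
      unfold kk
      rw [indicator_of_notMem (show ρ ∉ Ioi ‖z‖ from hρ)]
    unfold indicator
    split_ifs
    · simp only [hk, zero_mul]
    · rfl

/-- the linearised operator as an integral in the radial variable -/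
theorem forth {K : ℝ} {h : E (m + 1) → ℂ} (hm : Measurable h) (hs : Sup K h)
    (hl : ∀ F : E (m + 1) → ℝ≥0∞, Measurable F →
      ∫⁻ x, F x = ∫⁻ t : ℝ, ∫⁻ y : E m, F (jn t y))
    (hI : ∀ F : E (m + 1) → ℂ, Integrable F → ∫ x, F x = ∫ t : ℝ, ∫ y : E m, F (jn t y))
    (hj : Continuous (fun p : ℝ × E m => jn p.1 p.2)) (ht : Continuous (fun x : E (m + 1) => tl x))
    (hn : ∀ (t : ℝ) (y : E m), jn t y 0 = t ∧ tl (jn t y) = y ∧ ‖jn t y‖ ^ 2 = t ^ 2 + ‖y‖ ^ 2)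
    (hf : ∫⁻ ξ, ‖h ξ‖ₑ ^ 2 ≠ ⊤) (R : ℝ) {a : ℝ → ℂ} {b : E m → ℂ} (ha : Continuous a)
    (hb : Continuous b) (ha1 : ∀ r, ‖a r‖ = 1) (hb1 : ∀ z, ‖b z‖ = 1) :
    ∫ ξ in Metric.closedBall (0 : E (m + 1)) R, h ξ * (a ‖ξ‖ * b (tl ξ)) =
      ∫ ρ in Ioc 0 R, (∫ z, kk h ρ z * b z) * a ρ := by
  have hc : Continuous (fun ξ : E (m + 1) => a ‖ξ‖ * b (tl ξ)) :=
    (ha.comp continuous_norm).mul (hb.comp ht)
  have hGm : Measurable ((Metric.closedBall (0 : E (m + 1)) R).indicator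
      (fun ξ => h ξ * (a ‖ξ‖ * b (tl ξ)))) :=
    (hm.mul hc.measurable).indicator measurableSet_closedBall
  have hGi : Integrable ((Metric.closedBall (0 : E (m + 1)) R).indicator
      (fun ξ => h ξ * (a ‖ξ‖ * b (tl ξ)))) := by
    rw [integrable_indicator_iff measurableSet_closedBall]
    refine (h_int hm hf R).mul_bdd (c := 1) hc.aestronglyMeasurable ?_
    refine Eventually.of_forall fun ξ => ?_
    simp only [norm_mul, ha1, hb1, mul_one, le_refl]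
  have hGi2 : Integrable (fun p : ℝ × E m => (Metric.closedBall (0 : E (m + 1)) R).indicator
      (fun ξ => h ξ * (a ‖ξ‖ * b (tl ξ))) (jn p.1 p.2)) (volume.prod volume) := by
    have hcm : Measurable (fun p : ℝ × E m => (Metric.closedBall (0 : E (m + 1)) R).indicator
      (fun ξ => h ξ * (a ‖ξ‖ * b (tl ξ))) (jn p.1 p.2)) := hGm.comp hj.measurable
    refine ⟨hcm.aestronglyMeasurable, ?_⟩
    rw [hasFiniteIntegral_iff_enorm, lintegral_prod _ hcm.enorm.aemeasurable]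
    have h1 := hl _ hGm.enorm
    have h2 := hGi.2
    rw [hasFiniteIntegral_iff_enorm, h1] at h2
    exact h2
  rw [← integral_indicator measurableSet_closedBall, hI _ hGi]
  calc ∫ t : ℝ, ∫ y : E m, (Metric.closedBall (0 : E (m + 1)) R).indicator
        (fun ξ => h ξ * (a ‖ξ‖ * b (tl ξ))) (jn t y)
      = ∫ y : E m, ∫ t : ℝ, (Metric.closedBall (0 : E (m + 1)) R).indicator
        (fun ξ => h ξ * (a ‖ξ‖ * b (tl ξ))) (jn t y) :=
        integral_integral_swap (f := fun t y => (Metric.closedBall (0 : E (m + 1)) R).indicator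
          (fun ξ => h ξ * (a ‖ξ‖ * b (tl ξ))) (jn t y)) hGi2
    _ = ∫ y : E m, ∫ ρ in Ioc 0 R, kk h ρ y * b y * a ρ := by
        simp only [point hs hn R a b]
    _ = _ := back hm hs hl hj hn hf R ha hb ha1 hb1

theorem Op_eq {K : ℝ} {h : E (m + 1) → ℂ} (hm : Measurable h) (hs : Sup K h)
    (hl : ∀ F : E (m + 1) → ℝ≥0∞, Measurable F →
      ∫⁻ x, F x = ∫⁻ t : ℝ, ∫⁻ y : E m, F (jn t y))
    (hI : ∀ F : E (m + 1) → ℂ, Integrable F → ∫ x, F x = ∫ t : ℝ, ∫ y : E m, F (jn t y))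
    (hj : Continuous (fun p : ℝ × E m => jn p.1 p.2)) (ht : Continuous (fun x : E (m + 1) => tl x))
    (hn : ∀ (t : ℝ) (y : E m), jn t y 0 = t ∧ tl (jn t y) = y ∧ ‖jn t y‖ ^ 2 = t ^ 2 + ‖y‖ ^ 2)
    (hf : ∫⁻ ξ, ‖h ξ‖ₑ ^ 2 ≠ ⊤) (R : ℝ) (t : ℝ) (y : E m) :
    Op h R (jn t y) = ∫ r in Ioc 0 R, HH h r y * e1 (1 * (r * t)) := by
  have h1 := forth (R := R) hm hs hl hI hj ht hn hf (a := fun r => e1 (t * r))
    (b := fun z => ex y z) (e1_continuous.comp (continuous_const.mul continuous_id))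
    (ex_cont.comp (continuous_const.prodMk continuous_id)) (fun r => e1_norm _)
    (fun z => ex_norm _ _)
  unfold Op
  rw [(hn t y).1, (hn t y).2.1]
  rw [h1]
  refine integral_congr_ae (Eventually.of_forall fun r => ?_)
  show (∫ z, kk h r z * ex y z) * e1 (t * r) = HH h r y * e1 (1 * (r * t))
  rw [one_mul, mul_comm r t]
  rfl

/-- Plancherel for fixed radial variable -/
theorem planch {K : ℝ} {h : E (m + 1) → ℂ} (hm : Measurable h) (hs : Sup K h)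
    (hj : Continuous (fun p : ℝ × E m => jn p.1 p.2))
    (hn : ∀ (t : ℝ) (y : E m), jn t y 0 = t ∧ tl (jn t y) = y ∧ ‖jn t y‖ ^ 2 = t ^ 2 + ‖y‖ ^ 2)
    (r : ℝ) : ∫⁻ y, ‖HH h r y‖ₑ ^ 2 ≤ ∫⁻ z, ‖kk h r z‖ₑ ^ 2 := by
  have hkm : Measurable (kk h r) := by
    have := (kk_meas hm hj).comp (measurable_const (a := r) |>.prodMk measurable_id)
    exact this
  by_cases htop : ∫⁻ z, ‖kk h r z‖ₑ ^ 2 = ⊤
  · rw [htop]; exact le_top
  · have h1 : ∀ z : E m, ‖kk h r z‖ₑ ≤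
        (Metric.closedBall (0 : E m) K).indicator 1 z + ‖kk h r z‖ₑ ^ 2 := by
      intro z
      by_cases hk : kk h r z = 0
      · rw [hk]; simp
      · obtain ⟨-, h2, -⟩ := kk_supp hs hn hk
        rw [indicator_of_mem (by simpa using h2)]
        exact en_le _
    have hi : Integrable (kk h r) := by
      refine ⟨hkm.aestronglyMeasurable, ?_⟩
      rw [hasFiniteIntegral_iff_enorm]
      calc ∫⁻ z, ‖kk h r z‖ₑ
          ≤ ∫⁻ z, ((Metric.closedBall (0 : E m) K).indicator 1 z + ‖kk h r z‖ₑ ^ 2) :=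
            lintegral_mono h1
        _ = volume (Metric.closedBall (0 : E m) K) + ∫⁻ z, ‖kk h r z‖ₑ ^ 2 := by
          rw [lintegral_add_left (measurable_one.indicator measurableSet_closedBall),
            lintegral_indicator_one measurableSet_closedBall]
        _ < ⊤ := ENNReal.add_lt_top.2 ⟨measure_closedBall_lt_top, lt_top_iff_ne_top.2 htop⟩
    have h2 : MemLp (kk h r) 2 := by
      refine ⟨hkm.aestronglyMeasurable, ?_⟩
      rw [eLpNorm_lt_top_iff_lintegral_rpow_enorm_lt_top (by norm_num) (by norm_num)]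
      simpa using lt_top_iff_ne_top.2 htop
    exact (plancherelIN hi h2).le

end FL0_

open FL0_ in
/-- **FL0** -/
theorem p_FL0 (h1 : T_FSP) (h2 : T_RAYN) : T_FL0 := by
  intro hC0 m
  obtain ⟨C, hC⟩ := h2 hC0
  obtain ⟨hl, hI, hj, ht, hn, hx⟩ := h1 m
  refine ⟨C * 2 + 1, fun K h hK hm hs => ?_⟩
  by_cases hf : ∫⁻ ξ, ‖h ξ‖ₑ ^ 2 = ⊤
  · rw [hf, ENNReal.mul_top (by simp)]
    exact le_top
  obtain ⟨g, hgm, hgle, hgeq⟩ := exists_measurable_le_lintegral_eq volume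
    (fun x : E (m + 1) => (⨆ (R : ℝ) (_ : 0 < R), ‖Op h R x‖ₑ) ^ 2)
  rw [hgeq, hl g hgm]
  have hgj : Measurable (fun p : ℝ × E m => g (jn p.1 p.2)) := hgm.comp hj.measurable
  have sw : ∫⁻ t : ℝ, ∫⁻ y : E m, g (jn t y) = ∫⁻ y : E m, ∫⁻ t : ℝ, g (jn t y) :=
    lintegral_lintegral_swap hgj.aemeasurable
  have hHm := HH_meas hm hj
  have sw2 : ∫⁻ r : ℝ, ∫⁻ y : E m, ‖HH h r y‖ₑ ^ 2 = ∫⁻ y : E m, ∫⁻ r : ℝ, ‖HH h r y‖ₑ ^ 2 :=
    lintegral_lintegral_swap (hHm.enorm.pow_const 2).aemeasurable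
  have step : ∀ y : E m, ∫⁻ t : ℝ, g (jn t y) ≤ C * ∫⁻ r : ℝ, ‖HH h r y‖ₑ ^ 2 := by
    intro y
    have hBm : Measurable (fun r => HH h r y) := by
      have := hHm.comp (measurable_id.prodMk (measurable_const (a := y)))
      exact this
    calc ∫⁻ t : ℝ, g (jn t y)
        ≤ ∫⁻ t : ℝ, (⨆ R : ℝ, ‖∫ r in Ioc 0 R, HH h r y * e1 (1 * (r * t))‖ₑ) ^ 2 := by
          refine lintegral_mono fun t => (hgle (jn t y)).trans ?_
          show (⨆ (R : ℝ) (_ : 0 < R), ‖Op h R (jn t y)‖ₑ) ^ 2 ≤ _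
          refine pow_le_pow_left' (iSup_mono fun R => iSup_le fun _ => ?_) 2
          rw [Op_eq hm hs hl hI hj ht hn hf R t y]
      _ ≤ C * ∫⁻ r in Ioi (0 : ℝ), ‖HH h r y‖ₑ ^ 2 := hC _ 0 1 hBm (Or.inl rfl)
      _ ≤ C * ∫⁻ r : ℝ, ‖HH h r y‖ₑ ^ 2 := by
          gcongr
          exact Measure.restrict_le_self
  calc ∫⁻ t : ℝ, ∫⁻ y : E m, g (jn t y) = ∫⁻ y : E m, ∫⁻ t : ℝ, g (jn t y) := sw
    _ ≤ ∫⁻ y : E m, C * ∫⁻ r : ℝ, ‖HH h r y‖ₑ ^ 2 := lintegral_mono step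
    _ = C * ∫⁻ y : E m, ∫⁻ r : ℝ, ‖HH h r y‖ₑ ^ 2 := lintegral_const_mul' _ _ (by simp)
    _ = C * ∫⁻ r : ℝ, ∫⁻ y : E m, ‖HH h r y‖ₑ ^ 2 := by rw [sw2]
    _ ≤ C * ∫⁻ r : ℝ, ∫⁻ z : E m, ‖kk h r z‖ₑ ^ 2 :=
        mul_le_mul_right (lintegral_mono fun r => planch hm hs hj hn r) _
    _ ≤ C * (2 * ∫⁻ ξ, ‖h ξ‖ₑ ^ 2) := by
        gcongr
        exact total hm hs hl hj hn
    _ = (C * 2 : ℝ≥0∞) * ∫⁻ ξ, ‖h ξ‖ₑ ^ 2 := by rw [mul_assoc]
    _ ≤ ((C * 2 + 1 : ℝ≥0) : ℝ≥0∞) * ∫⁻ ξ, ‖h ξ‖ₑ ^ 2 := by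
        gcongr
        push_cast
        exact le_self_add

end Pool.Agent.CRF
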