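import Pool.Agent.CRF.Targets
import Pool.Agent.MBS.J1

set_option autoImplicit false

/-!
# CRF: large frequencies near a line (target FL1)
-/

namespace Pool.Agent.CRF

open MeasureTheory FourierTransform Set Filter Topology
open scoped ENNReal NNReal
open Pool.Agent.MBS (E ex S Sstar)
open Pool.Agent.CAR (e1)
open Pool.Agent.CRN (IN T_CARLS T_RAYN T_AHN Nice)

namespace FL1_

variable {m : ℕ}

theorem norm_e1 (x : ℝ) : ‖e1 x‖ = 1 := by
  have h : (2 * Real.pi * Complex.I * (x : ℂ)) = ((2 * Real.pi * x : ℝ) : ℂ) * Complex.I := by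
    push_cast
    ring
  rw [e1, h, Complex.norm_exp_ofReal_mul_I]

theorem e1_add (x y : ℝ) : e1 (x + y) = e1 x * e1 y := by
  unfold e1
  rw [← Complex.exp_add]
  congr 1
  push_cast
  ring

theorem e1_cont : Continuous e1 := by unfold e1; fun_prop

theorem sq_add (a b : ℝ≥0∞) : (a + b) ^ 2 ≤ 4 * a ^ 2 + 4 * b ^ 2 := by
  rcases le_total a b with h | h
  · calc (a + b) ^ 2 ≤ (b + b) ^ 2 := pow_le_pow_left' (add_le_add_left h b) 2
      _ = 4 * b ^ 2 := by ring
      _ ≤ _ := le_add_self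
  · calc (a + b) ^ 2 ≤ (a + a) ^ 2 := pow_le_pow_left' (add_le_add_right h a) 2
      _ = 4 * a ^ 2 := by ring
      _ ≤ _ := le_self_add

theorem cs {F : ℝ → ℝ≥0∞} (hF : Measurable F) (a : ℝ) :
    (∫⁻ s in Icc (a - 1) (a + 1), F s) ^ 2 ≤ 2 * ∫⁻ s in Icc (a - 1) (a + 1), F s ^ 2 := by
  have h := ENNReal.lintegral_mul_le_Lp_mul_Lq (volume.restrict (Icc (a - 1) (a + 1)))
    Real.HolderConjugate.two_two (f := F) (g := fun _ => 1) hF.aemeasurable
    measurable_const.aemeasurable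
  have h2 := pow_le_pow_left' h 2
  have hs : ∀ X : ℝ≥0∞, (X ^ (1 / (2 : ℝ))) ^ 2 = X := fun X => by
    rw [← ENNReal.rpow_natCast, ← ENNReal.rpow_mul]
    norm_num
  rw [mul_pow, hs, hs] at h2
  have h3 : ∫⁻ _ : ℝ in Icc (a - 1) (a + 1), (1 : ℝ≥0∞) ^ (2 : ℝ) = 2 := by
    simp only [ENNReal.one_rpow, lintegral_const, one_mul, Measure.restrict_apply_univ,
      Real.volume_Icc]
    rw [show a + 1 - (a - 1) = (2 : ℝ) by ring]
    norm_num
  simp only [Pi.mul_apply, mul_one] at h2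
  rw [h3, mul_comm] at h2
  simpa using h2

theorem memLp {u : E m → ℂ} (hu : Measurable u) (h : ∫⁻ x, ‖u x‖ₑ ^ 2 ≠ ⊤) : MemLp u 2 := by
  rw [memLp_two_iff_integrable_sq_norm hu.aestronglyMeasurable]
  refine ⟨(hu.norm.pow_const 2).aestronglyMeasurable, ?_⟩
  rw [hasFiniteIntegral_iff_enorm]
  refine lt_of_le_of_lt (le_of_eq ?_) (lt_top_iff_ne_top.2 h)
  refine lintegral_congr fun x => ?_
  rw [← ofReal_norm, ← ofReal_norm, ← ENNReal.ofReal_pow (norm_nonneg _), Real.norm_eq_abs,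
    abs_of_nonneg (sq_nonneg _)]

theorem intOn {u : E m → ℂ} (hu : Measurable u) (h : ∫⁻ x, ‖u x‖ₑ ^ 2 ≠ ⊤) (R : ℝ) :
    IntegrableOn u (Metric.closedBall 0 R) := by
  have : IsFiniteMeasure (volume.restrict (Metric.closedBall (0 : E m) R)) :=
    ⟨by rw [Measure.restrict_apply_univ]; exact measure_closedBall_lt_top⟩
  exact (memLp hu h).restrict _ |>.integrable (by norm_num)

theorem ex_meas (x : E m) : Measurable (fun ξ : E m => ex x ξ) :=
  (Pool.Agent.MBS.ex_continuous.comp (Continuous.prodMk_right x)).measurable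

theorem intEx {g : E m → ℂ} {s : Set (E m)} (h : IntegrableOn g s) (x : E m) :
    IntegrableOn (fun ξ => g ξ * ex x ξ) s := by
  refine Integrable.mono h (h.1.mul (ex_meas x).aestronglyMeasurable) (ae_of_all _ fun ξ => ?_)
  rw [norm_mul, Pool.Agent.MBS.ex_norm, mul_one]

theorem Mx_meas {g : E m → ℂ} (hg : ∀ R, IntegrableOn g (Metric.closedBall 0 R)) :
    Measurable (Mx g) := by
  refine LowerSemicontinuous.measurable ?_
  refine lowerSemicontinuous_iSup fun R => lowerSemicontinuous_iSup fun _ => ?_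
  refine (Continuous.enorm ?_).lowerSemicontinuous
  refine continuous_of_dominated (bound := fun ξ => ‖g ξ‖)
    (fun x => (intEx (hg R) x).1) (fun x => ae_of_all _ fun ξ => ?_) (hg R).norm
    (ae_of_all _ fun ξ => ?_)
  · rw [norm_mul, Pool.Agent.MBS.ex_norm, mul_one]
  · exact continuous_const.mul (Pool.Agent.MBS.ex_continuous.comp (Continuous.prodMk_left ξ))

/-- `|ξ| - ξ 0` -/
noncomputable def eta (ξ : E (m + 1)) : ℝ := ‖ξ‖ - ξ 0

theorem eta_cont : Continuous (eta : E (m + 1) → ℝ) := by unfold eta; fun_prop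

/-- the modulated function -/
noncomputable def P (u : E (m + 1) → ℂ) (s : ℝ) (ξ : E (m + 1)) : ℂ := u ξ * e1 (-(s * eta ξ))

theorem P_norm (u : E (m + 1) → ℂ) (s : ℝ) (ξ : E (m + 1)) : ‖P u s ξ‖ = ‖u ξ‖ := by
  rw [P, norm_mul, norm_e1, mul_one]

theorem P_enorm (u : E (m + 1) → ℂ) (s : ℝ) (ξ : E (m + 1)) : ‖P u s ξ‖ₑ = ‖u ξ‖ₑ := by
  rw [← ofReal_norm, P_norm, ofReal_norm]

theorem P_meas {u : E (m + 1) → ℂ} (hu : Measurable u) (s : ℝ) : Measurable (P u s) := by
  unfold P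
  exact hu.mul (e1_cont.comp (by have := eta_cont (m := m); fun_prop)).measurable

/-- the kernel of `Op` -/
noncomputable def kr (x ξ : E (m + 1)) : ℂ := e1 (x 0 * ‖ξ‖) * ex (tl x) (tl ξ)

theorem kr_norm (x ξ : E (m + 1)) : ‖kr x ξ‖ = 1 := by
  rw [kr, norm_mul, norm_e1, Pool.Agent.MBS.ex_norm, mul_one]

theorem kr_cont (ht : Continuous fun x : E (m + 1) => tl x) :
    Continuous (fun p : E (m + 1) × E (m + 1) => kr p.1 p.2) := by
  unfold kr
  refine Continuous.mul (e1_cont.comp (by fun_prop)) ?_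
  exact Pool.Agent.MBS.ex_continuous.comp
    ((ht.comp continuous_fst).prodMk (ht.comp continuous_snd))

theorem P_cont (ξ : E (m + 1)) (u : E (m + 1) → ℂ) : Continuous (fun s => P u s ξ) := by
  unfold P
  exact continuous_const.mul (e1_cont.comp (by fun_prop))

theorem Op_cont (ht : Continuous fun x : E (m + 1) => tl x) {u : E (m + 1) → ℂ}
    (hu : Measurable u) (hi : ∀ R, IntegrableOn u (Metric.closedBall 0 R)) (R : ℝ) :
    Continuous (fun p : ℝ × E (m + 1) => Op (P u p.1) R p.2) := by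
  unfold Op
  refine continuous_of_dominated (bound := fun ξ => ‖u ξ‖) (fun p => ?_)
    (fun p => ae_of_all _ fun ξ => ?_) (hi R).norm (ae_of_all _ fun ξ => ?_)
  · refine ((P_meas hu p.1).mul ?_).aestronglyMeasurable
    exact ((kr_cont ht).comp (Continuous.prodMk_right p.2)).measurable
  · have := kr_norm p.2 ξ
    rw [kr] at this
    rw [norm_mul, this, mul_one, P_norm]
  · refine ((P_cont ξ u).comp continuous_fst).mul ?_
    exact ((kr_cont ht).comp (Continuous.prodMk_left ξ)).comp continuous_snd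

/-- the maximal function of `Op (P u s)` -/
noncomputable def B (u : E (m + 1) → ℂ) (s : ℝ) (x : E (m + 1)) : ℝ≥0∞ :=
  ⨆ (R : ℝ) (_ : 0 < R), ‖Op (P u s) R x‖ₑ

theorem B_meas (ht : Continuous fun x : E (m + 1) => tl x) {u : E (m + 1) → ℂ}
    (hu : Measurable u) (hi : ∀ R, IntegrableOn u (Metric.closedBall 0 R)) :
    Measurable (fun p : ℝ × E (m + 1) => B u p.1 p.2) := by
  refine LowerSemicontinuous.measurable ?_
  refine lowerSemicontinuous_iSup fun R => lowerSemicontinuous_iSup fun _ => ?_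
  exact (Op_cont ht hu hi R).enorm.lowerSemicontinuous

theorem B_meas_right (ht : Continuous fun x : E (m + 1) => tl x) {u : E (m + 1) → ℂ}
    (hu : Measurable u) (hi : ∀ R, IntegrableOn u (Metric.closedBall 0 R)) (s : ℝ) :
    Measurable (fun x => B u s x) := by
  refine LowerSemicontinuous.measurable ?_
  refine lowerSemicontinuous_iSup fun R => lowerSemicontinuous_iSup fun _ => ?_
  exact ((Op_cont ht hu hi R).comp (Continuous.prodMk_right s)).enorm.lowerSemicontinuous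

theorem B_meas_left (ht : Continuous fun x : E (m + 1) => tl x) {u : E (m + 1) → ℂ}
    (hu : Measurable u) (hi : ∀ R, IntegrableOn u (Metric.closedBall 0 R)) (x : E (m + 1)) :
    Measurable (fun s => B u s x) := by
  refine LowerSemicontinuous.measurable ?_
  refine lowerSemicontinuous_iSup fun R => lowerSemicontinuous_iSup fun _ => ?_
  exact ((Op_cont ht hu hi R).comp (Continuous.prodMk_left x)).enorm.lowerSemicontinuous

theorem B_meas_swap (ht : Continuous fun x : E (m + 1) => tl x) {u : E (m + 1) → ℂ}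
    (hu : Measurable u) (hi : ∀ R, IntegrableOn u (Metric.closedBall 0 R)) :
    Measurable (fun p : E (m + 1) × ℝ => B u p.2 p.1 ^ 2) := by
  refine Measurable.pow_const ?_ 2
  refine LowerSemicontinuous.measurable ?_
  refine lowerSemicontinuous_iSup fun R => lowerSemicontinuous_iSup fun _ => ?_
  exact ((Op_cont ht hu hi R).comp
    (continuous_snd.prodMk continuous_fst)).enorm.lowerSemicontinuous

theorem e1_ftc (a t η : ℝ) : e1 (-(t * η)) =
    e1 (-(a * η)) - 2 * Real.pi * Complex.I * ∫ s in a..t, (η : ℂ) * e1 (-(s * η)) := by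
  have hd : ∀ s : ℝ, HasDerivAt (fun s : ℝ => e1 (-(s * η)))
      (-(2 * Real.pi * Complex.I) * ((η : ℂ) * e1 (-(s * η)))) s := by
    intro s
    have h1 : HasDerivAt (fun s : ℝ => 2 * Real.pi * Complex.I * (((-(s * η) : ℝ)) : ℂ))
        (2 * Real.pi * Complex.I * ((-(1 * η) : ℝ) : ℂ)) s :=
      (((hasDerivAt_id s).mul_const η).neg.ofReal_comp).const_mul _
    have h2 := h1.cexp
    unfold e1
    refine h2.congr_deriv ?_
    push_cast
    ring
  have h3 := intervalIntegral.integral_eq_sub_of_hasDerivAt (a := a) (b := t)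
    (fun s _ => hd s) (Continuous.intervalIntegrable (by
      have := e1_cont
      fun_prop) _ _)
  rw [intervalIntegral.integral_const_mul] at h3
  linear_combination -h3

/-- the pointwise bound -/
theorem pointwise (hf : T_FSP) {g : E (m + 1) → ℂ} (hg : Measurable g)
    (hgi : ∀ R, IntegrableOn g (Metric.closedBall 0 R))
    (hη : ∀ ξ, g ξ ≠ 0 → |eta ξ| ≤ 1) (a : ℝ) (x : E (m + 1)) (hx : |x 0 - a| ≤ 1) :
    Mx g x ≤ B g a x + 8 * ∫⁻ s in Icc (a - 1) (a + 1), B (fun ξ => g ξ * (eta ξ : ℂ)) s x := by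
  obtain ⟨-, -, -, ht, -, hex⟩ := hf m
  have ht' : Continuous fun x : E (m + 1) => tl x := ht
  set v : E (m + 1) → ℂ := fun ξ => g ξ * (eta ξ : ℂ) with hv
  have hvm : Measurable v := hg.mul (Complex.measurable_ofReal.comp eta_cont.measurable)
  have hvn : ∀ ξ, ‖v ξ‖ ≤ ‖g ξ‖ := by
    intro ξ
    by_cases h0 : g ξ = 0
    · simp [hv, h0]
    · rw [hv]
      simp only [norm_mul, Complex.norm_real, Real.norm_eq_abs]
      exact mul_le_of_le_one_right (norm_nonneg _) (hη ξ h0)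
  refine iSup₂_le fun R hR => ?_
  have hkm : Measurable (fun ξ : E (m + 1) => kr x ξ) :=
    ((kr_cont ht').comp (Continuous.prodMk_right x)).measurable
  -- Fubini
  have hint : Integrable (fun p : ℝ × E (m + 1) => P v p.1 p.2 * kr x p.2)
      ((volume.restrict (Icc (a - 1) (a + 1))).prod
        (volume.restrict (Metric.closedBall (0 : E (m + 1)) R))) := by
    have hfin : IsFiniteMeasure (volume.restrict (Icc (a - 1) (a + 1))) :=
      ⟨by rw [Measure.restrict_apply_univ]; exact measure_Icc_lt_top⟩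
    have h1 : Integrable (fun p : ℝ × E (m + 1) => (1 : ℂ) * g p.2)
        ((volume.restrict (Icc (a - 1) (a + 1))).prod
          (volume.restrict (Metric.closedBall (0 : E (m + 1)) R))) :=
      Integrable.mul_prod (integrable_const (1 : ℂ)) (hgi R)
    refine h1.mono ?_ (ae_of_all _ fun p => ?_)
    · refine (Measurable.mul ?_ (hkm.comp measurable_snd)).aestronglyMeasurable
      unfold P
      refine (hvm.comp measurable_snd).mul ?_
      have := eta_cont (m := m)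
      exact (e1_cont.comp (by fun_prop)).measurable
    · rw [norm_mul, kr_norm, mul_one, P_norm, one_mul]
      exact hvn _
  have hsub : uIoc a (x 0) ⊆ Icc (a - 1) (a + 1) := by
    intro s hs
    rw [abs_le] at hx
    rcases mem_uIoc.1 hs with h | h
    · exact ⟨by linarith [h.1], by linarith [h.2, hx.2]⟩
    · exact ⟨by linarith [h.1, hx.1], by linarith [h.2]⟩
  have hkey : ∫ ξ in Metric.closedBall (0 : E (m + 1)) R, g ξ * ex x ξ =
      Op (P g a) R x - 2 * Real.pi * Complex.I * ∫ s in a..(x 0), Op (P v s) R x := by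
    have h1 : ∀ ξ, g ξ * ex x ξ = P g a ξ * kr x ξ -
        2 * Real.pi * Complex.I * ∫ s in a..(x 0), P v s ξ * kr x ξ := by
      intro ξ
      have h2 := (hex x ξ).2.1
      have h3 : x 0 * ξ 0 = x 0 * ‖ξ‖ + -(x 0 * eta ξ) := by unfold eta; ring
      rw [h2, h3, e1_add, e1_ftc a (x 0) (eta ξ), intervalIntegral.integral_mul_const]
      have h4 : ∫ s in a..(x 0), P v s ξ =
          g ξ * ∫ s in a..(x 0), (eta ξ : ℂ) * e1 (-(s * eta ξ)) := by
        rw [← intervalIntegral.integral_const_mul]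
        refine intervalIntegral.integral_congr fun s _ => ?_
        simp only [P, hv]
        ring
      rw [h4, P, kr]
      ring
    have hint2 : Integrable (fun ξ => ∫ s in a..(x 0), P v s ξ * kr x ξ)
        (volume.restrict (Metric.closedBall (0 : E (m + 1)) R)) := by
      have h5 := (hint.mono_measure (Measure.prod_mono (Measure.restrict_mono hsub le_rfl)
        le_rfl)).integral_prod_right
      rcases le_total a (x 0) with h | h
      · rw [uIoc_of_le h] at h5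
        refine h5.congr (ae_of_all _ fun ξ => ?_)
        simp only [intervalIntegral.integral_of_le h]
      · rw [uIoc_of_ge h] at h5
        refine h5.neg.congr (ae_of_all _ fun ξ => ?_)
        simp only [intervalIntegral.integral_of_ge h, Pi.neg_apply]
    have hint1 : Integrable (fun ξ => P g a ξ * kr x ξ)
        (volume.restrict (Metric.closedBall (0 : E (m + 1)) R)) := by
      refine Integrable.mono (hgi R) ((P_meas hg a).mul hkm).aestronglyMeasurable
        (ae_of_all _ fun ξ => ?_)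
      rw [norm_mul, kr_norm, mul_one, P_norm]
    calc ∫ ξ in Metric.closedBall (0 : E (m + 1)) R, g ξ * ex x ξ
        = ∫ ξ in Metric.closedBall (0 : E (m + 1)) R, (P g a ξ * kr x ξ -
            2 * Real.pi * Complex.I * ∫ s in a..(x 0), P v s ξ * kr x ξ) :=
          integral_congr_ae (ae_of_all _ h1)
      _ = (∫ ξ in Metric.closedBall (0 : E (m + 1)) R, P g a ξ * kr x ξ) -
            2 * Real.pi * Complex.I * ∫ ξ in Metric.closedBall (0 : E (m + 1)) R,
              ∫ s in a..(x 0), P v s ξ * kr x ξ := by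
          rw [integral_sub hint1 (hint2.const_mul _), integral_const_mul]
      _ = _ := by
          congr 2
          have h5 := hint.mono_measure
            (Measure.prod_mono (Measure.restrict_mono hsub le_rfl) le_rfl)
          rcases le_total a (x 0) with h | h
          · rw [uIoc_of_le h] at h5
            simp only [intervalIntegral.integral_of_le h]
            rw [← integral_integral_swap (f := fun s ξ => P v s ξ * kr x ξ) h5]
            rfl
          · rw [uIoc_of_ge h] at h5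
            simp only [intervalIntegral.integral_of_ge h, integral_neg]
            rw [← integral_integral_swap (f := fun s ξ => P v s ξ * kr x ξ) h5]
            rfl
  rw [hkey]
  have hc : ‖(2 * Real.pi * Complex.I : ℂ)‖ₑ ≤ 8 := by
    rw [← ofReal_norm]
    have : ‖(2 * Real.pi * Complex.I : ℂ)‖ = 2 * Real.pi := by
      rw [norm_mul, Complex.norm_I, mul_one, norm_mul, Complex.norm_real]
      simp [abs_of_pos Real.pi_pos]
    rw [this]
    have h8 : ENNReal.ofReal (2 * Real.pi) ≤ ENNReal.ofReal 8 :=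
      ENNReal.ofReal_le_ofReal (by linarith [Real.pi_lt_four])
    refine h8.trans (le_of_eq ?_)
    norm_num
  calc ‖Op (P g a) R x - 2 * Real.pi * Complex.I * ∫ s in a..(x 0), Op (P v s) R x‖ₑ
      ≤ ‖Op (P g a) R x‖ₑ + ‖2 * Real.pi * Complex.I * ∫ s in a..(x 0), Op (P v s) R x‖ₑ :=
        enorm_sub_le
    _ ≤ B g a x + 8 * ∫⁻ s in Icc (a - 1) (a + 1), B v s x := by
        refine add_le_add ?_ ?_
        · exact le_iSup₂_of_le (f := fun (R : ℝ) (_ : 0 < R) => ‖Op (P g a) R x‖ₑ) R hR le_rfl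
        · rw [enorm_mul]
          refine mul_le_mul' hc ?_
          have h9 : ‖∫ s in a..(x 0), Op (P v s) R x‖ₑ ≤
              ∫⁻ s in uIoc a (x 0), ‖Op (P v s) R x‖ₑ := by
            have h10 : ‖∫ s in a..(x 0), Op (P v s) R x‖ₑ =
                ‖∫ s in uIoc a (x 0), Op (P v s) R x‖ₑ := by
              rw [← ofReal_norm, ← ofReal_norm, intervalIntegral.norm_intervalIntegral_eq]
            rw [h10]
            exact enorm_integral_le_lintegral_enorm _
          refine h9.trans ((lintegral_mono_set hsub).trans (lintegral_mono fun s => ?_))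
          exact le_iSup₂_of_le (f := fun (R : ℝ) (_ : 0 < R) => ‖Op (P v s) R x‖ₑ) R hR le_rfl

theorem pos (hf : T_FSP) {C : ℝ≥0} (hC : ∀ (K : ℝ) (h : E (m + 1) → ℂ), 1 ≤ K →
    Measurable h → (∀ ξ, h ξ ≠ 0 → 0 < ξ 0 ∧ ‖tl ξ‖ ≤ K ∧ 2 * K ≤ ‖ξ‖) →
      ∫⁻ x, (⨆ (R : ℝ) (_ : 0 < R), ‖Op h R x‖ₑ) ^ 2 ≤ C * ∫⁻ ξ, ‖h ξ‖ₑ ^ 2)
    {K : ℝ} {g : E (m + 1) → ℂ} (x0 : E (m + 1)) (hK : 1 ≤ K) (hg : Measurable g)
    (hs : ∀ ξ, g ξ ≠ 0 → 0 < ξ 0 ∧ ‖tl ξ‖ ≤ K ∧ 2 * K ^ 2 ≤ ‖ξ‖)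
    (hfin : ∫⁻ ξ, ‖g ξ‖ₑ ^ 2 ≠ ⊤) :
    ∫⁻ x in Metric.closedBall x0 1, Mx g x ^ 2 ≤ 1028 * C * ∫⁻ ξ, ‖g ξ‖ₑ ^ 2 := by
  obtain ⟨-, -, -, ht, -, hex⟩ := hf m
  have ht' : Continuous fun x : E (m + 1) => tl x := ht
  have hK2 : K ≤ K ^ 2 := by nlinarith
  have hη : ∀ ξ, g ξ ≠ 0 → |eta ξ| ≤ 1 := by
    intro ξ hξ
    obtain ⟨h1, h2, h3⟩ := hs ξ hξ
    have h4 := (hex ξ ξ).2.2
    have h5 : 0 ≤ eta ξ := by
      unfold eta
      have : ξ 0 ≤ ‖ξ‖ := abs_le_of_sq_le_sq' (by nlinarith [sq_nonneg ‖tl ξ‖])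
        (norm_nonneg ξ) |>.2
      linarith
    rw [abs_of_nonneg h5]
    have h6 : eta ξ * (‖ξ‖ + ξ 0) = ‖tl ξ‖ ^ 2 := by unfold eta; nlinarith
    have h7 : ‖tl ξ‖ ^ 2 ≤ K ^ 2 := pow_le_pow_left₀ (norm_nonneg _) h2 2
    have h8 : eta ξ * (2 * K ^ 2) ≤ eta ξ * (‖ξ‖ + ξ 0) :=
      mul_le_mul_of_nonneg_left (by linarith) h5
    have h9 : 0 < K ^ 2 := by positivity
    by_contra hc
    push Not at hc
    nlinarith
  have hgi := intOn hg hfin
  set v : E (m + 1) → ℂ := fun ξ => g ξ * (eta ξ : ℂ) with hv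
  have hvm : Measurable v := hg.mul (Complex.measurable_ofReal.comp eta_cont.measurable)
  have hvn : ∀ ξ, ‖v ξ‖ₑ ≤ ‖g ξ‖ₑ := by
    intro ξ
    by_cases h0 : g ξ = 0
    · simp [hv, h0]
    · rw [hv, ← ofReal_norm, ← ofReal_norm]
      refine ENNReal.ofReal_le_ofReal ?_
      simp only [norm_mul, Complex.norm_real, Real.norm_eq_abs]
      exact mul_le_of_le_one_right (norm_nonneg _) (hη ξ h0)
  have hv2 : ∫⁻ ξ, ‖v ξ‖ₑ ^ 2 ≤ ∫⁻ ξ, ‖g ξ‖ₑ ^ 2 :=
    lintegral_mono fun ξ => pow_le_pow_left' (hvn ξ) 2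
  have hvi := intOn hvm (ne_top_of_le_ne_top hfin hv2)
  set a : ℝ := x0 0 with ha
  have hA : ∫⁻ x, B g a x ^ 2 ≤ C * ∫⁻ ξ, ‖g ξ‖ₑ ^ 2 := by
    refine (hC K (P g a) hK (P_meas hg a) fun ξ hξ => ?_).trans (le_of_eq ?_)
    · obtain ⟨h1, h2, h3⟩ := hs ξ (left_ne_zero_of_mul hξ)
      exact ⟨h1, h2, by linarith⟩
    · simp only [P_enorm]
  have hBs : ∀ s, ∫⁻ x, B v s x ^ 2 ≤ C * ∫⁻ ξ, ‖g ξ‖ₑ ^ 2 := by
    intro s
    refine (hC K (P v s) hK (P_meas hvm s) fun ξ hξ => ?_).trans ?_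
    · obtain ⟨h1, h2, h3⟩ := hs ξ (left_ne_zero_of_mul (left_ne_zero_of_mul hξ))
      exact ⟨h1, h2, by linarith⟩
    · simp only [P_enorm]
      exact mul_le_mul_right hv2 _
  have hmS := B_meas_swap ht' hvm hvi
  have hmA : Measurable fun x => B g a x := B_meas_right ht' hg hgi a
  have hpt : ∀ x ∈ Metric.closedBall x0 1, Mx g x ^ 2 ≤
      4 * B g a x ^ 2 + 512 * ∫⁻ s in Icc (a - 1) (a + 1), B v s x ^ 2 := by
    intro x hx
    have hx1 : |x 0 - a| ≤ 1 := by
      rw [Metric.mem_closedBall, dist_eq_norm] at hx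
      have h1 := PiLp.norm_apply_le (x - x0) 0
      rw [Real.norm_eq_abs] at h1
      exact h1.trans hx
    have h1 := pointwise hf hg hgi hη a x hx1
    calc Mx g x ^ 2 ≤ (B g a x + 8 * ∫⁻ s in Icc (a - 1) (a + 1), B v s x) ^ 2 :=
          pow_le_pow_left' h1 2
      _ ≤ 4 * B g a x ^ 2 + 4 * (8 * ∫⁻ s in Icc (a - 1) (a + 1), B v s x) ^ 2 := sq_add _ _
      _ = 4 * B g a x ^ 2 + 256 * (∫⁻ s in Icc (a - 1) (a + 1), B v s x) ^ 2 := by
          rw [mul_pow]; ring
      _ ≤ 4 * B g a x ^ 2 + 256 * (2 * ∫⁻ s in Icc (a - 1) (a + 1), B v s x ^ 2) := by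
          gcongr
          exact cs (B_meas_left ht' hvm hvi x) a
      _ = _ := by ring
  calc ∫⁻ x in Metric.closedBall x0 1, Mx g x ^ 2
      ≤ ∫⁻ x in Metric.closedBall x0 1, (4 * B g a x ^ 2 +
          512 * ∫⁻ s in Icc (a - 1) (a + 1), B v s x ^ 2) :=
        setLIntegral_mono' measurableSet_closedBall hpt
    _ ≤ ∫⁻ x, (4 * B g a x ^ 2 + 512 * ∫⁻ s in Icc (a - 1) (a + 1), B v s x ^ 2) :=
        setLIntegral_le_lintegral _ _
    _ = 4 * (∫⁻ x, B g a x ^ 2) + 512 * ∫⁻ x, ∫⁻ s in Icc (a - 1) (a + 1), B v s x ^ 2 := by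
        rw [lintegral_add_left ((hmA.pow_const 2).const_mul 4),
          lintegral_const_mul _ (hmA.pow_const 2), lintegral_const_mul]
        exact hmS.lintegral_prod_right'
    _ = 4 * (∫⁻ x, B g a x ^ 2) + 512 * ∫⁻ s in Icc (a - 1) (a + 1), ∫⁻ x, B v s x ^ 2 := by
        congr 2
        exact lintegral_lintegral_swap hmS.aemeasurable
    _ ≤ 4 * (C * ∫⁻ ξ, ‖g ξ‖ₑ ^ 2) +
          512 * ∫⁻ s in Icc (a - 1) (a + 1), (C * ∫⁻ ξ, ‖g ξ‖ₑ ^ 2) := by
        gcongr
        exact hBs _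
    _ = 1028 * C * ∫⁻ ξ, ‖g ξ‖ₑ ^ 2 := by
        rw [setLIntegral_const, Real.volume_Icc, show a + 1 - (a - 1) = (2 : ℝ) by ring]
        have : ENNReal.ofReal 2 = 2 := by norm_num
        rw [this]
        ring

theorem Mx_neg (g : E m → ℂ) (x : E m) : Mx g x = Mx (fun ξ => g (-ξ)) (-x) := by
  unfold Mx
  refine iSup_congr fun R => iSup_congr fun _ => ?_
  congr 1
  have h1 := (Measure.measurePreserving_neg (volume : Measure (E m))).setIntegral_preimage_emb
    (MeasurableEquiv.neg (E m)).measurableEmbedding (fun ξ => g ξ * ex x ξ)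
    (Metric.closedBall 0 R)
  rw [← h1]
  have h2 : (Neg.neg : E m → E m) ⁻¹' Metric.closedBall 0 R = Metric.closedBall 0 R := by
    ext ξ
    simp
  rw [show ((fun x : E m => -x) ⁻¹' Metric.closedBall 0 R) = Metric.closedBall 0 R from h2]
  refine integral_congr_ae (ae_of_all _ fun ξ => ?_)
  simp only [ex, inner_neg_left, inner_neg_right]

theorem lint_neg (F : E m → ℝ≥0∞) (x0 : E m) :
    ∫⁻ x in Metric.closedBall x0 1, F (-x) = ∫⁻ x in Metric.closedBall (-x0) 1, F x := by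
  have h0 := Measure.measurePreserving_neg (volume : Measure (E m))
  have h1 := h0.setLIntegral_comp_preimage_emb
    (MeasurableEquiv.neg (E m)).measurableEmbedding F (Metric.closedBall (-x0) 1)
  rw [← h1]
  congr 2
  ext x
  simp only [Metric.mem_closedBall, mem_preimage, dist_neg_neg]

end FL1_

open FL1_ in
theorem p_FL1 (h1 : T_FSP) (h2 : T_FL0) : T_FL1 := by
  intro hcar m
  obtain ⟨C, hC⟩ := h2 hcar m
  refine ⟨8224 * C + 1, fun K g x0 hK hg hs => ?_⟩
  by_cases hfin : ∫⁻ ξ, ‖g ξ‖ₑ ^ 2 = ⊤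
  · rw [hfin, ENNReal.mul_top]
    · exact le_top
    · exact_mod_cast (by positivity : (8224 * C + 1 : ℝ≥0) ≠ 0)
  set gp : E (m + 1) → ℂ := {ξ | 0 < ξ 0}.indicator g with hgp
  set gn : E (m + 1) → ℂ := {ξ | ξ 0 < 0}.indicator g with hgn
  have hmp : MeasurableSet {ξ : E (m + 1) | 0 < ξ 0} :=
    (isOpen_lt continuous_const (by fun_prop)).measurableSet
  have hmn : MeasurableSet {ξ : E (m + 1) | ξ 0 < 0} :=
    (isOpen_lt (by fun_prop) continuous_const).measurableSet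
  have hgpm : Measurable gp := hg.indicator hmp
  have hgnm : Measurable gn := hg.indicator hmn
  have hle : ∀ (s : Set (E (m + 1))), ∫⁻ ξ, ‖s.indicator g ξ‖ₑ ^ 2 ≤ ∫⁻ ξ, ‖g ξ‖ₑ ^ 2 := by
    intro s
    refine lintegral_mono fun ξ => pow_le_pow_left' ?_ 2
    by_cases h : ξ ∈ s
    · simp [h]
    · simp [h]
  have hpf : ∫⁻ ξ, ‖gp ξ‖ₑ ^ 2 ≠ ⊤ := ne_top_of_le_ne_top hfin (hle _)
  have hnf : ∫⁻ ξ, ‖gn ξ‖ₑ ^ 2 ≠ ⊤ := ne_top_of_le_ne_top hfin (hle _)
  have hgpi := intOn hgpm hpf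
  have hgni := intOn hgnm hnf
  have hsum : ∀ ξ, g ξ = gp ξ + gn ξ := by
    intro ξ
    rcases lt_trichotomy (ξ 0) 0 with h | h | h
    · rw [hgp, hgn, indicator_of_notMem (by simp [h.le]), indicator_of_mem (by simpa using h),
        zero_add]
    · rw [hgp, hgn, indicator_of_notMem (by simp [h]), indicator_of_notMem (by simp [h]),
        zero_add]
      by_contra hc
      obtain ⟨h3, h4⟩ := hs ξ hc
      have h5 := ((h1 m).2.2.2.2.2 ξ ξ).2.2
      rw [h] at h5
      have h6 : ‖ξ‖ = ‖tl ξ‖ := by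
        have h7 : ‖ξ‖ ^ 2 = ‖tl ξ‖ ^ 2 := by rw [h5]; ring
        exact (pow_left_inj₀ (norm_nonneg _) (norm_nonneg _) two_ne_zero).1 h7
      nlinarith
    · rw [hgp, hgn, indicator_of_mem (by simpa using h), indicator_of_notMem (by simp [h.le]),
        add_zero]
  have hMx : ∀ x, Mx g x ≤ Mx gp x + Mx gn x := by
    intro x
    refine iSup₂_le fun R hR => ?_
    have h3 : ∫ ξ in Metric.closedBall (0 : E (m + 1)) R, g ξ * ex x ξ =
        (∫ ξ in Metric.closedBall (0 : E (m + 1)) R, gp ξ * ex x ξ) +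
          ∫ ξ in Metric.closedBall (0 : E (m + 1)) R, gn ξ * ex x ξ := by
      rw [← integral_add (intEx (hgpi R) x) (intEx (hgni R) x)]
      refine integral_congr_ae (ae_of_all _ fun ξ => ?_)
      simp only
      rw [hsum ξ, add_mul]
    rw [h3]
    refine (enorm_add_le _ _).trans (add_le_add ?_ ?_)
    · exact le_iSup₂_of_le (f := fun (R : ℝ) (_ : 0 < R) =>
        ‖∫ ξ in Metric.closedBall (0 : E (m + 1)) R, gp ξ * ex x ξ‖ₑ) R hR le_rfl
    · exact le_iSup₂_of_le (f := fun (R : ℝ) (_ : 0 < R) =>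
        ‖∫ ξ in Metric.closedBall (0 : E (m + 1)) R, gn ξ * ex x ξ‖ₑ) R hR le_rfl
  have hP : ∫⁻ x in Metric.closedBall x0 1, Mx gp x ^ 2 ≤
      1028 * C * ∫⁻ ξ, ‖g ξ‖ₑ ^ 2 := by
    refine (pos h1 hC x0 hK hgpm (fun ξ hξ => ?_) hpf).trans ?_
    · have h3 : ξ ∈ {ξ : E (m + 1) | 0 < ξ 0} := by
        by_contra hc
        exact hξ (indicator_of_notMem hc _)
      rw [hgp, indicator_of_mem h3] at hξ
      exact ⟨h3, hs ξ hξ⟩
    · exact mul_le_mul_right (hle _) _
  have hN : ∫⁻ x in Metric.closedBall x0 1, Mx gn x ^ 2 ≤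
      1028 * C * ∫⁻ ξ, ‖g ξ‖ₑ ^ 2 := by
    have h3 : ∫⁻ x in Metric.closedBall x0 1, Mx gn x ^ 2 =
        ∫⁻ x in Metric.closedBall (-x0) 1, Mx (fun ξ => gn (-ξ)) x ^ 2 := by
      rw [← lint_neg (fun x => Mx (fun ξ => gn (-ξ)) x ^ 2) x0]
      refine lintegral_congr fun x => ?_
      rw [Mx_neg gn x]
    have h4 : ∫⁻ ξ, ‖gn (-ξ)‖ₑ ^ 2 = ∫⁻ ξ, ‖gn ξ‖ₑ ^ 2 :=
      lintegral_neg_eq_self (fun ξ => ‖gn ξ‖ₑ ^ 2)
    rw [h3]
    refine (pos h1 hC (-x0) hK (g := fun ξ => gn (-ξ)) (hgnm.comp measurable_neg)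
      (fun ξ hξ => ?_) (by rw [h4]; exact hnf)).trans ?_
    · have h5 : -ξ ∈ {ξ : E (m + 1) | ξ 0 < 0} := by
        by_contra hc
        exact hξ (indicator_of_notMem hc _)
      simp only [hgn] at hξ
      rw [indicator_of_mem h5] at hξ
      obtain ⟨h6, h7⟩ := hs (-ξ) hξ
      have h8 : tl (-ξ) = -tl ξ := by
        unfold tl
        ext i
        simp
      rw [h8, norm_neg] at h6
      rw [norm_neg] at h7
      refine ⟨?_, h6, h7⟩
      simpa using h5
    · rw [h4]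
      exact mul_le_mul_right (hle _) _
  calc ∫⁻ x in Metric.closedBall x0 1, Mx g x ^ 2
      ≤ ∫⁻ x in Metric.closedBall x0 1, (4 * Mx gp x ^ 2 + 4 * Mx gn x ^ 2) :=
        lintegral_mono fun x => (pow_le_pow_left' (hMx x) 2).trans (sq_add _ _)
    _ = 4 * (∫⁻ x in Metric.closedBall x0 1, Mx gp x ^ 2) +
          4 * ∫⁻ x in Metric.closedBall x0 1, Mx gn x ^ 2 := by
        rw [lintegral_add_left (((Mx_meas hgpi).pow_const 2).const_mul 4),
          lintegral_const_mul _ ((Mx_meas hgpi).pow_const 2),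
          lintegral_const_mul _ ((Mx_meas hgni).pow_const 2)]
    _ ≤ 4 * (1028 * C * ∫⁻ ξ, ‖g ξ‖ₑ ^ 2) + 4 * (1028 * C * ∫⁻ ξ, ‖g ξ‖ₑ ^ 2) := by
        gcongr
    _ = 8224 * C * ∫⁻ ξ, ‖g ξ‖ₑ ^ 2 := by ring
    _ ≤ ((8224 * C + 1 : ℝ≥0) : ℝ≥0∞) * ∫⁻ ξ, ‖g ξ‖ₑ ^ 2 := by
        gcongr
        push_cast
        exact le_self_add

end Pool.Agent.CRF
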