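import Pool.Agent.CRF.Targets

set_option autoImplicit false

/-!
# CRF: FPN, the local maximal inequality in all dimensions
-/

namespace Pool.Agent.CRF

open MeasureTheory FourierTransform Set Filter Topology
open scoped ENNReal NNReal
open Pool.Agent.MBS (E ex S Sstar)
open Pool.Agent.CRN (T_CARLS)

namespace FPN_

/-! ### Cauchy–Schwarz -/

theorem cs_lint {α : Type*} [MeasurableSpace α] (μ : Measure α) {f g : α → ℝ≥0∞}
    (hf : AEMeasurable f μ) (hg : AEMeasurable g μ) :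
    ∫⁻ a, f a * g a ∂μ ≤ (∫⁻ a, f a ^ 2 ∂μ) ^ (1 / 2 : ℝ) * (∫⁻ a, g a ^ 2 ∂μ) ^ (1 / 2 : ℝ) := by
  have h := ENNReal.lintegral_mul_le_Lp_mul_Lq μ Real.HolderConjugate.two_two hf hg
  simp only [ENNReal.rpow_two] at h
  exact h

theorem cs_tsum {ι : Type*} (f g : ι → ℝ≥0∞) :
    ∑' i, f i * g i ≤ (∑' i, f i ^ 2) ^ (1 / 2 : ℝ) * (∑' i, g i ^ 2) ^ (1 / 2 : ℝ) := by
  let _ : MeasurableSpace ι := ⊤
  have hf : AEMeasurable f Measure.count := Measurable.aemeasurable measurable_from_top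
  have hg : AEMeasurable g Measure.count := Measurable.aemeasurable measurable_from_top
  have h := cs_lint Measure.count hf hg
  have _ : MeasurableSingletonClass ι := ⟨fun _ => trivial⟩
  rw [lintegral_count, lintegral_count, lintegral_count] at h
  exact h

theorem half_sq (x : ℝ≥0∞) : (x ^ (1 / 2 : ℝ)) ^ 2 = x := by
  rw [← ENNReal.rpow_natCast, ← ENNReal.rpow_mul]
  norm_num

theorem sq_add_le (p q : ℝ≥0∞) : (p + q) ^ 2 ≤ 2 * (p ^ 2 + q ^ 2) := by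
  have h := ENNReal.rpow_add_le_mul_rpow_add_rpow p q (p := 2) (by norm_num)
  have e : (2 : ℝ≥0∞) ^ ((2 : ℝ) - 1) = 2 := by norm_num
  rw [e] at h
  simpa only [ENNReal.rpow_two] using h

theorem cs_w {ι : Type*} (t w : ι → ℝ≥0∞) (h0 : ∀ i, w i ≠ 0) (ht : ∀ i, w i ≠ ⊤) :
    (∑' i, t i) ^ 2 ≤ (∑' i, w i) * ∑' i, (w i)⁻¹ * t i ^ 2 := by
  have h := cs_tsum (fun i => w i ^ (1 / 2 : ℝ)) (fun i => (w i)⁻¹ ^ (1 / 2 : ℝ) * t i)
  have e1 : ∀ i, w i ^ (1 / 2 : ℝ) * ((w i)⁻¹ ^ (1 / 2 : ℝ) * t i) = t i := by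
    intro i
    rw [← mul_assoc, ← ENNReal.mul_rpow_of_nonneg _ _ (by norm_num),
      ENNReal.mul_inv_cancel (h0 i) (ht i), ENNReal.one_rpow, one_mul]
  simp only [e1, half_sq, mul_pow] at h
  calc (∑' i, t i) ^ 2 ≤ ((∑' i, w i) ^ (1 / 2 : ℝ) *
        (∑' i, (w i)⁻¹ * t i ^ 2) ^ (1 / 2 : ℝ)) ^ 2 := by gcongr
    _ = _ := by rw [mul_pow, half_sq, half_sq]

/-- the weights -/
noncomputable def ww (n : ℕ) : ℝ≥0∞ := (((n : ℝ≥0∞) + 1) ^ 2)⁻¹

theorem ww_ne_zero (n : ℕ) : ww n ≠ 0 := by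
  unfold ww
  refine ENNReal.inv_ne_zero.2 (ENNReal.pow_ne_top (ENNReal.add_ne_top.2 ⟨?_, ENNReal.one_ne_top⟩))
  exact ENNReal.natCast_ne_top n

theorem ww_ne_top (n : ℕ) : ww n ≠ ⊤ := by
  unfold ww
  refine ENNReal.inv_ne_top.2 (pow_ne_zero _ ?_)
  simp

theorem cast_sq (n : ℕ) : ((n : ℝ≥0∞) + 1) ^ 2 = ENNReal.ofReal (((n : ℝ) + 1) ^ 2) := by
  rw [ENNReal.ofReal_pow (by positivity), ENNReal.ofReal_add (by positivity) (by norm_num),
    ENNReal.ofReal_natCast, ENNReal.ofReal_one]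

theorem ww_sum : ∑' n, ww n ≠ ⊤ := by
  have h1 : Summable (fun n : ℕ => (((n : ℝ) + 1) ^ 2)⁻¹) := by
    have h2 := (summable_nat_add_iff 1).2 (Real.summable_one_div_nat_pow.2 one_lt_two)
    refine h2.congr fun n => ?_
    push_cast
    rw [one_div]
  have e : ∀ n, ww n = ENNReal.ofReal ((((n : ℝ) + 1) ^ 2)⁻¹) := by
    intro n
    unfold ww
    rw [cast_sq, ENNReal.ofReal_inv_of_pos (by positivity)]
  simp only [e]
  exact h1.tsum_ofReal_ne_top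

/-! ### weights -/

theorem one_le_log {d : ℝ} (hd : 0 ≤ d) : 1 ≤ Real.log (3 + d) := by
  rw [Real.le_log_iff_exp_le (by linarith)]
  have := Real.exp_one_lt_d9
  linarith

theorem log_nonneg' {d : ℝ} (hd : 0 ≤ d) : 0 ≤ Real.log (3 + d) := by
  linarith [one_le_log hd]

theorem one_le_w1 {d : ℝ} (hd : 0 ≤ d) : 1 ≤ w1 d := by
  unfold w1
  rw [← ENNReal.ofReal_one]
  refine ENNReal.ofReal_le_ofReal ?_
  have h1 := one_le_pow₀ (one_le_log hd) (n := 2)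
  have h2 := one_le_pow₀ (one_le_log (log_nonneg' hd)) (n := 2)
  nlinarith

theorem w2_le_w1 {d : ℝ} (hd : 0 ≤ d) : w2 2 d ≤ w1 d := by
  unfold w1 w2
  refine ENNReal.ofReal_le_ofReal ?_
  have h1 := one_le_pow₀ (one_le_log hd) (n := 2)
  have h2 := sq_nonneg (Real.log (3 + Real.log (3 + d)))
  nlinarith

theorem block_ineq (n : ℕ) (d : ℝ) (hd : 0 ≤ d) (h : n = 0 ∨ (2 : ℝ) ^ (2 ^ (n - 1)) < d) :
    ((n : ℝ) + 1) ^ 2 * (((2 ^ (n + 1) + 1 : ℕ) : ℝ) + 1) ^ 2 ≤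
      5184 * (Real.log (3 + d) ^ 2 * Real.log (3 + Real.log (3 + d)) ^ 2) := by
  set A := Real.log (3 + d) with hA
  set B := Real.log (3 + A) with hB
  have hA1 : 1 ≤ A := one_le_log hd
  have hB1 : 1 ≤ B := one_le_log (by linarith)
  have hlog2 := Real.log_two_gt_d9
  rcases n with _ | k
  · have h1 := one_le_pow₀ hA1 (n := 2)
    have h2 := one_le_pow₀ hB1 (n := 2)
    have h3 : 1 ≤ A ^ 2 * B ^ 2 := by nlinarith
    push_cast
    nlinarith
  · have hdk : (2 : ℝ) ^ (2 ^ k) < d := by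
      rcases h with h | h
      · omega
      · simpa using h
    have hk1 : (1 : ℝ) ≤ 2 ^ k := one_le_pow₀ (by norm_num)
    have hA2 : (2 : ℝ) ^ k / 2 ≤ A := by
      have h1 : Real.log ((2 : ℝ) ^ (2 ^ k)) ≤ A := by
        rw [hA]
        exact Real.log_le_log (by positivity) (by linarith)
      rw [Real.log_pow] at h1
      push_cast at h1
      nlinarith
    have hM : (((2 ^ (k + 1 + 1) + 1 : ℕ) : ℝ) + 1) ≤ 12 * A := by
      push_cast
      rw [pow_succ, pow_succ]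
      nlinarith
    have hkB : ((k + 1 : ℕ) : ℝ) + 1 ≤ 6 * B := by
      push_cast
      rcases Nat.lt_or_ge k 2 with hk | hk
      · have : (k : ℝ) ≤ 1 := by exact_mod_cast (by omega : k ≤ 1)
        linarith
      · obtain ⟨j, rfl⟩ : ∃ j, k = j + 1 := ⟨k - 1, by omega⟩
        have hj : (1 : ℝ) ≤ j := by exact_mod_cast (by omega : 1 ≤ j)
        have h1 : Real.log ((2 : ℝ) ^ j) ≤ B := by
          rw [hB]
          refine Real.log_le_log (by positivity) ?_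
          have : (2 : ℝ) ^ (j + 1) / 2 = 2 ^ j := by rw [pow_succ]; ring
          linarith
        rw [Real.log_pow] at h1
        push_cast
        nlinarith
    have h1 : (0 : ℝ) ≤ ((k + 1 : ℕ) : ℝ) + 1 := by positivity
    have h2 : (0 : ℝ) ≤ (((2 ^ (k + 1 + 1) + 1 : ℕ) : ℝ) + 1) := by positivity
    calc (((k + 1 : ℕ) : ℝ) + 1) ^ 2 * (((2 ^ (k + 1 + 1) + 1 : ℕ) : ℝ) + 1) ^ 2
        ≤ (6 * B) ^ 2 * (12 * A) ^ 2 := by gcongr
      _ = 5184 * (A ^ 2 * B ^ 2) := by ring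

theorem block_w1 (n : ℕ) (d : ℝ) (hd : 0 ≤ d) (h : n = 0 ∨ (2 : ℝ) ^ (2 ^ (n - 1)) < d) :
    (ww n)⁻¹ * (((2 ^ (n + 1) + 1 : ℕ) : ℝ≥0∞) + 1) ^ 2 ≤ 5184 * w1 d := by
  have e : (5184 : ℝ≥0∞) = ENNReal.ofReal 5184 := by norm_num
  unfold ww w1
  rw [inv_inv, cast_sq, cast_sq, ← ENNReal.ofReal_mul (by positivity), e,
    ← ENNReal.ofReal_mul (by norm_num)]
  exact ENNReal.ofReal_le_ofReal (block_ineq n d hd h)

/-! ### the maximal integrals -/

variable {n : ℕ}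

theorem ex_meas (x : E n) : Measurable (fun ξ : E n => ex x ξ) :=
  (Pool.Agent.MBS.ex_continuous.comp (Continuous.prodMk_right x)).measurable

theorem intEx {g : E n → ℂ} {s : Set (E n)} (h : IntegrableOn g s) (x : E n) :
    IntegrableOn (fun ξ => g ξ * ex x ξ) s := by
  refine Integrable.mono h (h.1.mul (ex_meas x).aestronglyMeasurable) (ae_of_all _ fun ξ => ?_)
  rw [norm_mul, Pool.Agent.MBS.ex_norm, mul_one]

theorem int_cont {g : E n → ℂ} {s : Set (E n)} (h : IntegrableOn g s) :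
    Continuous (fun x => ∫ ξ in s, g ξ * ex x ξ) := by
  refine continuous_of_dominated (bound := fun ξ => ‖g ξ‖)
    (fun x => (intEx h x).1) (fun x => ae_of_all _ fun ξ => ?_) h.norm (ae_of_all _ fun ξ => ?_)
  · rw [norm_mul, Pool.Agent.MBS.ex_norm, mul_one]
  · exact continuous_const.mul (Pool.Agent.MBS.ex_continuous.comp (Continuous.prodMk_left ξ))

theorem Mx_meas {g : E n → ℂ} (h : ∀ R : ℝ, IntegrableOn g (Metric.closedBall (0 : E n) R)) :
    Measurable (Mx g) := by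
  refine LowerSemicontinuous.measurable ?_
  refine lowerSemicontinuous_iSup fun R => lowerSemicontinuous_iSup fun _ => ?_
  exact (int_cont (h R)).enorm.lowerSemicontinuous

theorem le_Mx (g : E n → ℂ) (x : E n) {R : ℝ} (hR : 0 < R) :
    ‖∫ ξ in Metric.closedBall (0 : E n) R, g ξ * ex x ξ‖ₑ ≤ Mx g x := by
  unfold Mx
  exact le_iSup₂ (f := fun (R : ℝ) (_ : 0 < R) =>
    ‖∫ ξ in Metric.closedBall (0 : E n) R, g ξ * ex x ξ‖ₑ) R hR

theorem int_ball {g : E n → ℂ} (hg : Measurable g) (h : ∫⁻ ξ, ‖g ξ‖ₑ ^ 2 ≠ ⊤) (R : ℝ) :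
    IntegrableOn g (Metric.closedBall (0 : E n) R) := by
  refine ⟨hg.aestronglyMeasurable, ?_⟩
  have h1 : ∀ a : ℝ≥0∞, a ≤ 1 + a ^ 2 := by
    intro a
    rcases le_total a 1 with ha | ha
    · exact ha.trans le_self_add
    · calc a = a * 1 := (mul_one a).symm
        _ ≤ a * a := by gcongr
        _ = a ^ 2 := (sq a).symm
        _ ≤ 1 + a ^ 2 := le_add_self
  unfold HasFiniteIntegral
  calc ∫⁻ ξ in Metric.closedBall (0 : E n) R, ‖g ξ‖ₑ
      ≤ ∫⁻ ξ in Metric.closedBall (0 : E n) R, (1 + ‖g ξ‖ₑ ^ 2) := lintegral_mono fun ξ => h1 _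
    _ = volume (Metric.closedBall (0 : E n) R) +
        ∫⁻ ξ in Metric.closedBall (0 : E n) R, ‖g ξ‖ₑ ^ 2 := by
        rw [lintegral_add_left measurable_const, setLIntegral_one]
    _ < ⊤ := by
        refine ENNReal.add_lt_top.2 ⟨measure_closedBall_lt_top, ?_⟩
        exact lt_of_le_of_lt (setLIntegral_le_lintegral _ _) (lt_top_iff_ne_top.2 h)

theorem Mx_le_of_support {g : E n → ℂ} {T : ℝ} (hT : 0 < T) (h : ∀ ξ, g ξ ≠ 0 → ‖ξ‖ ≤ T)
    (x : E n) : Mx g x ≤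
      ⨆ R ∈ Ioc (0 : ℝ) T, ‖∫ ξ in Metric.closedBall (0 : E n) R, g ξ * ex x ξ‖ₑ := by
  unfold Mx
  refine iSup₂_le fun R hR => ?_
  rcases le_total R T with hRT | hRT
  · exact le_iSup₂ (f := fun (R : ℝ) (_ : R ∈ Ioc (0 : ℝ) T) =>
      ‖∫ ξ in Metric.closedBall (0 : E n) R, g ξ * ex x ξ‖ₑ) R ⟨hR, hRT⟩
  · have e : ∫ ξ in Metric.closedBall (0 : E n) R, g ξ * ex x ξ =
        ∫ ξ in Metric.closedBall (0 : E n) T, g ξ * ex x ξ := by
      refine setIntegral_eq_of_subset_of_forall_sdiff_eq_zero Metric.isClosed_closedBall.measurableSet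
        (Metric.closedBall_subset_closedBall hRT) fun ξ hξ => ?_
      have h1 : ¬ ‖ξ‖ ≤ T := by
        intro h2
        exact hξ.2 (by simpa using h2)
      have h2 : g ξ = 0 := by
        by_contra h3
        exact h1 (h ξ h3)
      rw [h2, zero_mul]
    rw [e]
    exact le_iSup₂ (f := fun (R : ℝ) (_ : R ∈ Ioc (0 : ℝ) T) =>
      ‖∫ ξ in Metric.closedBall (0 : E n) R, g ξ * ex x ξ‖ₑ) T ⟨hT, le_rfl⟩

/-! ### the blocks -/

variable {m : ℕ}

theorem tl_cont : Continuous (fun x : E (m + 1) => tl x) := by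
  unfold tl
  exact (PiLp.continuous_toLp 2 _).comp (continuous_pi fun i => by fun_prop)

theorem tl_le (x : E (m + 1)) : ‖tl x‖ ≤ ‖x‖ := by
  rw [EuclideanSpace.norm_eq, EuclideanSpace.norm_eq]
  apply Real.sqrt_le_sqrt
  rw [Fin.sum_univ_succ]
  simp only [tl]
  have := sq_nonneg ‖x 0‖
  linarith

/-- low frequencies of the block `k` -/
def Lo (m k : ℕ) : Set (E (m + 1)) :=
  {ξ | ‖tl ξ‖ ≤ 2 ^ (2 ^ k) ∧ (k = 0 ∨ (2 : ℝ) ^ (2 ^ (k - 1)) < ‖tl ξ‖) ∧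
    ‖ξ‖ < 2 * ((2 : ℝ) ^ (2 ^ k)) ^ 2}

theorem Lo_meas (k : ℕ) : MeasurableSet (Lo m k) := by
  have h1 : Measurable (fun ξ : E (m + 1) => ‖tl ξ‖) := tl_cont.norm.measurable
  refine (measurableSet_le h1 measurable_const).inter (MeasurableSet.inter ?_
    (measurableSet_lt measurable_norm measurable_const))
  exact (MeasurableSet.const _).union (measurableSet_lt measurable_const h1)

theorem Lo_disj : Pairwise (Function.onFun Disjoint (Lo m)) := by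
  have key : ∀ i j : ℕ, i < j → Disjoint (Lo m i) (Lo m j) := by
    intro i j hij
    rw [Set.disjoint_left]
    intro ξ hi hj
    rcases hj.2.1 with h | h
    · omega
    · have h1 : (2 : ℝ) ^ (2 ^ i) ≤ 2 ^ (2 ^ (j - 1)) :=
        pow_le_pow_right₀ (by norm_num) (Nat.pow_le_pow_right (by norm_num) (by omega))
      have h2 := hi.1
      linarith
  intro i j hij
  rcases lt_or_gt_of_ne hij with h | h
  · exact key i j h
  · exact (key j i h).symm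

theorem split_ball (g : E (m + 1) → ℂ) {R : ℝ} {N : ℕ} (hN : R ≤ 2 ^ (2 ^ N)) (ξ : E (m + 1))
    (hξ : ‖ξ‖ ≤ R) : g ξ = (⋃ k, Lo m k)ᶜ.indicator g ξ +
      ∑ k ∈ Finset.range (N + 1), (Lo m k).indicator g ξ := by
  by_cases h : ξ ∈ ⋃ k, Lo m k
  · obtain ⟨k, hk⟩ := mem_iUnion.1 h
    have hkN : k ≤ N := by
      by_contra hc
      rcases hk.2.1 with h0 | h0
      · omega
      · have h1 : (2 : ℝ) ^ (2 ^ N) ≤ 2 ^ (2 ^ (k - 1)) :=
          pow_le_pow_right₀ (by norm_num) (Nat.pow_le_pow_right (by norm_num) (by omega))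
        have h2 := tl_le ξ
        linarith
    rw [indicator_of_notMem (by simpa using ⟨k, hk⟩), zero_add,
      Finset.sum_eq_single k, indicator_of_mem hk]
    · intro j _ hj
      refine indicator_of_notMem ?_ g
      intro hj2
      exact Set.disjoint_left.1 (Lo_disj hj) hj2 hk
    · intro hc
      exact absurd (Finset.mem_range.2 (by omega)) hc
  · rw [indicator_of_mem (show ξ ∈ (⋃ k, Lo m k)ᶜ from h), Finset.sum_eq_zero, add_zero]
    intro k _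
    exact indicator_of_notMem (fun hk => h (mem_iUnion.2 ⟨k, hk⟩)) g

theorem Mx_split {g : E (m + 1) → ℂ}
    (hg : ∀ R : ℝ, IntegrableOn g (Metric.closedBall (0 : E (m + 1)) R)) (x : E (m + 1)) :
    Mx g x ≤ Mx ((⋃ k, Lo m k)ᶜ.indicator g) x + ∑' k, Mx ((Lo m k).indicator g) x := by
  conv_lhs => unfold Mx
  refine iSup₂_le fun R hR => ?_
  obtain ⟨N, hN⟩ : ∃ N : ℕ, R ≤ 2 ^ (2 ^ N) := by
    obtain ⟨N, hN⟩ := pow_unbounded_of_one_lt R (show (1 : ℝ) < 2 by norm_num)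
    refine ⟨N, hN.le.trans ?_⟩
    exact pow_le_pow_right₀ (by norm_num) (Nat.lt_two_pow_self).le
  have hU : MeasurableSet (⋃ k, Lo m k)ᶜ := (MeasurableSet.iUnion fun k => Lo_meas k).compl
  have e : ∫ ξ in Metric.closedBall (0 : E (m + 1)) R, g ξ * ex x ξ =
      (∫ ξ in Metric.closedBall (0 : E (m + 1)) R, (⋃ k, Lo m k)ᶜ.indicator g ξ * ex x ξ) +
      ∑ k ∈ Finset.range (N + 1),
        ∫ ξ in Metric.closedBall (0 : E (m + 1)) R, (Lo m k).indicator g ξ * ex x ξ := by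
    rw [← integral_finsetSum _ fun k _ => intEx ((hg R).indicator (Lo_meas k)) x,
      ← integral_add (intEx ((hg R).indicator hU) x)
        (integrable_finsetSum _ fun k _ => intEx ((hg R).indicator (Lo_meas k)) x)]
    refine setIntegral_congr_fun Metric.isClosed_closedBall.measurableSet fun ξ hξ => ?_
    have h1 := split_ball g hN ξ (by simpa using hξ)
    rw [← Finset.sum_mul, ← add_mul, ← h1]
  rw [e]
  refine (enorm_add_le _ _).trans (add_le_add (le_Mx _ x hR) ?_)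
  refine (enorm_sum_le _ _).trans ?_
  refine (Finset.sum_le_sum fun k _ => le_Mx ((Lo m k).indicator g) x hR).trans ?_
  exact ENNReal.sum_le_tsum _

end FPN_

open FPN_ in
/-- FPN -/
theorem p_FPN (h1 : T_FBL) (h2 : T_LOWG) : T_FPN := by
  intro hC m hm
  obtain ⟨C1, hF⟩ := h1 hC m
  obtain ⟨C2, hL⟩ := h2 (m + 1) (by omega)
  set W : ℝ≥0∞ := ∑' k, ww k with hW
  have hWt : W ≠ ⊤ := ww_sum
  set Q : ℝ≥0∞ := 2 * C1 + 2 * W * (C2 * 5184) with hQ
  have hQt : Q ≠ ⊤ := by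
    rw [hQ]
    exact ENNReal.add_ne_top.2 ⟨ENNReal.mul_ne_top (by norm_num) ENNReal.coe_ne_top,
      ENNReal.mul_ne_top (ENNReal.mul_ne_top (by norm_num) hWt)
        (ENNReal.mul_ne_top ENNReal.coe_ne_top (by norm_num))⟩
  refine ⟨(Q + 1).toNNReal, ?_⟩
  intro g x0 hg
  rw [ENNReal.coe_toNNReal (ENNReal.add_ne_top.2 ⟨hQt, ENNReal.one_ne_top⟩)]
  set I : ℝ≥0∞ := ∫⁻ ξ, ‖g ξ‖ₑ ^ 2 * w1 ‖tl ξ‖ with hI
  by_cases hIt : I = ⊤
  · rw [hIt, ENNReal.mul_top (by simp)]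
    exact le_top
  have hg2 : ∫⁻ ξ, ‖g ξ‖ₑ ^ 2 ≠ ⊤ := by
    refine ne_top_of_le_ne_top hIt (lintegral_mono fun ξ => ?_)
    calc ‖g ξ‖ₑ ^ 2 = ‖g ξ‖ₑ ^ 2 * 1 := (mul_one _).symm
      _ ≤ _ := by
          gcongr
          exact one_le_w1 (norm_nonneg _)
  have hgi : ∀ R : ℝ, IntegrableOn g (Metric.closedBall (0 : E (m + 1)) R) := int_ball hg hg2
  have hU : MeasurableSet (⋃ k, Lo m k)ᶜ := (MeasurableSet.iUnion fun k => Lo_meas k).compl
  set gh : E (m + 1) → ℂ := (⋃ k, Lo m k)ᶜ.indicator g with hgh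
  set gl : ℕ → E (m + 1) → ℂ := fun k => (Lo m k).indicator g with hgl
  have mh : Measurable (Mx gh) := Mx_meas fun R => (hgi R).indicator hU
  have ml : ∀ k, Measurable (Mx (gl k)) := fun k => Mx_meas fun R => (hgi R).indicator (Lo_meas k)
  -- high part
  have hhigh : ∫⁻ x in Metric.closedBall x0 1, Mx gh x ^ 2 ≤ C1 * I := by
    refine (hF gh x0 (hg.indicator hU) ?_).trans ?_
    · intro n ξ hξ h3 h4
      by_contra h5
      apply hξ
      refine indicator_of_notMem ?_ g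
      intro h6
      exact h6 (mem_iUnion.2 ⟨n, h3, h4, lt_of_not_ge h5⟩)
    · refine mul_le_mul_right (lintegral_mono fun ξ => ?_) _
      refine mul_le_mul' ?_ (w2_le_w1 (norm_nonneg _))
      simp only [hgh]
      by_cases h3 : ξ ∈ (⋃ k, Lo m k)ᶜ
      · rw [indicator_of_mem h3]
      · rw [indicator_of_notMem h3]
        simp
  -- low parts
  have hlow : ∀ k, (ww k)⁻¹ * ∫⁻ x in Metric.closedBall x0 1, Mx (gl k) x ^ 2 ≤
      C2 * 5184 * ∫⁻ ξ in Lo m k, ‖g ξ‖ₑ ^ 2 * w1 ‖tl ξ‖ := by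
    intro k
    have g1 : ∫⁻ x in Metric.closedBall x0 1, Mx (gl k) x ^ 2 ≤
        C2 * (((2 ^ (k + 1) + 1 : ℕ) : ℝ≥0∞) + 1) ^ 2 * ∫⁻ ξ, ‖gl k ξ‖ₑ ^ 2 := by
      refine le_trans (lintegral_mono fun x => ?_) (hL (2 ^ (k + 1) + 1) (gl k) x0
        (hg.indicator (Lo_meas k)))
      refine pow_le_pow_left' ?_ 2
      refine Mx_le_of_support (by positivity) ?_ x
      intro ξ hξ
      have h3 : ξ ∈ Lo m k := by
        by_contra h4
        exact hξ (indicator_of_notMem h4 g)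
      have h4 : (2 : ℝ) ^ (2 ^ (k + 1) + 1) = 2 * ((2 : ℝ) ^ (2 ^ k)) ^ 2 := by
        rw [← pow_mul, pow_succ, pow_succ]
        ring
      rw [h4]
      exact h3.2.2.le
    have g2 : ∫⁻ ξ, ‖gl k ξ‖ₑ ^ 2 = ∫⁻ ξ in Lo m k, ‖g ξ‖ₑ ^ 2 := by
      rw [← lintegral_indicator (Lo_meas k)]
      refine lintegral_congr fun ξ => ?_
      simp only [hgl]
      by_cases h3 : ξ ∈ Lo m k
      · rw [indicator_of_mem h3, indicator_of_mem h3]
      · rw [indicator_of_notMem h3, indicator_of_notMem h3]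
        simp
    rw [g2] at g1
    calc (ww k)⁻¹ * ∫⁻ x in Metric.closedBall x0 1, Mx (gl k) x ^ 2
        ≤ (ww k)⁻¹ * (C2 * (((2 ^ (k + 1) + 1 : ℕ) : ℝ≥0∞) + 1) ^ 2 *
            ∫⁻ ξ in Lo m k, ‖g ξ‖ₑ ^ 2) := by gcongr
      _ = C2 * (((ww k)⁻¹ * (((2 ^ (k + 1) + 1 : ℕ) : ℝ≥0∞) + 1) ^ 2) *
            ∫⁻ ξ in Lo m k, ‖g ξ‖ₑ ^ 2) := by ring
      _ = C2 * ∫⁻ ξ in Lo m k, ((ww k)⁻¹ * (((2 ^ (k + 1) + 1 : ℕ) : ℝ≥0∞) + 1) ^ 2) *
            ‖g ξ‖ₑ ^ 2 := by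
          rw [lintegral_const_mul _ (hg.enorm.pow_const 2)]
      _ ≤ C2 * ∫⁻ ξ in Lo m k, 5184 * (‖g ξ‖ₑ ^ 2 * w1 ‖tl ξ‖) := by
          refine mul_le_mul_right (setLIntegral_mono_ae' (Lo_meas k) (ae_of_all _ fun ξ hξ => ?_)) _
          calc _ ≤ 5184 * w1 ‖tl ξ‖ * ‖g ξ‖ₑ ^ 2 :=
                mul_le_mul_left (block_w1 k ‖tl ξ‖ (norm_nonneg _) hξ.2.1) _
            _ = _ := by ring
      _ = _ := by
          rw [lintegral_const_mul' _ _ (by norm_num), mul_assoc]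
  have hlows : ∑' k, ∫⁻ ξ in Lo m k, ‖g ξ‖ₑ ^ 2 * w1 ‖tl ξ‖ ≤ I := by
    rw [← lintegral_iUnion (fun k => Lo_meas k) Lo_disj]
    exact setLIntegral_le_lintegral _ _
  have hm1 : ∀ k : ℕ, Measurable (fun x => (ww k)⁻¹ * Mx (gl k) x ^ 2) := fun k =>
    ((ml k).pow_const 2).const_mul _
  calc ∫⁻ x in Metric.closedBall x0 1, Mx g x ^ 2
      ≤ ∫⁻ x in Metric.closedBall x0 1, (2 * Mx gh x ^ 2 +
          2 * W * ∑' k, (ww k)⁻¹ * Mx (gl k) x ^ 2) := by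
        refine lintegral_mono fun x => ?_
        have g3 := cs_w (fun k => Mx (gl k) x) ww ww_ne_zero ww_ne_top
        calc Mx g x ^ 2 ≤ (Mx gh x + ∑' k, Mx (gl k) x) ^ 2 := by
              gcongr
              exact Mx_split hgi x
          _ ≤ 2 * (Mx gh x ^ 2 + (∑' k, Mx (gl k) x) ^ 2) := sq_add_le _ _
          _ ≤ 2 * (Mx gh x ^ 2 + W * ∑' k, (ww k)⁻¹ * Mx (gl k) x ^ 2) := by gcongr
          _ = _ := by ring
    _ = 2 * (∫⁻ x in Metric.closedBall x0 1, Mx gh x ^ 2) +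
          2 * W * ∑' k, (ww k)⁻¹ * ∫⁻ x in Metric.closedBall x0 1, Mx (gl k) x ^ 2 := by
        rw [lintegral_add_left ((mh.pow_const 2).const_mul 2), lintegral_const_mul _
          (mh.pow_const 2), lintegral_const_mul _ (Measurable.tsum hm1), lintegral_tsum fun k =>
          (hm1 k).aemeasurable]
        simp only [lintegral_const_mul _ ((ml _).pow_const 2)]
    _ ≤ 2 * (C1 * I) + 2 * W * ∑' k, C2 * 5184 * ∫⁻ ξ in Lo m k, ‖g ξ‖ₑ ^ 2 * w1 ‖tl ξ‖ := by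
        refine add_le_add (by gcongr) (mul_le_mul_right (ENNReal.tsum_le_tsum hlow) _)
    _ = 2 * (C1 * I) + 2 * W * (C2 * 5184 *
          ∑' k, ∫⁻ ξ in Lo m k, ‖g ξ‖ₑ ^ 2 * w1 ‖tl ξ‖) := by
        rw [ENNReal.tsum_mul_left]
    _ ≤ 2 * (C1 * I) + 2 * W * (C2 * 5184 * I) := by gcongr
    _ = Q * I := by rw [hQ]; ring
    _ ≤ (Q + 1) * I := by
        gcongr
        exact le_self_add

end Pool.Agent.CRF
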