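import Pool.Agent.CRF.Targets

set_option autoImplicit false

/-! CRF-FPS: the plane, strong type. -/

namespace Pool.Agent.CRF

open MeasureTheory FourierTransform Set Filter Topology
open scoped ENNReal NNReal
open Pool.Agent.MBS (E ex S Sstar)
open Pool.Agent.CAR (e1)
open Pool.Agent.CRN (IN T_CARLS T_RAYN T_AHN Nice)

namespace FPS_

theorem ex_meas {n : ℕ} (x : E n) : Continuous (fun ξ : E n => ex x ξ) :=
  Pool.Agent.MBS.ex_continuous.comp (Continuous.prodMk_right x)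

theorem int_ex {n : ℕ} {g : E n → ℂ} (hg : Measurable g) (s : Set (E n)) (x : E n) :
    IntegrableOn (fun ξ => g ξ * ex x ξ) s ↔ IntegrableOn g s := by
  constructor
  · intro h
    refine Integrable.mono h hg.aestronglyMeasurable (ae_of_all _ fun ξ => ?_)
    rw [norm_mul, Pool.Agent.MBS.ex_norm, mul_one]
  · intro h
    refine Integrable.mono h (h.1.mul (ex_meas x).aestronglyMeasurable) (ae_of_all _ fun ξ => ?_)
    rw [norm_mul, Pool.Agent.MBS.ex_norm, mul_one]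

theorem cont_int {n : ℕ} {g : E n → ℂ} (hg : Measurable g) (s : Set (E n)) :
    Continuous (fun x => ∫ ξ in s, g ξ * ex x ξ) := by
  by_cases h : IntegrableOn g s
  · refine continuous_of_dominated (bound := fun ξ => ‖g ξ‖)
      (fun x => ((int_ex hg s x).2 h).1) (fun x => ae_of_all _ fun ξ => ?_) h.norm
      (ae_of_all _ fun ξ => ?_)
    · rw [norm_mul, Pool.Agent.MBS.ex_norm, mul_one]
    · exact continuous_const.mul
        (Pool.Agent.MBS.ex_continuous.comp (Continuous.prodMk_left ξ))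
  · have h0 : (fun x => ∫ ξ in s, g ξ * ex x ξ) = fun _ => 0 := by
      funext x
      exact integral_undef (fun h1 => h ((int_ex hg s x).1 h1))
    rw [h0]
    exact continuous_const

theorem Mx_meas {n : ℕ} {g : E n → ℂ} (hg : Measurable g) : Measurable (Mx g) := by
  have h : LowerSemicontinuous (Mx g) := by
    unfold Mx
    refine lowerSemicontinuous_iSup fun R => lowerSemicontinuous_iSup fun _ => ?_
    exact ((cont_int hg _).enorm).lowerSemicontinuous
  exact h.measurable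

theorem Mx_add {n : ℕ} {g : E n → ℂ} (hg : Measurable g) {L : Set (E n)}
    (hL : MeasurableSet L) (x : E n) :
    Mx g x ≤ Mx (L.indicator g) x + Mx (Lᶜ.indicator g) x := by
  unfold Mx
  refine iSup_le fun R => iSup_le fun hR => ?_
  by_cases h : IntegrableOn g (Metric.closedBall (0 : E n) R)
  · have h1 : IntegrableOn (L.indicator g) (Metric.closedBall (0 : E n) R) :=
      h.indicator hL
    have h2 : IntegrableOn (Lᶜ.indicator g) (Metric.closedBall (0 : E n) R) :=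
      h.indicator hL.compl
    have e : ∫ ξ in Metric.closedBall (0 : E n) R, g ξ * ex x ξ =
        (∫ ξ in Metric.closedBall (0 : E n) R, L.indicator g ξ * ex x ξ) +
        ∫ ξ in Metric.closedBall (0 : E n) R, Lᶜ.indicator g ξ * ex x ξ := by
      rw [← integral_add ((int_ex (hg.indicator hL) _ x).2 h1)
        ((int_ex (hg.indicator hL.compl) _ x).2 h2)]
      refine integral_congr_ae (ae_of_all _ fun ξ => ?_)
      simp only
      rw [← add_mul]
      congr 1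
      exact (congrFun (indicator_self_add_compl L g) ξ).symm
    rw [e]
    refine (enorm_add_le _ _).trans (add_le_add ?_ ?_)
    · exact le_iSup₂ (f := fun (R : ℝ) (_ : 0 < R) =>
        ‖∫ ξ in Metric.closedBall (0 : E n) R, L.indicator g ξ * ex x ξ‖ₑ) R hR
    · exact le_iSup₂ (f := fun (R : ℝ) (_ : 0 < R) =>
        ‖∫ ξ in Metric.closedBall (0 : E n) R, Lᶜ.indicator g ξ * ex x ξ‖ₑ) R hR
  · have h0 : ∫ ξ in Metric.closedBall (0 : E n) R, g ξ * ex x ξ = 0 :=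
      integral_undef (fun h1 => h ((int_ex hg _ x).1 h1))
    rw [h0, enorm_zero]
    exact zero_le

theorem sq_add_le (a b : ℝ≥0∞) : (a + b) ^ 2 ≤ 4 * a ^ 2 + 4 * b ^ 2 := by
  rcases le_total a b with h | h
  · calc (a + b) ^ 2 ≤ (b + b) ^ 2 := by gcongr
      _ = 4 * b ^ 2 := by ring
      _ ≤ 4 * a ^ 2 + 4 * b ^ 2 := le_add_self
  · calc (a + b) ^ 2 ≤ (a + a) ^ 2 := by gcongr
      _ = 4 * a ^ 2 := by ring
      _ ≤ 4 * a ^ 2 + 4 * b ^ 2 := le_self_add

theorem norm_tl (ξ : E 2) : ‖tl (m := 1) ξ‖ = |ξ 1| := by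
  unfold tl
  rw [EuclideanSpace.norm_eq]
  simp only [Fin.sum_univ_one, Real.norm_eq_abs]
  rw [Real.sqrt_sq_eq_abs, abs_abs]
  rfl

/-- the low part -/
def Lo : Set (E 2) := ⋃ n : ℕ, {ξ : E 2 | |ξ 1| ≤ 2 ^ (2 ^ n) ∧
  (n = 0 ∨ 2 ^ (2 ^ (n - 1)) < |ξ 1|) ∧ ‖ξ‖ < 2 * ((2 : ℝ) ^ (2 ^ n)) ^ 2}

theorem Lo_meas : MeasurableSet Lo := by
  unfold Lo
  refine MeasurableSet.iUnion fun n => ?_
  have h1 : Measurable (fun ξ : E 2 => |ξ 1|) := by fun_prop
  refine MeasurableSet.inter (measurableSet_le h1 measurable_const) ?_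
  refine MeasurableSet.inter ?_ (measurableSet_lt measurable_norm measurable_const)
  exact MeasurableSet.union (MeasurableSet.const _) (measurableSet_lt measurable_const h1)

theorem Lo_bd {ξ : E 2} (h : ξ ∈ Lo) : 3 + ‖ξ‖ ≤ (3 + |ξ 1|) ^ 5 := by
  obtain ⟨n, h1, h2, h3⟩ := mem_iUnion.1 h
  have hd : 0 ≤ |ξ 1| := abs_nonneg _
  generalize |ξ 1| = d at *
  rcases Nat.eq_zero_or_pos n with hn | hn
  · subst hn
    norm_num at h3
    have : (3 : ℝ) ^ 5 ≤ (3 + d) ^ 5 := pow_le_pow_left₀ (by norm_num) (by linarith) 5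
    linarith
  · rcases h2 with h2 | h2
    · omega
    · have e : ((2 : ℝ) ^ (2 ^ n)) ^ 2 = ((2 : ℝ) ^ (2 ^ (n - 1))) ^ 4 := by
        have : 2 ^ n = 2 ^ (n - 1) * 2 := by
          rw [← pow_succ]
          congr 1
          omega
        rw [this, ← pow_mul, ← pow_mul, mul_assoc]
        norm_num
      rw [e] at h3
      have h4 : ((2 : ℝ) ^ (2 ^ (n - 1))) ^ 4 ≤ d ^ 4 :=
        pow_le_pow_left₀ (by positivity) h2.le 4
      have h5 : 3 + 2 * d ^ 4 ≤ (3 + d) ^ 5 := by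
        have : (3 + d) ^ 5 = 243 + 405 * d + 270 * d ^ 2 + 90 * d ^ 3 + 15 * d ^ 4 + d ^ 5 := by
          ring
        rw [this]
        have := pow_nonneg hd 2
        have := pow_nonneg hd 3
        have := pow_nonneg hd 4
        have := pow_nonneg hd 5
        linarith
      linarith

theorem log3_ge {t : ℝ} (ht : 0 ≤ t) : 1 ≤ Real.log (3 + t) := by
  rw [Real.le_log_iff_exp_le (by linarith)]
  have := Real.exp_one_lt_d9
  linarith

theorem llog {s d : ℝ} (hs : 0 ≤ s) (hd : 0 ≤ d) (h : 3 + s ≤ (3 + d) ^ 5) :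
    Real.log (3 + Real.log (3 + s)) ≤ 2 * Real.log (3 + Real.log (3 + d)) := by
  have h1 : Real.log (3 + s) ≤ 5 * Real.log (3 + d) := by
    have := Real.log_le_log (by linarith) h
    rwa [Real.log_pow, Nat.cast_ofNat] at this
  have h2 := log3_ge hd
  have h3 := log3_ge hs
  have h4 : 3 + Real.log (3 + s) ≤ (3 + Real.log (3 + d)) ^ 2 := by nlinarith
  have h5 := Real.log_le_log (by linarith) h4
  rwa [Real.log_pow, Nat.cast_ofNat] at h5

theorem w_low {ξ : E 2} (h : ξ ∈ Lo) : w2 12 ‖ξ‖ ≤ 4096 * w2 12 |ξ 1| := by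
  unfold w2
  have h1 := llog (norm_nonneg ξ) (abs_nonneg (ξ 1)) (Lo_bd h)
  have h2 := log3_ge (le_trans zero_le_one (log3_ge (norm_nonneg ξ)))
  have h3 := pow_le_pow_left₀ (by linarith) h1 12
  have e : (4096 : ℝ≥0∞) = ENNReal.ofReal 4096 := by norm_num
  rw [e, ← ENNReal.ofReal_mul (by norm_num)]
  refine ENNReal.ofReal_le_ofReal (h3.trans (le_of_eq ?_))
  rw [mul_pow]
  norm_num

theorem w_high (d : ℝ) (hd : 0 ≤ d) : w2 2 d ≤ w2 12 d := by
  unfold w2
  refine ENNReal.ofReal_le_ofReal (pow_le_pow_right₀ ?_ (by norm_num))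
  exact log3_ge (le_trans zero_le_one (log3_ge hd))

theorem w2_meas (p : ℕ) : Measurable (fun ξ : E 2 => w2 p |ξ 1|) := by
  unfold w2
  fun_prop

end FPS_

open FPS_ in
theorem p_FPS (h1 : T_FBL) : T_FPS := by
  intro hcar hlll
  obtain ⟨C1, hC1⟩ := hlll
  obtain ⟨C2, hC2⟩ := h1 hcar 1
  refine ⟨4 * (C1 * 4096) + 4 * C2, fun g x0 hg => ?_⟩
  have hlo : Measurable (Lo.indicator g) := hg.indicator Lo_meas
  have hhi : Measurable (Loᶜ.indicator g) := hg.indicator Lo_meas.compl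
  have a1 := hC1 (Lo.indicator g) x0 hlo
  have a2 := hC2 (Loᶜ.indicator g) x0 hhi (by
    intro n ξ hξ h2 h3
    rw [norm_tl] at h2 h3
    by_contra hcon
    have hmem : ξ ∈ Lo := mem_iUnion.2 ⟨n, h2, h3, not_le.1 hcon⟩
    exact hξ (indicator_of_notMem (by simpa using hmem) g))
  have b1 : ∫⁻ ξ, ‖Lo.indicator g ξ‖ₑ ^ 2 * w2 12 ‖ξ‖ ≤
      4096 * ∫⁻ ξ, ‖g ξ‖ₑ ^ 2 * w2 12 |ξ 1| := by
    rw [← lintegral_const_mul' _ _ (by norm_num)]
    refine lintegral_mono fun ξ => ?_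
    by_cases h : ξ ∈ Lo
    · rw [indicator_of_mem h]
      calc ‖g ξ‖ₑ ^ 2 * w2 12 ‖ξ‖ ≤ ‖g ξ‖ₑ ^ 2 * (4096 * w2 12 |ξ 1|) := by
            gcongr
            exact w_low h
        _ = 4096 * (‖g ξ‖ₑ ^ 2 * w2 12 |ξ 1|) := by ring
    · rw [indicator_of_notMem h]
      simp
  have b2 : ∫⁻ ξ, ‖Loᶜ.indicator g ξ‖ₑ ^ 2 * w2 2 ‖tl (m := 1) ξ‖ ≤
      ∫⁻ ξ, ‖g ξ‖ₑ ^ 2 * w2 12 |ξ 1| := by
    refine lintegral_mono fun ξ => ?_
    rw [norm_tl]
    by_cases h : ξ ∈ Loᶜ
    · rw [indicator_of_mem h]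
      gcongr
      exact w_high _ (abs_nonneg _)
    · rw [indicator_of_notMem h]
      simp
  calc ∫⁻ x in Metric.closedBall x0 1, Mx g x ^ 2
      ≤ ∫⁻ x in Metric.closedBall x0 1, (4 * Mx (Lo.indicator g) x ^ 2 +
          4 * Mx (Loᶜ.indicator g) x ^ 2) := by
        refine lintegral_mono fun x => ?_
        exact (pow_le_pow_left' (Mx_add hg Lo_meas x) 2).trans (sq_add_le _ _)
    _ = 4 * (∫⁻ x in Metric.closedBall x0 1, Mx (Lo.indicator g) x ^ 2) +
          4 * ∫⁻ x in Metric.closedBall x0 1, Mx (Loᶜ.indicator g) x ^ 2 := by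
        rw [lintegral_add_left (((Mx_meas hlo).pow_const 2).const_mul 4),
          lintegral_const_mul' _ _ (by norm_num), lintegral_const_mul' _ _ (by norm_num)]
    _ ≤ 4 * (C1 * (4096 * ∫⁻ ξ, ‖g ξ‖ₑ ^ 2 * w2 12 |ξ 1|)) +
          4 * (C2 * ∫⁻ ξ, ‖g ξ‖ₑ ^ 2 * w2 12 |ξ 1|) := by
        gcongr
        · exact a1.trans (by gcongr)
        · exact a2.trans (by gcongr)
    _ = _ := by
        push_cast
        ring

end Pool.Agent.CRF
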