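import Pool.Agent.CRF.Targets

set_option autoImplicit false

/-!
# CRF, target FPW: the plane, weak type
-/

namespace Pool.Agent.CRF

open MeasureTheory FourierTransform Set Filter Topology
open scoped ENNReal NNReal
open Pool.Agent.MBS (E ex S Sstar)
open Pool.Agent.CAR (e1)
open Pool.Agent.CRN (IN T_CARLS T_RAYN T_AHN Nice)

namespace FPW_

/-! ### the maximal function -/

theorem norm_ex {n : ℕ} (x ξ : E n) : ‖ex x ξ‖ = 1 := by
  unfold ex
  rw [show (2 : ℂ) * Real.pi * Complex.I * ((inner ℝ x ξ : ℝ) : ℂ) =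
    ((2 * Real.pi * inner ℝ x ξ : ℝ) : ℂ) * Complex.I by push_cast; ring]
  exact Complex.norm_exp_ofReal_mul_I _

theorem cont_ex {n : ℕ} : Continuous fun p : E n × E n => ex p.1 p.2 := by
  unfold ex
  fun_prop

theorem int_iff {n : ℕ} {g : E n → ℂ} (hg : Measurable g) (x : E n) (B : Set (E n)) :
    IntegrableOn (fun ξ => g ξ * ex x ξ) B ↔ IntegrableOn g B := by
  have hm : Measurable fun ξ => ex x ξ :=
    (cont_ex.comp (Continuous.prodMk continuous_const continuous_id)).measurable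
  unfold IntegrableOn
  have hgm : AEStronglyMeasurable (fun ξ => g ξ * ex x ξ) (volume.restrict B) :=
    (hg.mul hm).aestronglyMeasurable
  rw [← integrable_norm_iff hgm, ← integrable_norm_iff hg.aestronglyMeasurable]
  have e : (fun ξ => ‖g ξ * ex x ξ‖) = fun ξ => ‖g ξ‖ := by
    funext ξ
    rw [norm_mul, norm_ex, mul_one]
  rw [e]

theorem cont_int {n : ℕ} {g : E n → ℂ} (hg : Measurable g) (R : ℝ) :
    Continuous fun x : E n => ∫ ξ in Metric.closedBall (0 : E n) R, g ξ * ex x ξ := by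
  by_cases hi : IntegrableOn g (Metric.closedBall (0 : E n) R)
  · refine continuous_of_dominated (bound := fun ξ => ‖g ξ‖) ?_ ?_ hi.norm ?_
    · intro x
      exact (hg.mul (cont_ex.comp
        (Continuous.prodMk continuous_const continuous_id)).measurable).aestronglyMeasurable
    · intro x
      refine Eventually.of_forall fun ξ => ?_
      rw [norm_mul, norm_ex, mul_one]
    · refine Eventually.of_forall fun ξ => ?_
      exact continuous_const.mul (cont_ex.comp (Continuous.prodMk continuous_id continuous_const))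
  · have e : (fun x : E n => ∫ ξ in Metric.closedBall (0 : E n) R, g ξ * ex x ξ) =
        fun _ => (0 : ℂ) := by
      funext x
      exact integral_undef fun h => hi ((int_iff hg x _).1 h)
    rw [e]
    exact continuous_const

theorem meas_Mx {n : ℕ} {g : E n → ℂ} (hg : Measurable g) : Measurable fun x => Mx g x := by
  unfold Mx
  refine LowerSemicontinuous.measurable ?_
  refine lowerSemicontinuous_iSup fun R => lowerSemicontinuous_iSup fun _ => ?_
  exact (cont_int hg R).enorm.lowerSemicontinuous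

theorem Mx_add {n : ℕ} {g : E n → ℂ} (hg : Measurable g) {A : Set (E n)}
    (hA : MeasurableSet A) (x : E n) :
    Mx g x ≤ Mx (A.indicator g) x + Mx (Aᶜ.indicator g) x := by
  refine iSup₂_le fun R hR => ?_
  by_cases hi : IntegrableOn g (Metric.closedBall (0 : E n) R)
  · have e : ∫ ξ in Metric.closedBall (0 : E n) R, g ξ * ex x ξ =
        (∫ ξ in Metric.closedBall (0 : E n) R, A.indicator g ξ * ex x ξ) +
        ∫ ξ in Metric.closedBall (0 : E n) R, Aᶜ.indicator g ξ * ex x ξ := by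
      rw [← integral_add ((int_iff (hg.indicator hA) x _).2 (Integrable.indicator hi hA))
        ((int_iff (hg.indicator hA.compl) x _).2 (Integrable.indicator hi hA.compl))]
      refine integral_congr_ae (Eventually.of_forall fun ξ => ?_)
      show g ξ * ex x ξ = A.indicator g ξ * ex x ξ + Aᶜ.indicator g ξ * ex x ξ
      by_cases hξ : ξ ∈ A
      · rw [indicator_of_mem hξ, indicator_of_notMem (by simpa using hξ), zero_mul, add_zero]
      · rw [indicator_of_notMem hξ, indicator_of_mem (by simpa using hξ), zero_mul, zero_add]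
    rw [e]
    refine (enorm_add_le _ _).trans (add_le_add ?_ ?_)
    · exact le_iSup₂ (f := fun (R : ℝ) (_ : 0 < R) =>
        ‖∫ ξ in Metric.closedBall (0 : E n) R, A.indicator g ξ * ex x ξ‖ₑ) R hR
    · exact le_iSup₂ (f := fun (R : ℝ) (_ : 0 < R) =>
        ‖∫ ξ in Metric.closedBall (0 : E n) R, Aᶜ.indicator g ξ * ex x ξ‖ₑ) R hR
  · rw [integral_undef fun h => hi ((int_iff hg x _).1 h), enorm_zero]
    exact zero_le

/-! ### the weights -/

theorem log3 {d : ℝ} (hd : 0 ≤ d) : 1 ≤ Real.log (3 + d) := by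
  rw [Real.le_log_iff_exp_le (by linarith)]
  have := Real.exp_one_lt_d9
  linarith

theorem w2_mono (p q : ℕ) (hpq : p ≤ q) {d : ℝ} (hd : 0 ≤ d) : w2 p d ≤ w2 q d := by
  unfold w2
  refine ENNReal.ofReal_le_ofReal (pow_le_pow_right₀ ?_ hpq)
  exact log3 (by linarith [log3 hd])

theorem w2_low {d t : ℝ} (hd : 0 ≤ d) (ht : 0 ≤ t) (h : t ≤ 8 + 2 * d ^ 4) (p : ℕ) :
    w2 p t ≤ 3 ^ p * w2 p d := by
  have h1 : Real.log (3 + t) ≤ 5 * Real.log (3 + d) := by
    rw [show 5 * Real.log (3 + d) = Real.log ((3 + d) ^ 5) by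
      rw [Real.log_pow]; norm_num]
    refine Real.log_le_log (by linarith) ?_
    have e : (3 + d) ^ 5 = 243 + 405 * d + 270 * d ^ 2 + 90 * d ^ 3 + 15 * d ^ 4 + d ^ 5 := by
      ring
    rw [e]
    have h2 : 0 ≤ d ^ 2 := by positivity
    have h3 : 0 ≤ d ^ 3 := by positivity
    have h4 : 0 ≤ d ^ 4 := by positivity
    have h5 : 0 ≤ d ^ 5 := by positivity
    linarith
  have hL := log3 hd
  have hT := log3 ht
  have h6 : Real.log (3 + Real.log (3 + t)) ≤ 3 * Real.log (3 + Real.log (3 + d)) := by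
    have h7 : Real.log (3 + Real.log (3 + t)) ≤ Real.log (5 * (3 + Real.log (3 + d))) :=
      Real.log_le_log (by linarith) (by linarith)
    have h8 : Real.log (5 * (3 + Real.log (3 + d))) =
        Real.log 5 + Real.log (3 + Real.log (3 + d)) :=
      Real.log_mul (by norm_num) (by linarith)
    have h9 : Real.log 5 ≤ 2 * Real.log (3 + Real.log (3 + d)) := by
      rw [show 2 * Real.log (3 + Real.log (3 + d)) = Real.log ((3 + Real.log (3 + d)) ^ 2) by
        rw [Real.log_pow]; norm_num]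
      refine Real.log_le_log (by norm_num) ?_
      nlinarith
    linarith
  have h10 : 0 ≤ Real.log (3 + Real.log (3 + t)) := by
    linarith [log3 (show 0 ≤ Real.log (3 + t) by linarith)]
  unfold w2
  calc ENNReal.ofReal (Real.log (3 + Real.log (3 + t)) ^ p)
      ≤ ENNReal.ofReal ((3 * Real.log (3 + Real.log (3 + d))) ^ p) :=
        ENNReal.ofReal_le_ofReal (pow_le_pow_left₀ h10 h6 p)
    _ = 3 ^ p * ENNReal.ofReal (Real.log (3 + Real.log (3 + d)) ^ p) := by
        rw [mul_pow, ENNReal.ofReal_mul (by positivity), ENNReal.ofReal_pow (by norm_num)]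
        norm_num

/-! ### the blocks -/

/-- the low part -/
def Lo (n : ℕ) : Set (E (n + 1)) := {ξ | ∃ k : ℕ, ‖tl ξ‖ ≤ 2 ^ (2 ^ k) ∧
  (k = 0 ∨ 2 ^ (2 ^ (k - 1)) < ‖tl ξ‖) ∧ ‖ξ‖ < 2 * ((2 : ℝ) ^ (2 ^ k)) ^ 2}

theorem cont_tl {n : ℕ} : Continuous fun x : E (n + 1) => tl x := by
  unfold tl
  refine (PiLp.continuous_toLp 2 _).comp (continuous_pi fun i => ?_)
  fun_prop

theorem meas_Lo (n : ℕ) : MeasurableSet (Lo n) := by
  have e : Lo n = ⋃ k : ℕ, {ξ : E (n + 1) | ‖tl ξ‖ ≤ 2 ^ (2 ^ k) ∧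
      (k = 0 ∨ 2 ^ (2 ^ (k - 1)) < ‖tl ξ‖) ∧ ‖ξ‖ < 2 * ((2 : ℝ) ^ (2 ^ k)) ^ 2} := by
    ext ξ
    simp [Lo]
  rw [e]
  refine MeasurableSet.iUnion fun k => ?_
  have ht : Continuous fun ξ : E (n + 1) => ‖tl ξ‖ := cont_tl.norm
  refine (measurableSet_le ht.measurable measurable_const).inter (MeasurableSet.inter ?_
    (measurableSet_lt continuous_norm.measurable measurable_const))
  by_cases hk : k = 0
  · simp only [hk, true_or]
    exact MeasurableSet.univ
  · simp only [hk, false_or]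
    exact measurableSet_lt measurable_const ht.measurable

theorem Lo_bound {n : ℕ} {ξ : E (n + 1)} (h : ξ ∈ Lo n) : ‖ξ‖ ≤ 8 + 2 * ‖tl ξ‖ ^ 4 := by
  obtain ⟨k, h1, h2, h3⟩ := h
  have ht : 0 ≤ ‖tl ξ‖ := norm_nonneg _
  rcases h2 with rfl | h2
  · norm_num at h3
    have : 0 ≤ ‖tl ξ‖ ^ 4 := by positivity
    linarith
  · rcases Nat.eq_zero_or_pos k with rfl | hk
    · norm_num at h3
      have : 0 ≤ ‖tl ξ‖ ^ 4 := by positivity
      linarith
    · obtain ⟨m, rfl⟩ : ∃ m, k = m + 1 := ⟨k - 1, by omega⟩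
      rw [Nat.add_sub_cancel] at h2
      have e : ((2 : ℝ) ^ (2 ^ (m + 1))) ^ 2 = ((2 : ℝ) ^ (2 ^ m)) ^ 4 := by
        rw [← pow_mul, ← pow_mul]
        congr 1
        ring
      rw [e] at h3
      have h4 : ((2 : ℝ) ^ (2 ^ m)) ^ 4 ≤ ‖tl ξ‖ ^ 4 := pow_le_pow_left₀ (by positivity) h2.le 4
      linarith

theorem norm_tl (ξ : E 2) : ‖tl ξ‖ = |ξ 1| := by
  rw [EuclideanSpace.norm_eq]
  simp only [Finset.univ_unique, Fin.default_eq_zero, Finset.sum_singleton]
  rw [Real.sqrt_sq (norm_nonneg _), Real.norm_eq_abs]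
  rfl

theorem ind_le {n : ℕ} (g : E n → ℂ) (A : Set (E n)) (ξ : E n) :
    ‖A.indicator g ξ‖ₑ ^ 2 ≤ ‖g ξ‖ₑ ^ 2 := by
  by_cases hξ : ξ ∈ A
  · rw [indicator_of_mem hξ]
  · rw [indicator_of_notMem hξ, enorm_zero]
    simp

end FPW_

open FPW_ in
theorem p_FPW (h1 : T_FBL) : T_FPW := by
  intro hC hW
  obtain ⟨C1, h1⟩ := h1 hC 1
  obtain ⟨C2, h2⟩ := hW
  refine ⟨4 * (3 ^ 11 * C2 + C1), fun g x0 l hg => ?_⟩
  have hLm := meas_Lo 1
  have hlow : (l / 2) ^ 2 * volume {x ∈ Metric.closedBall x0 1 |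
      l / 2 < Mx ((Lo 1).indicator g) x} ≤
      3 ^ 11 * C2 * ∫⁻ ξ, ‖g ξ‖ₑ ^ 2 * w2 11 |ξ 1| := by
    refine (h2 _ x0 (l / 2) (hg.indicator hLm)).trans ?_
    rw [mul_comm (3 ^ 11 : ℝ≥0∞) (C2 : ℝ≥0∞), mul_assoc]
    refine mul_le_mul_right ?_ _
    rw [← lintegral_const_mul' _ _ (by norm_num)]
    refine lintegral_mono fun ξ => ?_
    by_cases hξ : ξ ∈ Lo 1
    · rw [indicator_of_mem hξ]
      have h3 := w2_low (norm_nonneg (tl ξ)) (norm_nonneg ξ) (Lo_bound hξ) 11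
      rw [norm_tl] at h3
      calc ‖g ξ‖ₑ ^ 2 * w2 11 ‖ξ‖ ≤ ‖g ξ‖ₑ ^ 2 * (3 ^ 11 * w2 11 |ξ 1|) :=
            mul_le_mul_right h3 _
        _ = _ := by ring
    · rw [indicator_of_notMem hξ, enorm_zero]
      simp
  have hhigh : (l / 2) ^ 2 * volume {x ∈ Metric.closedBall x0 1 |
      l / 2 < Mx ((Lo 1)ᶜ.indicator g) x} ≤
      C1 * ∫⁻ ξ, ‖g ξ‖ₑ ^ 2 * w2 11 |ξ 1| := by
    have h3 := h1 ((Lo 1)ᶜ.indicator g) x0 (hg.indicator hLm.compl) (by
      intro n ξ hξ ha hb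
      by_contra hcon
      push Not at hcon
      apply hξ
      rw [indicator_of_notMem]
      intro hmem
      exact hmem ⟨n, ha, hb, hcon⟩)
    have hm : Measurable fun x => Mx ((Lo 1)ᶜ.indicator g) x := meas_Mx (hg.indicator hLm.compl)
    calc (l / 2) ^ 2 * volume {x ∈ Metric.closedBall x0 1 |
          l / 2 < Mx ((Lo 1)ᶜ.indicator g) x}
        ≤ (l / 2) ^ 2 * (volume.restrict (Metric.closedBall x0 1))
          {x | (l / 2) ^ 2 ≤ Mx ((Lo 1)ᶜ.indicator g) x ^ 2} := by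
          refine mul_le_mul_right ?_ _
          rw [Measure.restrict_apply' Metric.isClosed_closedBall.measurableSet]
          refine measure_mono fun x hx => ⟨?_, hx.1⟩
          exact pow_le_pow_left₀ zero_le hx.2.le 2
      _ ≤ ∫⁻ x in Metric.closedBall x0 1, Mx ((Lo 1)ᶜ.indicator g) x ^ 2 :=
          mul_meas_ge_le_lintegral (hm.pow_const 2) _
      _ ≤ C1 * ∫⁻ ξ, ‖(Lo 1)ᶜ.indicator g ξ‖ₑ ^ 2 * w2 2 ‖tl ξ‖ := h3
      _ ≤ C1 * ∫⁻ ξ, ‖g ξ‖ₑ ^ 2 * w2 11 |ξ 1| := by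
          refine mul_le_mul_right (lintegral_mono fun ξ => ?_) _
          refine mul_le_mul' (ind_le g _ ξ) ?_
          rw [norm_tl]
          exact w2_mono 2 11 (by norm_num) (abs_nonneg _)
  have hsub : {x ∈ Metric.closedBall x0 1 | l < Mx g x} ⊆
      {x ∈ Metric.closedBall x0 1 | l / 2 < Mx ((Lo 1).indicator g) x} ∪
      {x ∈ Metric.closedBall x0 1 | l / 2 < Mx ((Lo 1)ᶜ.indicator g) x} := by
    rintro x ⟨hx1, hx2⟩
    by_contra hcon
    simp only [mem_union, mem_ofPred_eq, not_or, not_and, not_lt] at hcon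
    have h4 := (Mx_add hg hLm x).trans (add_le_add (hcon.1 hx1) (hcon.2 hx1))
    rw [ENNReal.add_halves] at h4
    exact absurd hx2 (not_lt.2 h4)
  have e4 : l ^ 2 = 4 * (l / 2) ^ 2 := by
    calc l ^ 2 = (l / 2 + l / 2) ^ 2 := by rw [ENNReal.add_halves]
      _ = _ := by ring
  calc l ^ 2 * volume {x ∈ Metric.closedBall x0 1 | l < Mx g x}
      ≤ l ^ 2 * (volume {x ∈ Metric.closedBall x0 1 | l / 2 < Mx ((Lo 1).indicator g) x} +
        volume {x ∈ Metric.closedBall x0 1 | l / 2 < Mx ((Lo 1)ᶜ.indicator g) x}) :=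
        mul_le_mul_right ((measure_mono hsub).trans (measure_union_le _ _)) _
    _ = 4 * ((l / 2) ^ 2 * volume {x ∈ Metric.closedBall x0 1 |
          l / 2 < Mx ((Lo 1).indicator g) x} +
        (l / 2) ^ 2 * volume {x ∈ Metric.closedBall x0 1 |
          l / 2 < Mx ((Lo 1)ᶜ.indicator g) x}) := by rw [e4]; ring
    _ ≤ 4 * (3 ^ 11 * C2 * (∫⁻ ξ, ‖g ξ‖ₑ ^ 2 * w2 11 |ξ 1|) +
        C1 * ∫⁻ ξ, ‖g ξ‖ₑ ^ 2 * w2 11 |ξ 1|) :=
        mul_le_mul_right (add_le_add hlow hhigh) _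
    _ = _ := by
        push_cast
        ring

end Pool.Agent.CRF
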