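import Pool.Agent.CRF.Targets

/-!
# CRF: rotations (target T_FRT)
-/

set_option autoImplicit false

namespace Pool.Agent.CRF

open MeasureTheory FourierTransform Set Filter Topology
open scoped ENNReal NNReal
open Pool.Agent.MBS (E ex S Sstar)

namespace FRT_

variable {n : ℕ}

lemma ex_map (A : E n ≃ₗᵢ[ℝ] E n) (x ξ : E n) : ex (A x) (A ξ) = ex x ξ := by
  unfold ex
  rw [A.inner_map_map]

lemma emb (A : E n ≃ₗᵢ[ℝ] E n) : MeasurableEmbedding (A : E n → E n) :=
  A.toHomeomorph.measurableEmbedding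

lemma norm_tl {m : ℕ} (ξ : E (m + 1)) :
    ‖ξ - (ξ 0) • (EuclideanSpace.single 0 1 : E (m + 1))‖ = ‖tl ξ‖ := by
  rw [EuclideanSpace.norm_eq, EuclideanSpace.norm_eq, Fin.sum_univ_succ]
  congr 1
  have h0 : (ξ - (ξ 0) • (EuclideanSpace.single 0 1 : E (m + 1))) 0 = 0 := by
    simp
  rw [h0]
  simp only [norm_zero, ne_eq, OfNat.ofNat_ne_zero, not_false_eq_true, zero_pow, zero_add]
  refine Finset.sum_congr rfl fun i _ => ?_
  congr 2
  simp [tl]

lemma Mx_map (A : E n ≃ₗᵢ[ℝ] E n) (g : E n → ℂ) (x : E n) :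
    Mx (fun ξ => g (A ξ)) x = Mx g (A x) := by
  unfold Mx
  refine iSup_congr fun R => iSup_congr fun _ => ?_
  congr 1
  have h := A.measurePreserving.setIntegral_preimage_emb (emb A)
    (fun ξ => g ξ * ex (A x) ξ) (Metric.closedBall (0 : E n) R)
  rw [A.preimage_closedBall, map_zero] at h
  rw [← h]
  simp only [ex_map]

end FRT_

open FRT_ in
theorem p_FRT : T_FRT := by
  intro m e he
  set v : E (m + 1) := EuclideanSpace.single 0 1 with hv
  have hvn : ‖v‖ = ‖e‖ := by rw [he, hv]; simp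
  set A : E (m + 1) ≃ₗᵢ[ℝ] E (m + 1) := Submodule.reflection (Submodule.span ℝ {v - e})ᗮ with hA
  have hAv : A v = e := Submodule.reflection_sub hvn
  refine ⟨A, ?_, Mx_map A, ?_, ?_, ?_⟩
  · intro ξ
    unfold dl
    rw [← hAv, A.inner_map_map, ← map_smul, ← map_sub, A.norm_map, ← norm_tl]
    congr 3
    rw [hv, EuclideanSpace.inner_single_left]
    simp
  · intro F
    exact A.measurePreserving.lintegral_comp_emb (emb A) F
  · intro F x0
    have h := A.measurePreserving.setLIntegral_comp_preimage_emb (emb A) F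
      (Metric.closedBall x0 1)
    rw [A.preimage_closedBall] at h
    exact h
  · intro P
    exact A.measurePreserving.measure_preimage_emb (emb A) P

end Pool.Agent.CRF
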