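import Pool.Agent.CRF.Targets

/-! # Splitting off the first coordinate -/

set_option autoImplicit false

namespace Pool.Agent.CRF

open MeasureTheory FourierTransform Set Filter Topology
open scoped ENNReal NNReal
open Pool.Agent.MBS (E ex S Sstar)
open Pool.Agent.CAR (e1)

namespace FSP_

/-- `ℝ^(m+1) ≃ ℝ × ℝ^m` as a measurable equivalence -/
noncomputable def eqv (m : ℕ) : E (m + 1) ≃ᵐ ℝ × E m :=
  (MeasurableEquiv.toLp 2 (Fin (m + 1) → ℝ)).symm.trans
    ((MeasurableEquiv.piFinSuccAbove (fun _ : Fin (m + 1) => ℝ) 0).trans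
      ((MeasurableEquiv.refl ℝ).prodCongr (MeasurableEquiv.toLp 2 (Fin m → ℝ))))

theorem eqv_mp (m : ℕ) : MeasurePreserving (eqv m) volume volume := by
  have h1 : MeasurePreserving ((MeasurableEquiv.toLp 2 (Fin (m + 1) → ℝ)).symm) :=
    EuclideanSpace.volume_preserving_symm_measurableEquiv_toLp (Fin (m + 1))
  have h2 := volume_preserving_piFinSuccAbove (fun _ : Fin (m + 1) => ℝ) 0
  have h3 : MeasurePreserving (MeasurableEquiv.toLp 2 (Fin m → ℝ)) :=
    (EuclideanSpace.volume_preserving_symm_measurableEquiv_toLp (Fin m)).symm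
  have h4 : MeasurePreserving (((MeasurableEquiv.refl ℝ).prodCongr
      (MeasurableEquiv.toLp 2 (Fin m → ℝ)))) (volume : Measure (ℝ × (Fin m → ℝ)))
      (volume : Measure (ℝ × E m)) :=
    (MeasurePreserving.id (volume : Measure ℝ)).prod h3
  exact h4.comp (h2.comp h1)

theorem eqv_apply {m : ℕ} (x : E (m + 1)) : eqv m x = (x 0, tl x) := by
  refine Prod.ext rfl ?_
  ext i
  simp only [eqv, tl]
  rfl

theorem jn_zero {m : ℕ} (t : ℝ) (y : E m) : jn t y 0 = t := rfl

theorem jn_succ {m : ℕ} (t : ℝ) (y : E m) (i : Fin m) : jn t y i.succ = y i := rfl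

theorem tl_apply {m : ℕ} (x : E (m + 1)) (i : Fin m) : tl x i = x i.succ := rfl

theorem tl_jn {m : ℕ} (t : ℝ) (y : E m) : tl (jn t y) = y := by
  ext i
  rw [tl_apply, jn_succ]

theorem jn_tl {m : ℕ} (x : E (m + 1)) : jn (x 0) (tl x) = x := by
  ext i
  refine Fin.cases ?_ (fun i => ?_) i
  · rw [jn_zero]
  · rw [jn_succ, tl_apply]

theorem eqv_symm_apply {m : ℕ} (t : ℝ) (y : E m) : (eqv m).symm (t, y) = jn t y := by
  rw [MeasurableEquiv.symm_apply_eq, eqv_apply, jn_zero, tl_jn]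

theorem jn_cont {m : ℕ} : Continuous (fun p : ℝ × E m => jn p.1 p.2) := by
  refine (PiLp.continuous_toLp 2 _).comp ?_
  refine continuous_pi fun i => ?_
  refine Fin.cases ?_ (fun i => ?_) i
  · exact continuous_fst
  · exact (PiLp.continuous_apply 2 _ i).comp continuous_snd

theorem tl_cont {m : ℕ} : Continuous (fun x : E (m + 1) => tl x) := by
  refine (PiLp.continuous_toLp 2 _).comp ?_
  refine continuous_pi fun i => ?_
  exact PiLp.continuous_apply 2 _ _

theorem norm_sq_split {m : ℕ} (x : E (m + 1)) : ‖x‖ ^ 2 = x 0 ^ 2 + ‖tl x‖ ^ 2 := by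
  rw [EuclideanSpace.norm_sq_eq, EuclideanSpace.norm_sq_eq, Fin.sum_univ_succ]
  simp only [Real.norm_eq_abs, sq_abs, tl_apply]

theorem inner_split {m : ℕ} (x ξ : E (m + 1)) :
    (inner ℝ x ξ : ℝ) = x 0 * ξ 0 + inner ℝ (tl x) (tl ξ) := by
  rw [PiLp.inner_apply, PiLp.inner_apply, Fin.sum_univ_succ]
  simp only [tl_apply]
  congr 1
  simp [mul_comm]

theorem ex_split {m : ℕ} (x ξ : E (m + 1)) :
    ex x ξ = e1 (x 0 * ξ 0) * ex (tl x) (tl ξ) := by
  unfold MBS.ex CAR.e1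
  rw [inner_split, ← Complex.exp_add]
  congr 1
  push_cast
  ring

theorem lint {m : ℕ} (F : E (m + 1) → ℝ≥0∞) (hF : Measurable F) :
    ∫⁻ x, F x = ∫⁻ t : ℝ, ∫⁻ y : E m, F (jn t y) := by
  have h := (eqv_mp m).symm
  rw [← h.lintegral_comp hF]
  have hm : AEMeasurable (fun p : ℝ × E m => F ((eqv m).symm p)) (volume.prod volume) :=
    (hF.comp (eqv m).symm.measurable).aemeasurable
  rw [Measure.volume_eq_prod, lintegral_prod _ hm]
  simp only [eqv_symm_apply]

theorem int {m : ℕ} (F : E (m + 1) → ℂ) (hF : Integrable F) :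
    ∫ x, F x = ∫ t : ℝ, ∫ y : E m, F (jn t y) := by
  have h := (eqv_mp m).symm
  rw [← h.integral_comp (eqv m).symm.measurableEmbedding F]
  have hI : Integrable (F ∘ (eqv m).symm) :=
    (h.integrable_comp_emb (eqv m).symm.measurableEmbedding).mpr hF
  rw [Measure.volume_eq_prod] at hI ⊢
  rw [integral_prod (fun p => F ((eqv m).symm p)) hI]
  simp only [eqv_symm_apply]

end FSP_

theorem p_FSP : T_FSP := by
  intro m
  refine ⟨fun F hF => FSP_.lint F hF, fun F hF => FSP_.int F hF, FSP_.jn_cont, FSP_.tl_cont,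
    fun t y => ⟨FSP_.jn_zero t y, FSP_.tl_jn t y, ?_⟩,
    fun x ξ => ⟨FSP_.jn_tl x, FSP_.ex_split x ξ, FSP_.norm_sq_split x⟩⟩
  rw [FSP_.norm_sq_split, FSP_.jn_zero, FSP_.tl_jn]

end Pool.Agent.CRF
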