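import Pool.Agent.CRF.Targets
import Pool.Agent.MBS.J1

set_option autoImplicit false

/-!
# CRF: radii at most `2^M` on a unit ball, for all `g ∈ L²` (target LOWG)
-/

namespace Pool.Agent.CRF

open MeasureTheory FourierTransform Set Filter Topology
open scoped ENNReal NNReal
open Pool.Agent.MBS (E ex S Sstar ex_norm ex_continuous)
open Pool.Agent.CAR (e1)
open Pool.Agent.CRN (IN T_CARLS T_RAYN T_AHN Nice SH sg)

namespace LOWG_

variable {n : ℕ}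

/-- the ball integral -/
noncomputable def bi (g : E n → ℂ) (R : ℝ) (x : E n) : ℂ :=
  ∫ ξ in Metric.closedBall (0 : E n) R, g ξ * ex x ξ

theorem sq_add (a b : ℝ≥0∞) : (a + b) ^ 2 ≤ 4 * a ^ 2 + 4 * b ^ 2 := by
  rcases le_total a b with h | h
  · calc (a + b) ^ 2 ≤ (b + b) ^ 2 := pow_le_pow_left' (add_le_add_left h b) 2
      _ = 4 * b ^ 2 := by ring
      _ ≤ _ := le_add_self
  · calc (a + b) ^ 2 ≤ (a + a) ^ 2 := pow_le_pow_left' (add_le_add_right h a) 2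
      _ = 4 * a ^ 2 := by ring
      _ ≤ _ := le_self_add

theorem sqrt_sq (X : ℝ≥0∞) : (X ^ (1 / (2 : ℝ))) ^ 2 = X := by
  rw [← ENNReal.rpow_natCast, ← ENNReal.rpow_mul]
  norm_num

theorem le_sqrt {X K : ℝ≥0∞} (h : X ^ 2 ≤ K) : X ≤ K ^ (1 / (2 : ℝ)) := by
  have h1 := ENNReal.rpow_le_rpow h (show (0 : ℝ) ≤ 1 / 2 by norm_num)
  rw [← ENNReal.rpow_natCast, ← ENNReal.rpow_mul] at h1
  norm_num at h1
  simpa using h1

theorem cs_one {F : ℝ → ℝ≥0∞} (hF : Measurable F) {a b : ℝ} (hab : b ≤ a + 1) :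
    (∫⁻ r in Ioc a b, F r) ^ 2 ≤ ∫⁻ r in Ioc a b, F r ^ 2 := by
  have h := ENNReal.lintegral_mul_le_Lp_mul_Lq (volume.restrict (Ioc a b))
    Real.HolderConjugate.two_two (f := F) (g := fun _ => 1) hF.aemeasurable
    measurable_const.aemeasurable
  have h2 := pow_le_pow_left' h 2
  rw [mul_pow, sqrt_sq, sqrt_sq] at h2
  have h3 : ∫⁻ _ : ℝ in Ioc a b, (1 : ℝ≥0∞) ^ (2 : ℝ) ≤ 1 := by
    simp only [ENNReal.one_rpow, lintegral_const, one_mul, Measure.restrict_apply_univ,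
      Real.volume_Ioc]
    rw [← ENNReal.ofReal_one]
    exact ENNReal.ofReal_le_ofReal (by linarith)
  simp only [Pi.mul_apply, mul_one] at h2
  calc (∫⁻ r in Ioc a b, F r) ^ 2 ≤ _ := h2
    _ ≤ (∫⁻ r in Ioc a b, F r ^ (2 : ℝ)) * 1 := mul_le_mul_right h3 _
    _ = _ := by simp

theorem intOn {g : E n → ℂ} (hg : Measurable g) (h2 : ∫⁻ ξ, ‖g ξ‖ₑ ^ 2 ≠ ⊤) (R : ℝ) :
    IntegrableOn g (Metric.closedBall (0 : E n) R) := by
  refine ⟨hg.aestronglyMeasurable, ?_⟩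
  rw [hasFiniteIntegral_iff_enorm]
  have hle : ∀ ξ, ‖g ξ‖ₑ ≤ 1 + ‖g ξ‖ₑ ^ 2 := by
    intro ξ
    rcases le_total ‖g ξ‖ₑ 1 with h | h
    · exact le_trans h le_self_add
    · refine le_trans ?_ le_add_self
      calc ‖g ξ‖ₑ = ‖g ξ‖ₑ * 1 := (mul_one _).symm
        _ ≤ ‖g ξ‖ₑ * ‖g ξ‖ₑ := mul_le_mul_right h _
        _ = _ := (pow_two _).symm
  calc ∫⁻ ξ in Metric.closedBall (0 : E n) R, ‖g ξ‖ₑ
      ≤ ∫⁻ ξ in Metric.closedBall (0 : E n) R, (1 + ‖g ξ‖ₑ ^ 2) := lintegral_mono hle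
    _ = (∫⁻ ξ in Metric.closedBall (0 : E n) R, 1) +
        ∫⁻ ξ in Metric.closedBall (0 : E n) R, ‖g ξ‖ₑ ^ 2 := lintegral_add_left measurable_const _
    _ < ⊤ := by
      rw [lintegral_const, one_mul, Measure.restrict_apply_univ]
      refine ENNReal.add_lt_top.2 ⟨measure_closedBall_lt_top, ?_⟩
      exact lt_of_le_of_lt (setLIntegral_le_lintegral _ _) (lt_top_iff_ne_top.2 h2)

theorem ex_cont (x : E n) : Continuous (fun ξ : E n => ex x ξ) :=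
  ex_continuous.comp (Continuous.prodMk_right x)

theorem intEx {g : E n → ℂ} {s : Set (E n)} (h : IntegrableOn g s) (x : E n) :
    IntegrableOn (fun ξ => g ξ * ex x ξ) s := by
  refine Integrable.mono h (h.1.mul (ex_cont x).aestronglyMeasurable) (ae_of_all _ fun ξ => ?_)
  rw [norm_mul, ex_norm, mul_one]

theorem ex_add_left (x y ξ : E n) : ex (x + y) ξ = ex x ξ * ex y ξ := by
  unfold ex
  rw [← Complex.exp_add, inner_add_left]
  congr 1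
  push_cast
  ring

/-- the annulus -/
def an (n : ℕ) (a b : ℝ) : Set (E n) := {ξ | a < ‖ξ‖ ∧ ‖ξ‖ ≤ b}

theorem an_meas (a b : ℝ) : MeasurableSet (an n a b) :=
  (measurableSet_lt measurable_const measurable_norm).inter
    (measurableSet_le measurable_norm measurable_const)

theorem bi_sub {g : E n → ℂ} {a b : ℝ} (hab : a ≤ b)
    (hg : IntegrableOn g (Metric.closedBall (0 : E n) b)) (x : E n) :
    bi g b x = bi g a x + ∫ ξ in an n a b, g ξ * ex x ξ := by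
  have hi := intEx hg x
  have hun : Metric.closedBall (0 : E n) b = Metric.closedBall (0 : E n) a ∪ an n a b := by
    ext ξ
    simp only [mem_closedBall_zero_iff, Set.mem_union, an, Set.mem_ofPred_eq]
    constructor
    · intro h
      rcases le_or_gt ‖ξ‖ a with h1 | h1
      · exact Or.inl h1
      · exact Or.inr ⟨h1, h⟩
    · rintro (h | h)
      · exact h.trans hab
      · exact h.2
  have hdisj : Disjoint (Metric.closedBall (0 : E n) a) (an n a b) := by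
    rw [Set.disjoint_left]
    intro ξ h1 h2
    rw [mem_closedBall_zero_iff] at h1
    exact absurd h2.1 (not_lt.2 h1)
  unfold bi
  rw [hun, setIntegral_union hdisj (an_meas a b)]
  · exact hi.mono_set (Metric.closedBall_subset_closedBall hab)
  · exact hi.mono_set (by rw [hun]; exact subset_union_right)

/-- polar coordinates for the annulus -/
theorem an_polar (hp : Pool.Agent.CRN.T_POLN) (hn : 0 < n) {g : E n → ℂ} {a b : ℝ}
    (hg : IntegrableOn g (Metric.closedBall (0 : E n) b)) (x : E n) :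
    ‖∫ ξ in an n a b, g ξ * ex x ξ‖ₑ ≤ ∫⁻ r in Ioc a b, ‖SH g r x‖ₑ := by
  have hi : IntegrableOn (fun ξ => g ξ * ex x ξ) (an n a b) :=
    (intEx hg x).mono_set (fun ξ h => by
      rw [mem_closedBall_zero_iff]
      exact h.2)
  have hF : Integrable ((an n a b).indicator fun ξ => g ξ * ex x ξ) :=
    hi.integrable_indicator (an_meas a b)
  rw [← integral_indicator (an_meas a b), (hp n hn).2.1 _ hF]
  have e : ∀ r ∈ Ioi (0 : ℝ), ((r ^ (n - 1) : ℝ) : ℂ) *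
      ∫ ω, (an n a b).indicator (fun ξ => g ξ * ex x ξ) (r • (ω : E n)) ∂(sg n) =
      (Ioc a b).indicator (fun r => SH g r x) r := by
    intro r hr
    have hr0 : (0 : ℝ) < r := hr
    have hnr : ∀ ω : Metric.sphere (0 : E n) 1, ‖r • (ω : E n)‖ = r := fun ω => by
      rw [norm_smul, Real.norm_of_nonneg hr0.le, mem_sphere_zero_iff_norm.1 ω.2, mul_one]
    by_cases h : r ∈ Ioc a b
    · rw [indicator_of_mem h]
      unfold SH
      congr 1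
      refine integral_congr_ae (ae_of_all _ fun ω => ?_)
      refine indicator_of_mem ?_ _
      show a < ‖r • (ω : E n)‖ ∧ ‖r • (ω : E n)‖ ≤ b
      rw [hnr]
      exact h
    · rw [indicator_of_notMem h]
      have h0 : ∀ ω : Metric.sphere (0 : E n) 1,
          (an n a b).indicator (fun ξ => g ξ * ex x ξ) (r • (ω : E n)) = 0 := by
        intro ω
        refine indicator_of_notMem ?_ _
        show ¬ (a < ‖r • (ω : E n)‖ ∧ ‖r • (ω : E n)‖ ≤ b)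
        rw [hnr]
        exact h
      simp only [h0, integral_zero, mul_zero]
  rw [setIntegral_congr_fun measurableSet_Ioi e]
  refine (enorm_integral_le_lintegral_enorm _).trans ?_
  rw [← lintegral_indicator measurableSet_Ioc]
  refine (setLIntegral_le_lintegral _ _).trans (lintegral_mono fun r => ?_)
  by_cases h : r ∈ Ioc a b
  · rw [indicator_of_mem h, indicator_of_mem h]
  · rw [indicator_of_notMem h, indicator_of_notMem h, enorm_zero]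

/-- joint measurability of the sphere integrals -/
theorem SH_meas (hf : IsFiniteMeasure (sg n)) {g : E n → ℂ} (hg : Measurable g) :
    Measurable fun p : E n × ℝ => SH g p.2 p.1 := by
  unfold SH
  refine Measurable.mul ?_ ?_
  · exact Complex.measurable_ofReal.comp (measurable_snd.pow_const _)
  · refine StronglyMeasurable.measurable ?_
    have hc : Continuous fun q : (E n × ℝ) × Metric.sphere (0 : E n) 1 =>
        q.1.2 • (q.2 : E n) :=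
      (continuous_snd.comp continuous_fst).smul (continuous_subtype_val.comp continuous_snd)
    have hm : Measurable fun q : (E n × ℝ) × Metric.sphere (0 : E n) 1 =>
        g (q.1.2 • (q.2 : E n)) * ex q.1.1 (q.1.2 • (q.2 : E n)) := by
      refine (hg.comp hc.measurable).mul ?_
      exact (ex_continuous.comp ((continuous_fst.comp continuous_fst).prodMk hc)).measurable
    exact hm.stronglyMeasurable.integral_prod_right

theorem SH_shift (g : E n → ℂ) (r : ℝ) (x0 y : E n) :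
    SH g r (x0 + y) = SH (fun ξ => g ξ * ex x0 ξ) r y := by
  unfold SH
  congr 1
  refine integral_congr_ae (ae_of_all _ fun ω => ?_)
  show g _ * ex (x0 + y) _ = g _ * ex x0 _ * ex y _
  rw [ex_add_left]
  ring

/-- the pointwise bound -/
theorem pointwise (hp : Pool.Agent.CRN.T_POLN) (hn : 0 < n) {g : E n → ℂ} (hg : Measurable g)
    (h2 : ∫⁻ ξ, ‖g ξ‖ₑ ^ 2 ≠ ⊤) (M : ℕ) (x : E n) :
    (⨆ R ∈ Ioc (0 : ℝ) (2 ^ M), ‖bi g R x‖ₑ) ^ 2 ≤
      4 * (⨆ (j : ℕ) (_ : j ≤ 2 ^ M), ‖bi g (j : ℝ) x‖ₑ) ^ 2 +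
        4 * ∫⁻ r in Ioi (0 : ℝ), ‖SH g r x‖ₑ ^ 2 := by
  set K : ℝ≥0∞ := 4 * (⨆ (j : ℕ) (_ : j ≤ 2 ^ M), ‖bi g (j : ℝ) x‖ₑ) ^ 2 +
        4 * ∫⁻ r in Ioi (0 : ℝ), ‖SH g r x‖ₑ ^ 2 with hK
  have hfin := (hp n hn).2.2
  have hmx : Measurable fun r : ℝ => ‖SH g r x‖ₑ :=
    ((SH_meas hfin hg).comp (measurable_const.prodMk measurable_id)).enorm
  have key : ∀ R ∈ Ioc (0 : ℝ) (2 ^ M), ‖bi g R x‖ₑ ≤ K ^ (1 / (2 : ℝ)) := by
    intro R hR
    refine le_sqrt ?_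
    have hR0 : 0 ≤ R := hR.1.le
    set j : ℕ := ⌊R⌋₊ with hj
    have hj1 : (j : ℝ) ≤ R := Nat.floor_le hR0
    have hj2 : R < (j : ℝ) + 1 := Nat.lt_floor_add_one R
    have hj3 : j ≤ 2 ^ M := by
      have : (j : ℝ) ≤ ((2 ^ M : ℕ) : ℝ) := by
        push_cast
        exact hj1.trans hR.2
      exact_mod_cast this
    have h1 : ‖bi g R x‖ₑ ≤ ‖bi g (j : ℝ) x‖ₑ + ∫⁻ r in Ioc (j : ℝ) R, ‖SH g r x‖ₑ := by
      rw [bi_sub hj1 (intOn hg h2 R) x]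
      exact (enorm_add_le _ _).trans (add_le_add le_rfl
        (an_polar hp hn (intOn hg h2 R) x))
    have h3 : (∫⁻ r in Ioc (j : ℝ) R, ‖SH g r x‖ₑ) ^ 2 ≤
        ∫⁻ r in Ioi (0 : ℝ), ‖SH g r x‖ₑ ^ 2 := by
      refine (cs_one hmx hj2.le).trans (lintegral_mono_set ?_)
      intro r hr
      exact lt_of_le_of_lt (Nat.cast_nonneg j) hr.1
    have h4 : ‖bi g (j : ℝ) x‖ₑ ≤ ⨆ (j : ℕ) (_ : j ≤ 2 ^ M), ‖bi g (j : ℝ) x‖ₑ :=
      le_iSup₂_of_le (f := fun (j : ℕ) (_ : j ≤ 2 ^ M) => ‖bi g (j : ℝ) x‖ₑ) j hj3 le_rfl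
    calc ‖bi g R x‖ₑ ^ 2 ≤ (‖bi g (j : ℝ) x‖ₑ + ∫⁻ r in Ioc (j : ℝ) R, ‖SH g r x‖ₑ) ^ 2 :=
          pow_le_pow_left' h1 2
      _ ≤ 4 * ‖bi g (j : ℝ) x‖ₑ ^ 2 + 4 * (∫⁻ r in Ioc (j : ℝ) R, ‖SH g r x‖ₑ) ^ 2 := sq_add _ _
      _ ≤ K := add_le_add (mul_le_mul_right (pow_le_pow_left' h4 2) _) (mul_le_mul_right h3 _)
  calc (⨆ R ∈ Ioc (0 : ℝ) (2 ^ M), ‖bi g R x‖ₑ) ^ 2 ≤ (K ^ (1 / (2 : ℝ))) ^ 2 :=
        pow_le_pow_left' (iSup₂_le key) 2
    _ = K := sqrt_sq K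

/-- translation -/
theorem transl (b : E n → ℝ≥0∞) (x0 : E n) :
    ∫⁻ x in Metric.closedBall x0 1, b x = ∫⁻ y in Metric.closedBall (0 : E n) 1, b (x0 + y) := by
  rw [← lintegral_indicator Metric.isClosed_closedBall.measurableSet,
    ← lintegral_indicator Metric.isClosed_closedBall.measurableSet,
    ← lintegral_add_left_eq_self _ x0]
  refine lintegral_congr fun y => ?_
  by_cases h : y ∈ Metric.closedBall (0 : E n) 1
  · have h' : x0 + y ∈ Metric.closedBall x0 1 := by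
      rw [Metric.mem_closedBall, dist_self_add_left]
      exact mem_closedBall_zero_iff.1 h
    rw [indicator_of_mem h, indicator_of_mem h']
  · have h' : x0 + y ∉ Metric.closedBall x0 1 := by
      rw [Metric.mem_closedBall, dist_self_add_left]
      exact fun h'' => h (mem_closedBall_zero_iff.2 h'')
    rw [indicator_of_notMem h, indicator_of_notMem h']

end LOWG_

open LOWG_ in
theorem p_LOWG (h1 : T_RMG) (h2 : Pool.Agent.CRN.T_POLN) (h3 : T_AHN) : T_LOWG := by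
  intro n hn
  obtain ⟨C1, hC1⟩ := h1 n (by omega)
  obtain ⟨C2, hC2⟩ := h3 n hn
  refine ⟨4 * C1 + 4 * C2 + 1, fun M g x0 hg => ?_⟩
  have hone : (1 : ℝ≥0∞) ≤ ((M : ℝ≥0∞) + 1) ^ 2 := one_le_pow₀ le_add_self
  by_cases hfin : ∫⁻ ξ, ‖g ξ‖ₑ ^ 2 = ⊤
  · rw [hfin, ENNReal.mul_top]
    · exact le_top
    · refine mul_ne_zero ?_ (by positivity)
      exact ENNReal.coe_ne_zero.2 (by positivity)
  have hsg := (h2 n (by omega)).2.2
  have hm2 : Measurable fun p : E n × ℝ => ‖SH g p.2 p.1‖ₑ ^ 2 :=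
    (SH_meas hsg hg).enorm.pow_const 2
  have hb : Measurable fun x : E n => 4 * ∫⁻ r in Ioi (0 : ℝ), ‖SH g r x‖ₑ ^ 2 :=
    (hm2.lintegral_prod_right').const_mul 4
  have hA : ∫⁻ x in Metric.closedBall x0 1,
      4 * (⨆ (j : ℕ) (_ : j ≤ 2 ^ M), ‖bi g (j : ℝ) x‖ₑ) ^ 2 ≤
      4 * (C1 * ((M : ℝ≥0∞) + 1) ^ 2 * ∫⁻ ξ, ‖g ξ‖ₑ ^ 2) := by
    rw [lintegral_const_mul' _ _ (by norm_num)]
    exact mul_le_mul_right ((setLIntegral_le_lintegral _ _).trans (hC1 M g hg)) _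
  set g' : E n → ℂ := fun ξ => g ξ * ex x0 ξ with hg'
  have hg'm : Measurable g' := hg.mul (ex_cont x0).measurable
  have hnorm : ∀ ξ, ‖g' ξ‖ₑ = ‖g ξ‖ₑ := fun ξ => by
    rw [hg', ← ofReal_norm, ← ofReal_norm]
    show ENNReal.ofReal ‖g ξ * ex x0 ξ‖ = _
    rw [norm_mul, ex_norm, mul_one]
  have hm3 : Measurable fun p : E n × ℝ => ‖SH g' p.2 p.1‖ₑ ^ 2 :=
    (SH_meas hsg hg'm).enorm.pow_const 2
  have hB : ∫⁻ x in Metric.closedBall x0 1,
      4 * ∫⁻ r in Ioi (0 : ℝ), ‖SH g r x‖ₑ ^ 2 ≤ 4 * (C2 * ∫⁻ ξ, ‖g ξ‖ₑ ^ 2) := by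
    rw [lintegral_const_mul' _ _ (by norm_num), transl]
    refine mul_le_mul_right ?_ _
    simp only [SH_shift]
    rw [lintegral_lintegral_swap hm3.aemeasurable]
    calc ∫⁻ r in Ioi (0 : ℝ), ∫⁻ x in Metric.closedBall (0 : E n) 1, ‖SH g' r x‖ₑ ^ 2
        ≤ ∫⁻ r in Ioi (0 : ℝ), ∫⁻ x in Metric.closedBall (0 : E n) 2, ‖SH g' r x‖ₑ ^ 2 :=
          lintegral_mono fun r =>
            lintegral_mono_set (Metric.closedBall_subset_closedBall (by norm_num))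
      _ ≤ C2 * ∫⁻ ξ, ‖g' ξ‖ₑ ^ 2 := hC2 g' hg'm
      _ = _ := by simp only [hnorm]
  calc ∫⁻ x in Metric.closedBall x0 1, (⨆ R ∈ Ioc (0 : ℝ) (2 ^ M), ‖bi g R x‖ₑ) ^ 2
      ≤ ∫⁻ x in Metric.closedBall x0 1,
        (4 * (⨆ (j : ℕ) (_ : j ≤ 2 ^ M), ‖bi g (j : ℝ) x‖ₑ) ^ 2 +
          4 * ∫⁻ r in Ioi (0 : ℝ), ‖SH g r x‖ₑ ^ 2) :=
        lintegral_mono fun x => pointwise h2 (by omega) hg hfin M x
    _ = _ := lintegral_add_right _ hb
    _ ≤ 4 * (C1 * ((M : ℝ≥0∞) + 1) ^ 2 * ∫⁻ ξ, ‖g ξ‖ₑ ^ 2) +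
        4 * (C2 * ∫⁻ ξ, ‖g ξ‖ₑ ^ 2) := add_le_add hA hB
    _ ≤ 4 * (C1 * ((M : ℝ≥0∞) + 1) ^ 2 * ∫⁻ ξ, ‖g ξ‖ₑ ^ 2) +
        4 * (C2 * (((M : ℝ≥0∞) + 1) ^ 2 * ∫⁻ ξ, ‖g ξ‖ₑ ^ 2)) := by
        gcongr
        calc ∫⁻ ξ, ‖g ξ‖ₑ ^ 2 = 1 * ∫⁻ ξ, ‖g ξ‖ₑ ^ 2 := (one_mul _).symm
          _ ≤ _ := mul_le_mul_left hone _
    _ = (4 * C1 + 4 * C2 : ℝ≥0) * ((M : ℝ≥0∞) + 1) ^ 2 * ∫⁻ ξ, ‖g ξ‖ₑ ^ 2 := by
        push_cast
        ring
    _ ≤ _ := mul_le_mul_left (mul_le_mul_left (ENNReal.coe_le_coe.2 le_self_add) _) _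

end Pool.Agent.CRF
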