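import Pool.Agent.CAR.P_CARL
import Pool.Agent.CRN.All
import Pool.Agent.CRF.P_FSP
import Pool.Agent.CRF.P_FL0
import Pool.Agent.CRF.P_FL1
import Pool.Agent.CRF.P_RMG
import Pool.Agent.CRF.P_LOWG
import Pool.Agent.CRF.P_FBL
import Pool.Agent.CRF.P_FPS
import Pool.Agent.CRF.P_FPW
import Pool.Agent.CRF.P_FPN
import Pool.Agent.CRF.P_FRT
import Pool.Agent.CRF.P_FDN
import Pool.Agent.CRF.P_FAE
import Pool.Agent.CRF.P_FFS
import Pool.Agent.CRF.P_FFW
import Pool.Agent.CRF.P_FFN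
import Pool.Agent.SLog.All

set_option autoImplicit false

/-!
# CRF: assembly (MP_ee701d_an)
-/

namespace Pool.Agent.CRF

open MeasureTheory
open scoped ENNReal NNReal

theorem q_FL0 : T_FL0 := p_FL0 p_FSP Pool.Agent.CRN.p_RAYN

theorem q_FL1 : T_FL1 := p_FL1 p_FSP q_FL0

theorem q_FBL : T_FBL := p_FBL q_FL1

theorem q_FPS : T_FPS := p_FPS q_FBL

theorem q_FPW : T_FPW := p_FPW q_FBL

theorem q_LOWG : T_LOWG := p_LOWG p_RMG Pool.Agent.CRN.p_POLN Pool.Agent.CRN.q_AHN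

theorem q_FPN : T_FPN := p_FPN q_FBL q_LOWG

theorem q_FFS : T_FFS := p_FFS q_FPS p_FRT p_FDN

theorem q_FFW : T_FFW := p_FFW q_FPW p_FRT p_FDN p_FAE

theorem q_FFN : T_FFN := p_FFN q_FPN p_FRT p_FDN p_FAE

theorem q_LLL : T_LLL := by
  obtain ⟨C, hC⟩ := Pool.Agent.SEnd.fFA1s
  exact ⟨C, fun g x0 hg => hC g x0 hg⟩

theorem q_LLW : T_LLW := by
  obtain ⟨C, hC⟩ := Pool.Agent.LLog.fFA1w
  refine ⟨C, fun g x0 l hg => ?_⟩
  rcases eq_or_ne l ⊤ with hl | hl
  · have : {x ∈ Metric.closedBall x0 1 | l < Mx g x} = ∅ := by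
      ext x
      simp [hl]
    rw [this, measure_empty, mul_zero]
    exact zero_le
  · lift l to ℝ≥0 using hl
    have := hC g x0 hg l
    have hset : {x ∈ Metric.closedBall x0 1 | (l : ℝ≥0∞) < Mx g x} =
        {x | (l : ℝ≥0∞) < Mx g x} ∩ Metric.closedBall x0 1 := by
      ext x
      simp only [Set.mem_setOf_eq, Set.mem_inter_iff]
      tauto
    rw [hset]
    have h2 := Measure.restrict_apply' (μ := volume) (s := Metric.closedBall x0 1)
      (t := {x | (l : ℝ≥0∞) < Mx g x}) Metric.isClosed_closedBall.measurableSet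
    rw [← h2]
    exact this

end Pool.Agent.CRF
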