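import Pool.Agent.CRF.P_FDN

set_option autoImplicit false

/-!
# CRF, target FFN: the final result in all dimensions
-/

namespace Pool.Agent.CRF

open MeasureTheory FourierTransform Set Filter Topology
open scoped ENNReal NNReal
open Pool.Agent.MBS (E ex S Sstar)
open Pool.Agent.CAR (e1)
open Pool.Agent.CRN (IN T_CARLS T_RAYN T_AHN Nice)

namespace FFN_

theorem meas_w1 : Measurable w1 := by
  unfold w1
  refine ENNReal.measurable_ofReal.comp ?_
  have h1 : Measurable (fun d : ℝ => Real.log (3 + d)) :=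
    Real.measurable_log.comp (measurable_const.add measurable_id)
  exact (h1.pow_const 2).mul ((Real.measurable_log.comp (measurable_const.add h1)).pow_const 2)

theorem one_le_w1 {d : ℝ} (hd : 0 ≤ d) : 1 ≤ w1 d := by
  unfold w1
  rw [ENNReal.one_le_ofReal]
  have h3 : ∀ x : ℝ, 0 ≤ x → 1 ≤ Real.log (3 + x) := by
    intro x hx
    rw [Real.le_log_iff_exp_le (by linarith)]
    have := Real.exp_one_lt_d9
    linarith
  exact one_le_mul_of_one_le_of_one_le (one_le_pow₀ (h3 d hd))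
    (one_le_pow₀ (h3 _ (by linarith [h3 d hd])))

theorem dl_nonneg {n : ℕ} (e ξ : E n) : 0 ≤ dl e ξ := norm_nonneg _

theorem cont_dl {n : ℕ} (e : E n) : Continuous (dl e) := by
  unfold dl
  fun_prop

theorem one_line (h1 : T_FPN) (h2 : T_FRT) (hC : T_CARLS) (m : ℕ) (hm : 1 ≤ m) :
    ∃ C : ℝ≥0, ∀ (e : E (m + 1)) (g : E (m + 1) → ℂ) (x0 : E (m + 1)), ‖e‖ = 1 → Measurable g →
      ∫⁻ x in Metric.closedBall x0 1, Mx g x ^ 2 ≤
        C * ∫⁻ ξ, ‖g ξ‖ₑ ^ 2 * w1 (dl e ξ) := by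
  obtain ⟨C, hFPN⟩ := h1 hC m hm
  refine ⟨C, fun e g x0 he hg => ?_⟩
  obtain ⟨A, hA1, hA2, hA3, hA4, -⟩ := h2 m e he
  have hgA : Measurable (fun ξ : E (m + 1) => g (A ξ)) := hg.comp A.continuous.measurable
  have h3 := hFPN (fun ξ : E (m + 1) => g (A ξ)) (A.symm x0) hgA
  have h4 : ∫⁻ x in Metric.closedBall (A.symm x0) 1, Mx (fun ξ : E (m + 1) => g (A ξ)) x ^ 2 =
      ∫⁻ x in Metric.closedBall x0 1, Mx g x ^ 2 := by
    rw [← hA4 (fun y => Mx g y ^ 2) x0]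
    refine lintegral_congr fun x => ?_
    rw [← hA2 g x]
  have h5 : ∫⁻ ξ : E (m + 1), ‖g (A ξ)‖ₑ ^ 2 * w1 ‖tl ξ‖ =
      ∫⁻ ξ, ‖g ξ‖ₑ ^ 2 * w1 (dl e ξ) := by
    rw [← hA3 (fun y => ‖g y‖ₑ ^ 2 * w1 (dl e y))]
    refine lintegral_congr fun ξ => ?_
    rw [hA1 ξ]
  rw [h4, h5] at h3
  exact h3

/-- Chebyshev's inequality for the square of the maximal function -/
theorem weak {n : ℕ} {g : E n → ℂ} (hg : Measurable g) (x0 : E n) (l : ℝ≥0∞) :
    l ^ 2 * volume {x ∈ Metric.closedBall x0 1 | l < Mx g x} ≤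
      ∫⁻ x in Metric.closedBall x0 1, Mx g x ^ 2 := by
  have hM : Measurable (Mx g) := FDN_.Mx_meas hg
  have hms : MeasurableSet {x | l < Mx g x} := measurableSet_lt measurable_const hM
  have h0 : {x ∈ Metric.closedBall x0 1 | l < Mx g x} =
      {x | l < Mx g x} ∩ Metric.closedBall x0 1 := by
    ext x
    exact and_comm
  rw [h0, ← Measure.restrict_apply hms]
  refine le_trans ?_ (mul_meas_ge_le_lintegral (μ := volume.restrict (Metric.closedBall x0 1))
    (hM.pow_const 2) (l ^ 2))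
  gcongr with x
  intro hx
  exact pow_le_pow_left' (le_of_lt hx) 2

end FFN_

open FFN_ in
theorem p_FFN (h1 : T_FPN) (h2 : T_FRT) (h3 : T_FDN) (h4 : T_FAE) : T_FFN := by
  intro hC n hn
  obtain ⟨m, rfl⟩ : ∃ m, n = m + 1 := ⟨n - 1, by omega⟩
  obtain ⟨C, hst⟩ := (h3 (m + 1) w1 meas_w1).1 (one_line h1 h2 hC m (by omega))
  refine ⟨C, fun D h hD => ⟨fun g x0 hg => hst D h g x0 hD hg, fun f hf hfin => ?_⟩⟩
  refine h4 (m + 1) (fun ξ => w1 (D.inf' h (fun e => dl e ξ))) ?_ ?_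
    ⟨C * D.card, fun g x0 l hg => ?_⟩ f hf hfin
  · refine meas_w1.comp ?_
    exact (Continuous.finset_inf'_apply h (fun e _ => cont_dl e)).measurable
  · intro ξ
    refine one_le_w1 ?_
    rw [Finset.le_inf'_iff]
    intro e _
    exact dl_nonneg e ξ
  · refine (weak hg x0 l).trans ((hst D h g x0 hD hg).trans (le_of_eq ?_))
    push_cast
    rfl

end Pool.Agent.CRF
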