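import Pool.Agent.CRN.Targets

set_option autoImplicit false

/-!
# CRF: ball partial sums, smoothness transversal to a line only (MP_ee701d_an)

Local maximal inequalities for the ball partial sums with a weight which depends only on the distance of the
frequency `ξ` from a line through the origin (or from the union of finitely many such lines).
Every target `T_X` is to be proved as `theorem p_X : T_X` (other targets may be taken as hypotheses) in a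
NEW file `Pool/Agent/CRF/P_X.lean` importing this one, namespace `Pool.Agent.CRF`, helper lemmas in
the sub-namespace `X_`.
-/

namespace Pool.Agent.CRF

open MeasureTheory FourierTransform Set Filter Topology
open scoped ENNReal NNReal
open Pool.Agent.MBS (E ex S Sstar)
open Pool.Agent.CAR (e1)
open Pool.Agent.CRN (IN T_CARLS T_RAYN T_AHN Nice)

/-- the maximal ball integrals of `g`: for `g = f^` this is `Sstar f` -/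
noncomputable def Mx {n : ℕ} (g : E n → ℂ) (x : E n) : ℝ≥0∞ :=
  ⨆ (R : ℝ) (_ : 0 < R), ‖∫ ξ in Metric.closedBall (0 : E n) R, g ξ * ex x ξ‖ₑ

/-- `(t, y) ∈ ℝ × ℝ^m` as a point of `ℝ^(m+1)` -/
noncomputable def jn {m : ℕ} (t : ℝ) (y : E m) : E (m + 1) :=
  WithLp.toLp 2 (Fin.cons (α := fun _ => ℝ) t (fun i => y i))

/-- the last `m` coordinates -/
noncomputable def tl {m : ℕ} (x : E (m + 1)) : E m := WithLp.toLp 2 (fun i => x i.succ)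

/-- distance of `ξ` from the line through `0` and the unit vector `e` -/
noncomputable def dl {n : ℕ} (e ξ : E n) : ℝ := ‖ξ - (inner ℝ e ξ : ℝ) • e‖

/-- the doubly logarithmic weight of a distance `d` -/
noncomputable def w2 (p : ℕ) (d : ℝ) : ℝ≥0∞ :=
  ENNReal.ofReal (Real.log (3 + Real.log (3 + d)) ^ p)

/-- the logarithmic weight of a distance `d` (for all dimensions) -/
noncomputable def w1 (d : ℝ) : ℝ≥0∞ :=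
  ENNReal.ofReal (Real.log (3 + d) ^ 2 * Real.log (3 + Real.log (3 + d)) ^ 2)

/-- the operator with the linearised phase -/
noncomputable def Op {m : ℕ} (h : E (m + 1) → ℂ) (R : ℝ) (x : E (m + 1)) : ℂ :=
  ∫ ξ in Metric.closedBall (0 : E (m + 1)) R, h ξ * (e1 (x 0 * ‖ξ‖) * ex (tl x) (tl ξ))

/-- first part of `MP_ee701d_an.LogLogLocal` (landed): strong type -/
def T_LLL : Prop := ∃ C : ℝ≥0, ∀ (g : E 2 → ℂ) (x0 : E 2), Measurable g →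
  ∫⁻ x in Metric.closedBall x0 1, Mx g x ^ 2 ≤ C * ∫⁻ ξ, ‖g ξ‖ₑ ^ 2 * w2 12 ‖ξ‖

/-- the weak type version with exponent `11` (landed: `Pool.Agent.LLog.fFA1w`) -/
def T_LLW : Prop := ∃ C : ℝ≥0, ∀ (g : E 2 → ℂ) (x0 : E 2) (l : ℝ≥0∞), Measurable g →
  l ^ 2 * volume {x ∈ Metric.closedBall x0 1 | l < Mx g x} ≤ C * ∫⁻ ξ, ‖g ξ‖ₑ ^ 2 * w2 11 ‖ξ‖

/-- **FSP** (45 min): `ℝ^(m+1) = ℝ × ℝ^m`. Mathlib: `MeasureTheory.volume_preserving_piFinSuccAbove`,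
`EuclideanSpace.volume_preserving_symm_measurableEquiv_toLp`. -/
def T_FSP : Prop := ∀ m : ℕ,
  (∀ F : E (m + 1) → ℝ≥0∞, Measurable F → ∫⁻ x, F x = ∫⁻ t : ℝ, ∫⁻ y : E m, F (jn t y)) ∧
  (∀ F : E (m + 1) → ℂ, Integrable F →
    ∫ x, F x = ∫ t : ℝ, ∫ y : E m, F (jn t y)) ∧
  Continuous (fun p : ℝ × E m => jn p.1 p.2) ∧ Continuous (fun x : E (m + 1) => tl x) ∧
  (∀ (t : ℝ) (y : E m), jn t y 0 = t ∧ tl (jn t y) = y ∧ ‖jn t y‖ ^ 2 = t ^ 2 + ‖y‖ ^ 2) ∧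
  (∀ x ξ : E (m + 1), jn (x 0) (tl x) = x ∧ ex x ξ = e1 (x 0 * ξ 0) * ex (tl x) (tl ξ) ∧
    ‖x‖ ^ 2 = x 0 ^ 2 + ‖tl x‖ ^ 2)

/-- **FL0** (75 min; uses FSP, RAYN (landed: `CRN/P_RAYN.lean`)). We may assume `∫ |h|² < ∞`; `h` is then integrable on
balls. For fixed `z = tl ξ` substitute `t = ξ 0 = √(ρ²-|z|²)`, `dt = ρ/t dρ` (`ρ = |ξ| ≥ 2K ≥ 2|z|`, so
`ρ/t ≤ 2/√3`): `Op h R x = ∫_{Ioc 0 R} H(ρ, tl x) e1(ρ x₀) dρ`,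
`H(ρ,y) = ∫_z h(jn (√(ρ²-|z|²)) z) (ρ/√(ρ²-|z|²)) ex y z dz` (Fubini). For fixed `tl x = y` RAYN (`a = 0`, `s = 1`) in `x₀`:
`≤ C ∫_ρ |H(ρ,y)|²`; integrate over `y`: Plancherel on `ℝ^m` for a.e. fixed `ρ` (bounded support in `z`), and back:
`∫_z ∫_ρ |h(jn ..)|² (ρ/t)² dρ = ∫_z ∫_t |h(jn t z)|² (ρ/t) dt ≤ 2 ∫ |h|²`. -/
def T_FL0 : Prop := T_CARLS → ∀ m : ℕ, ∃ C : ℝ≥0, ∀ (K : ℝ) (h : E (m + 1) → ℂ), 1 ≤ K →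
  Measurable h → (∀ ξ, h ξ ≠ 0 → 0 < ξ 0 ∧ ‖tl ξ‖ ≤ K ∧ 2 * K ≤ ‖ξ‖) →
    ∫⁻ x, (⨆ (R : ℝ) (_ : 0 < R), ‖Op h R x‖ₑ) ^ 2 ≤ C * ∫⁻ ξ, ‖h ξ‖ₑ ^ 2

/-- **FL1** (75 min; uses FSP, FL0): large frequencies near a line. `x0 = 0` after multiplying `g` by `ex x0 ξ`. Split
`g` by the sign of `ξ 0` (`ξ 0 ≠ 0` on the support) and reflect `ξ 0`, `x 0` for the negative part. For `ξ 0 > 0` let
`η = |ξ| - ξ 0 = |tl ξ|²/(|ξ| + ξ 0) ∈ [0, K²/|ξ|] ⊆ [0,1/2]`: `e1(x₀ ξ₀) = e1(x₀ |ξ|) e1(-x₀ η)`,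
`e1(-x₀ η) = 1 - 2πi ∫_0^{x₀} η e1(-sη) ds`, so for `|x₀| ≤ 1` the supremum is at most
`sup_R |Op g R x| + 2π ∫_{-1}^{1} sup_R |Op h_s R x| ds`, `h_s = η e1(-sη) g`, `|h_s| ≤ |g|/2`: FL0 for `g` and all `h_s`,
Cauchy–Schwarz in `s`, Tonelli (the supremum may be taken over rational `R`; `Op h_s R x` is continuous in
`(s, x)`). -/
def T_FL1 : Prop := T_CARLS → ∀ m : ℕ, ∃ C : ℝ≥0, ∀ (K : ℝ) (g : E (m + 1) → ℂ) (x0 : E (m + 1)),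
  1 ≤ K → Measurable g → (∀ ξ, g ξ ≠ 0 → ‖tl ξ‖ ≤ K ∧ 2 * K ^ 2 ≤ ‖ξ‖) →
    ∫⁻ x in Metric.closedBall x0 1, Mx g x ^ 2 ≤ C * ∫⁻ ξ, ‖g ξ‖ₑ ^ 2

/-- **RMG** (45 min): Rademacher–Menshov for integer radii, for all `g ∈ L²`; see `CRN/P_RMN.lean` (there `g = 𝓕 f`).
Only `g` on the ball of radius `2^M` matters, which is in `L¹ ∩ L²`. -/
def T_RMG : Prop := ∀ n : ℕ, 1 ≤ n → ∃ C : ℝ≥0, ∀ (M : ℕ) (g : E n → ℂ), Measurable g →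
  ∫⁻ x, (⨆ (j : ℕ) (_ : j ≤ 2 ^ M), ‖∫ ξ in Metric.closedBall (0 : E n) j, g ξ * ex x ξ‖ₑ) ^ 2 ≤
    C * ((M : ℝ≥0∞) + 1) ^ 2 * ∫⁻ ξ, ‖g ξ‖ₑ ^ 2

/-- **LOWG** (60 min; uses RMG, CRN.POLN, CRN.AHN): radii `≤ 2^M` on any ball of radius `1`, for all `g ∈ L²`; see
`CRN/P_LOWN.lean`. `x0 = 0` after multiplying `g` by `ex x0 ξ`; with `j = ⌊R⌋` the difference of the ball integrals of
radius `R` and `j` is `∫_j^R SH g r x dr` (POLN), and `(∫_j^{j+1} |SH g r x| dr)² ≤ ∫_0^∞ |SH g r x|² dr`; AHN. -/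
def T_LOWG : Prop := ∀ n : ℕ, 2 ≤ n → ∃ C : ℝ≥0, ∀ (M : ℕ) (g : E n → ℂ) (x0 : E n), Measurable g →
  ∫⁻ x in Metric.closedBall x0 1,
      (⨆ R ∈ Ioc (0 : ℝ) (2 ^ M), ‖∫ ξ in Metric.closedBall (0 : E n) R, g ξ * ex x ξ‖ₑ) ^ 2 ≤
    C * ((M : ℝ≥0∞) + 1) ^ 2 * ∫⁻ ξ, ‖g ξ‖ₑ ^ 2

/-- **FBL** (60 min; uses FL1): the high parts of all blocks. `K n = 2^(2^n)`, blocks
`G_0 = {|tl ξ| ≤ K 0}`, `G_{n+1} = {K n < |tl ξ| ≤ K (n+1)}`. If `g` vanishes at the `ξ ∈ G_n` with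
`|ξ| < 2 (K n)²` (all `n`), then `Mx g ≤ Σ_n Mx (g 1_{G_n})` (for fixed `R`, `x` the integral over the ball is the sum of the
integrals over the blocks; `g` is integrable on balls if the right side is finite), FL1 for each block,
`(Σ a_n)² ≤ (Σ (n+1)^(-2)) Σ (n+1)² a_n²`, and `(n+1)² ≤ C w2 2 |tl ξ|` on `G_n`. -/
def T_FBL : Prop := T_CARLS → ∀ m : ℕ, ∃ C : ℝ≥0, ∀ (g : E (m + 1) → ℂ) (x0 : E (m + 1)),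
  Measurable g →
  (∀ (n : ℕ) (ξ : E (m + 1)), g ξ ≠ 0 → ‖tl ξ‖ ≤ 2 ^ (2 ^ n) →
    (n = 0 ∨ 2 ^ (2 ^ (n - 1)) < ‖tl ξ‖) → 2 * ((2 : ℝ) ^ (2 ^ n)) ^ 2 ≤ ‖ξ‖) →
    ∫⁻ x in Metric.closedBall x0 1, Mx g x ^ 2 ≤ C * ∫⁻ ξ, ‖g ξ‖ₑ ^ 2 * w2 2 ‖tl ξ‖

/-- **FPS** (45 min; uses FBL): the plane, strong type. `g = g_low + g_high`, `g_low` = the part of `g` where
`|ξ| < 2 (K n)²`, `n` the block of `ξ` (see FBL). On `g_low` `w2 12 |ξ| ≤ C w2 12 |tl ξ|`: T_LLL. `g_high`: FBL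
(`w2 2 ≤ C w2 12`). -/
def T_FPS : Prop := T_CARLS → T_LLL → ∃ C : ℝ≥0, ∀ (g : E 2 → ℂ) (x0 : E 2), Measurable g →
  ∫⁻ x in Metric.closedBall x0 1, Mx g x ^ 2 ≤ C * ∫⁻ ξ, ‖g ξ‖ₑ ^ 2 * w2 12 |ξ 1|

/-- **FPW** (45 min; uses FBL): the plane, weak type, exponent `11`. As FPS; `{Mx g > l}` is contained in
`{Mx g_low > l/2} ∪ {Mx g_high > l/2}`. -/
def T_FPW : Prop := T_CARLS → T_LLW → ∃ C : ℝ≥0, ∀ (g : E 2 → ℂ) (x0 : E 2) (l : ℝ≥0∞),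
  Measurable g →
  l ^ 2 * volume {x ∈ Metric.closedBall x0 1 | l < Mx g x} ≤ C * ∫⁻ ξ, ‖g ξ‖ₑ ^ 2 * w2 11 |ξ 1|

/-- **FPN** (60 min; uses FBL, LOWG): all dimensions. `g_low = Σ_n h_n`, `h_n` supported in
`{|tl ξ| in the block n, |ξ| < 2 (K n)² ≤ 2^(2^(n+1)+1)}`: LOWG with `M = 2^(n+1)+1` (`Mx h_n` is the supremum over
`R ≤ 2^M`), `(Σ a_n)² ≤ C Σ (n+1)² a_n²`, `(n+1)² 4^n ≤ C w1 |tl ξ|` on the block `n`. `g_high`: FBL. -/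
def T_FPN : Prop := T_CARLS → ∀ m : ℕ, 1 ≤ m → ∃ C : ℝ≥0, ∀ (g : E (m + 1) → ℂ)
  (x0 : E (m + 1)), Measurable g →
  ∫⁻ x in Metric.closedBall x0 1, Mx g x ^ 2 ≤ C * ∫⁻ ξ, ‖g ξ‖ₑ ^ 2 * w1 ‖tl ξ‖

/-- **FRT** (45 min): rotations. For a unit vector `e` of `ℝⁿ` there is a linear isometry `A` of `ℝⁿ` with
`A (basis vector 0) = e` (Mathlib: orthonormal bases extending `e`, or a reflection);
`dl e (A ξ)` = distance of `ξ` from the first axis; `Mx (g ∘ A) x = Mx g (A x)`, `A` preserves volume and maps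
`closedBall x0 1` to `closedBall (A x0) 1`. -/
def T_FRT : Prop := ∀ (m : ℕ) (e : E (m + 1)), ‖e‖ = 1 → ∃ A : E (m + 1) ≃ₗᵢ[ℝ] E (m + 1),
  (∀ ξ, dl e (A ξ) = ‖tl ξ‖) ∧
  (∀ (g : E (m + 1) → ℂ) (x : E (m + 1)), Mx (fun ξ => g (A ξ)) x = Mx g (A x)) ∧
  (∀ F : E (m + 1) → ℝ≥0∞, ∫⁻ x, F (A x) = ∫⁻ x, F x) ∧
  (∀ (F : E (m + 1) → ℝ≥0∞) (x0 : E (m + 1)),
    ∫⁻ x in Metric.closedBall (A.symm x0) 1, F (A x) = ∫⁻ x in Metric.closedBall x0 1, F x) ∧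
  (∀ (P : Set (E (m + 1))) , volume (A ⁻¹' P) = volume P)

/-- **FDN** (45 min): from one line to finitely many lines, strong and weak type, for a monotone weight.
Split `g` into the parts where the minimum over `D` is attained at `e`, for `e ∈ D`:
`(Σ_{e ∈ D} a_e)² ≤ |D| Σ a_e²`; weak: `{Σ a_e > l} ⊆ ∪ {a_e > l/|D|}`. -/
def T_FDN : Prop := ∀ (n : ℕ) (w : ℝ → ℝ≥0∞), Measurable w →
  ((∃ C : ℝ≥0, ∀ (e : E n) (g : E n → ℂ) (x0 : E n), ‖e‖ = 1 → Measurable g →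
      ∫⁻ x in Metric.closedBall x0 1, Mx g x ^ 2 ≤ C * ∫⁻ ξ, ‖g ξ‖ₑ ^ 2 * w (dl e ξ)) →
    ∃ C : ℝ≥0, ∀ (D : Finset (E n)) (h : D.Nonempty) (g : E n → ℂ) (x0 : E n),
      (∀ e ∈ D, ‖e‖ = 1) → Measurable g →
      ∫⁻ x in Metric.closedBall x0 1, Mx g x ^ 2 ≤
        C * D.card * ∫⁻ ξ, ‖g ξ‖ₑ ^ 2 * w (D.inf' h (fun e => dl e ξ))) ∧
  ((∃ C : ℝ≥0, ∀ (e : E n) (g : E n → ℂ) (x0 : E n) (l : ℝ≥0∞), ‖e‖ = 1 → Measurable g →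
      l ^ 2 * volume {x ∈ Metric.closedBall x0 1 | l < Mx g x} ≤
        C * ∫⁻ ξ, ‖g ξ‖ₑ ^ 2 * w (dl e ξ)) →
    ∀ (D : Finset (E n)) (h : D.Nonempty), (∀ e ∈ D, ‖e‖ = 1) →
    ∃ C : ℝ≥0, ∀ (g : E n → ℂ) (x0 : E n) (l : ℝ≥0∞), Measurable g →
      l ^ 2 * volume {x ∈ Metric.closedBall x0 1 | l < Mx g x} ≤
        C * ∫⁻ ξ, ‖g ξ‖ₑ ^ 2 * w (D.inf' h (fun e => dl e ξ)))

/-- **FAE** (60 min): a.e. convergence from a weak type inequality with any weight `≥ 1`. Let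
`g_j = 𝓕f 1_{|ξ| ≤ j} ∈ L¹ ∩ L²`. For `R ≥ j`: `S f R x - IN g_j x = ∫_{|ξ| ≤ R} (𝓕f - g_j) ex x ξ`, so
`limsup_R |S f R x - f x| ≤ Mx (𝓕f - g_j) x + |IN g_j x - f x|`; the weighted norm of `𝓕f - g_j` tends to `0` (dominated
convergence) and `‖IN g_j - f‖₂ → 0` (Plancherel). So `{x ∈ B : limsup > 2ε}` is a null set for each unit ball `B`. -/
def T_FAE : Prop := ∀ (n : ℕ) (W : E n → ℝ≥0∞), Measurable W → (∀ ξ, 1 ≤ W ξ) →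
  (∃ C : ℝ≥0, ∀ (g : E n → ℂ) (x0 : E n) (l : ℝ≥0∞), Measurable g →
    l ^ 2 * volume {x ∈ Metric.closedBall x0 1 | l < Mx g x} ≤ C * ∫⁻ ξ, ‖g ξ‖ₑ ^ 2 * W ξ) →
  ∀ f : E n → ℂ, Nice f → ∫⁻ ξ, ‖𝓕 f ξ‖ₑ ^ 2 * W ξ ≠ ⊤ →
    ∀ᵐ x, Tendsto (fun R : ℝ => S f R x) atTop (𝓝 (f x))

/-- **FFS** (45 min; uses FPS, FRT, FDN): the final maximal inequality in the plane. -/
def T_FFS : Prop := T_CARLS → T_LLL → ∃ C : ℝ≥0, ∀ (D : Finset (E 2)) (h : D.Nonempty)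
  (g : E 2 → ℂ) (x0 : E 2), (∀ e ∈ D, ‖e‖ = 1) → Measurable g →
    ∫⁻ x in Metric.closedBall x0 1, Mx g x ^ 2 ≤
      C * D.card * ∫⁻ ξ, ‖g ξ‖ₑ ^ 2 * w2 12 (D.inf' h (fun e => dl e ξ))

/-- **FFW** (45 min; uses FPW, FRT, FDN, FAE): a.e. convergence in the plane, exponent `11`. -/
def T_FFW : Prop := T_CARLS → T_LLW → ∀ (D : Finset (E 2)) (h : D.Nonempty) (f : E 2 → ℂ),
  (∀ e ∈ D, ‖e‖ = 1) → Nice f →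
  ∫⁻ ξ, ‖𝓕 f ξ‖ₑ ^ 2 * w2 11 (D.inf' h (fun e => dl e ξ)) ≠ ⊤ →
    ∀ᵐ x, Tendsto (fun R : ℝ => S f R x) atTop (𝓝 (f x))

/-- **FFN** (45 min; uses FPN, FRT, FDN, FAE): all dimensions. -/
def T_FFN : Prop := T_CARLS → ∀ n : ℕ, 2 ≤ n → ∃ C : ℝ≥0, ∀ (D : Finset (E n)) (h : D.Nonempty),
  (∀ e ∈ D, ‖e‖ = 1) →
    (∀ (g : E n → ℂ) (x0 : E n), Measurable g →
      ∫⁻ x in Metric.closedBall x0 1, Mx g x ^ 2 ≤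
        C * D.card * ∫⁻ ξ, ‖g ξ‖ₑ ^ 2 * w1 (D.inf' h (fun e => dl e ξ))) ∧
    ∀ f : E n → ℂ, Nice f → ∫⁻ ξ, ‖𝓕 f ξ‖ₑ ^ 2 * w1 (D.inf' h (fun e => dl e ξ)) ≠ ⊤ →
      ∀ᵐ x, Tendsto (fun R : ℝ => S f R x) atTop (𝓝 (f x))

end Pool.Agent.CRF
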